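import Pool.Agent.T2H64.Star.Global

/-!
# The choice of the constants
-/

set_option autoImplicit false
set_option linter.unusedVariables false
set_option linter.unusedSimpArgs false
set_option linter.unusedSectionVars false

open Finset Filter Topology
open scoped Classical

namespace Pool.Agent.T2H64.Star

lemma It_one_le {n d : ℕ} (m : ℕ) (G : SimpleGraph (Fin n)) : It d m (fun _ => (1 : ℝ)) G ≤ 1 := by
  induction m generalizing G with
  | zero => exact le_refl _
  | succ m ih =>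
    rw [It_succ]
    exact (E_mono fun H _ => ih H).trans (E_one_le G)

lemma pow_sum {n d : ℕ} (m : ℕ) (f : SimpleGraph (Fin n) → ℝ) (G : SimpleGraph (Fin n)) :
    ∑ H, (K d n ^ m) G H * f H = It d m f G := by
  induction m generalizing G with
  | zero =>
    rw [pow_zero, It_zero]
    simp [Matrix.one_apply]
  | succ m ih =>
    rw [pow_succ', It_succ]
    unfold E
    simp only [Matrix.mul_apply, sum_mul]
    rw [sum_comm]
    refine sum_congr rfl fun G' _ => ?_
    rw [← ih, mul_sum]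
    exact sum_congr rfl fun H _ => by ring

/-- the choice of `d` -/
lemma choice {s0 θ : ℝ} (hs0 : 0 < s0) (hs1 : s0 ≤ 1) :
    ∃ d : ℕ, 1 ≤ d ∧ Even d ∧ 28 ≤ s0 * √(d : ℝ) ∧ 2401 < s0 ^ 6 * √(d : ℝ) ∧ 1000 ≤ √(d : ℝ) ∧
      2 * (θ + 1) / s0 ≤ √(d : ℝ) ∧
      2 * √(d : ℝ) ^ 2 / s0 * (Real.exp ((θ + 1) ^ 2 / s0 ^ 2 + 58 * (θ + 1) / s0) *
        Real.exp (-√(d : ℝ))) ≤ 1 / 8 := by
  have hlim : Tendsto (fun k : ℕ => √(((2 * k : ℕ)) : ℝ)) atTop atTop := by
    apply Real.tendsto_sqrt_atTop.comp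
    apply tendsto_natCast_atTop_atTop.comp
    exact tendsto_id.const_mul_atTop' (by norm_num)
  have h1 : ∀ᶠ x : ℝ in atTop, 28 ≤ s0 * x := by
    filter_upwards [eventually_ge_atTop (28 / s0)] with x hx
    rw [div_le_iff₀ hs0] at hx
    linarith
  have h2 : ∀ᶠ x : ℝ in atTop, 2401 < s0 ^ 6 * x := by
    filter_upwards [eventually_gt_atTop (2401 / s0 ^ 6)] with x hx
    rw [div_lt_iff₀ (by positivity)] at hx
    linarith
  have h3 : ∀ᶠ x : ℝ in atTop, 2 * x ^ 2 / s0 * (Real.exp ((θ + 1) ^ 2 / s0 ^ 2 + 58 * (θ + 1) / s0) *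
        Real.exp (-x)) ≤ 1 / 8 := by
    have h4 : Tendsto (fun x : ℝ => (2 / s0 * Real.exp ((θ + 1) ^ 2 / s0 ^ 2 + 58 * (θ + 1) / s0)) *
        (x ^ 2 * Real.exp (-x))) atTop (𝓝 0) := by
      have := (Real.tendsto_pow_mul_exp_neg_atTop_nhds_zero 2).const_mul
        (2 / s0 * Real.exp ((θ + 1) ^ 2 / s0 ^ 2 + 58 * (θ + 1) / s0))
      simpa using this
    filter_upwards [h4.eventually (gt_mem_nhds (show (0 : ℝ) < 1 / 8 by norm_num))] with x hx
    refine le_trans (le_of_eq ?_) hx.le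
    ring
  have hev := hlim.eventually ((((h1.and h2).and (eventually_ge_atTop 1000)).and
    (eventually_ge_atTop (2 * (θ + 1) / s0))).and h3)
  obtain ⟨k, hk, hk1⟩ := (hev.and (eventually_ge_atTop 1)).exists
  obtain ⟨⟨⟨⟨a1, a2⟩, a3⟩, a4⟩, a5⟩ := hk
  exact ⟨2 * k, by omega, even_two_mul k, a1, a2, a3, a4, a5⟩

/-- **The star process produces graphs which are not pseudo-random.** -/
theorem final : ∃ d : ℕ, 1 ≤ d ∧ Even d ∧
    ¬ Tendsto (fun n : ℕ => It d n (iA d) (⊥ : SimpleGraph (Fin n))) atTop (𝓝 0) := by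
  set X : ℝ := 2 * 400 ^ 2 + 311 * 400 + 1 / 2 with hX
  set σ : ℝ := Real.exp (-X - 1) with hσ
  have hσ0 : 0 < σ := Real.exp_pos _
  have hσ1 : σ ≤ 1 := by
    rw [hσ]
    apply Real.exp_le_one_iff.2
    rw [hX]
    norm_num
  set s0 : ℝ := σ ^ 2 / 2 with hs0d
  have hs0 : 0 < s0 := by positivity
  have hs1 : s0 ≤ 1 := by
    have : σ ^ 2 ≤ 1 := pow_le_one₀ hσ0.le hσ1
    linarith
  obtain ⟨d, hd1, hdev, c1, c2, c3, c4, c5⟩ := choice (θ := 400) hs0 hs1
  refine ⟨d, hd1, hdev, fun hlim => ?_⟩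
  set D : ℝ := √(d : ℝ) with hD
  have hD2 : D ^ 2 = d := Real.sq_sqrt (Nat.cast_nonneg d)
  have hD0 : 0 < D := by linarith
  set a : ℝ := 400 / D with ha
  have ha0 : 0 < a := by positivity
  have haD : a * D = 400 := by rw [ha]; field_simp
  have ha1 : a ≤ 1 := by rw [ha, div_le_one hD0]; linarith
  set g : ℝ := Real.exp a - 1 with hg
  have hgl : a + a ^ 2 / 2 ≤ g := by
    have := Real.quadratic_le_exp_of_nonneg ha0.le
    rw [hg]; linarith
  have hgu : g ≤ a + a ^ 2 := by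
    have := Real.abs_exp_sub_one_sub_id_le (show |a| ≤ 1 by rw [abs_of_pos ha0]; exact ha1)
    rw [abs_le] at this
    rw [hg]; linarith [this.2]
  have haa : a ^ 2 ≤ a := by
    have := mul_le_mul_of_nonneg_left ha1 ha0.le
    rw [sq]; linarith
  have hg2 : g ≤ 2 * a := by linarith
  have hg0 : 0 ≤ g := by
    have : 0 ≤ a ^ 2 := by positivity
    linarith
  have hg1 : g ≤ 1 := by
    have : a ≤ 400 / 1000 := by
      rw [ha]; exact div_le_div_of_nonneg_left (by norm_num) (by norm_num) c3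
    linarith
  set ν : ℝ := s0 ^ 2 / D with hν
  have hν0 : 0 < ν := by positivity
  set A : ℝ := 401 / (s0 * D) with hA
  have hA0 : 0 < A := by positivity
  have hAD : A * D = 401 / s0 := by rw [hA]; field_simp
  have hA1 : A ≤ 1 := by
    rw [hA, div_le_one (by positivity)]
    norm_num at c4
    rw [div_le_iff₀ hs0] at c4
    linarith
  obtain ⟨k0, hk0⟩ := reg_half d
  -- choice of `n`
  have hnlim : Tendsto (fun n : ℕ => (n : ℝ)) atTop atTop := tendsto_natCast_atTop_atTop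
  have hev : ∀ᶠ n : ℕ in atTop, 2 * Real.exp (a * d) * It d n (iA d) (⊥ : SimpleGraph (Fin n)) < 1 / 8 := by
    have h1 := hlim.const_mul (2 * Real.exp (a * d))
    rw [mul_zero] at h1
    exact h1.eventually (gt_mem_nhds (by norm_num))
  obtain ⟨n, hn⟩ := (hev.and ((hnlim.eventually_ge_atTop (4 / s0)).and
    ((hnlim.eventually_ge_atTop (((k0 : ℝ) + 1 + d) * 4 / (3 * s0))).and
    ((hnlim.eventually_ge_atTop (2 * (g ^ 2 * (d : ℝ) ^ 2))).and
    ((hnlim.eventually_ge_atTop 16).and (hnlim.eventually_ge_atTop ((d : ℝ) + 1))))))).exists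
  obtain ⟨n7, n1, n2, n3, n4, n5⟩ := hn
  have hn0 : (0 : ℝ) < n := by linarith
  have hd0 : (0 : ℝ) ≤ d := Nat.cast_nonneg d
  rw [div_le_iff₀ hs0] at n1
  rw [div_le_iff₀ (by positivity)] at n2
  set T : ℕ := ⌊(1 - s0) * n⌋₊ with hT
  have hTle : (T : ℝ) ≤ (1 - s0) * n := Nat.floor_le (mul_nonneg (by linarith) hn0.le)
  have hTge : (1 - s0) * n < T + 1 := Nat.lt_floor_add_one _
  have hp : Par d n T k0 s0 ν := by
    refine ⟨hd1, hs0, hs1, hTle, hν0, ?_, ?_, by linarith, by linarith, c1⟩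
    · rw [hν, div_le_div_iff₀ hD0 (by norm_num)]
      have h1 : s0 * 4 ≤ D := by linarith
      have h2 := mul_le_mul_of_nonneg_left h1 hs0.le
      calc s0 ^ 2 * 4 = s0 * (s0 * 4) := by ring
        _ ≤ s0 * D := h2
    · have : (d : ℝ) ^ 2 * ν ^ 3 = s0 ^ 6 * D := by
        rw [← hD2, hν]; field_simp
      rw [this]; exact c2
  have hreg : ∀ (m t : ℕ) (G : SimpleGraph (Fin n)), t + m = n → Inv d t G →
      k0 ≤ (U d G).card → 1 / 2 ≤ It d m (ind d) G := fun m t G => hk0 n (hdev.mul_right n) m t G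
  have hxT : (T : ℝ) / n ≤ 1 := by
    rw [div_le_one hn0]
    have h1 := mul_pos hs0 hn0
    have h2 : (1 - s0) * n = n - s0 * n := by ring
    linarith
  have hxT0 : 0 ≤ (T : ℝ) / n := by positivity
  refine core hp hreg (a := a) (A := A) (σ := σ) ha0.le hA0.le hσ0 ?_ ?_ n4 ?_ ?_ ?_ n7.le ?_ ?_
  · rw [← hg, div_le_iff₀ hn0]
    linarith
  · -- 16 ≤ Λ
    rw [← hg]
    have h1 : 0 ≤ (d : ℝ) - 112 * D := by
      have := mul_le_mul_of_nonneg_right c3 hD0.le
      rw [← hD2, sq]; linarith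
    have h2 := mul_le_mul_of_nonneg_right hgl h1
    have h3 : (a + a ^ 2 / 2) * (d - 112 * D) - a * (d + 28 * D) =
        a ^ 2 * D ^ 2 / 2 - 140 * (a * D) - 56 * (a ^ 2 * D) := by
      rw [← hD2]; ring
    have h4 : a ^ 2 * D ^ 2 = 160000 := by
      calc a ^ 2 * D ^ 2 = (a * D) ^ 2 := by ring
        _ = _ := by rw [haD]; norm_num
    have h5 : a ^ 2 * D ≤ 160000 / 1000 := by
      rw [le_div_iff₀ (by norm_num)]
      calc a ^ 2 * D * 1000 ≤ a ^ 2 * D * D := mul_le_mul_of_nonneg_left c3 (by positivity)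
        _ = 160000 := by rw [← h4]; ring
    rw [haD, h4] at h3
    linarith
  · -- 4dν/s0²
    rw [hν]
    have : 4 * (d : ℝ) * (s0 ^ 2 / D) / s0 ^ 2 = 4 * D := by
      rw [← hD2]; field_simp
    rw [this]
    linarith
  · linarith
  · -- the number of passively saturated vertices
    rw [← hg]
    have hgA : Real.exp A - 1 ≤ A + A ^ 2 := by
      have := Real.abs_exp_sub_one_sub_id_le (show |A| ≤ 1 by rw [abs_of_pos hA0]; exact hA1)
      rw [abs_le] at this
      linarith [this.2]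
    have hB0 : 0 ≤ (d : ℝ) * (1 - s0) + 28 * D + 1 := by
      have : 0 ≤ (d : ℝ) * (1 - s0) := mul_nonneg hd0 (by linarith)
      positivity
    have hexp : a * d - A * d + (Real.exp A - 1) * (d * (1 - s0) + 28 * D + 1) ≤
        ((400 + 1) ^ 2 / s0 ^ 2 + 58 * (400 + 1) / s0) + -D := by
      have h1 := mul_le_mul_of_nonneg_right hgA hB0
      have e1 : a * d = 400 * D := by rw [← hD2, ← haD]; ring
      have e2 : A * d * s0 = 401 * D := by
        rw [← hD2]
        calc A * D ^ 2 * s0 = (A * D) * D * s0 := by ring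
          _ = _ := by rw [hAD]; field_simp
      have e3 : A ^ 2 * d = 401 ^ 2 / s0 ^ 2 := by
        rw [← hD2]
        calc A ^ 2 * D ^ 2 = (A * D) ^ 2 := by ring
          _ = _ := by rw [hAD, div_pow]
      have e4 : (A + A ^ 2) * (d * (1 - s0) + 28 * D + 1) = A * d - A * d * s0 + A ^ 2 * d -
          A ^ 2 * d * s0 + (A + A ^ 2) * (28 * D + 1) := by ring
      have e5 : 0 ≤ A ^ 2 * d * s0 := by positivity
      have e6 : (A + A ^ 2) * (28 * D + 1) ≤ 58 * (401 / s0) := by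
        have h2 : A + A ^ 2 ≤ 2 * A := by
          have := mul_le_mul_of_nonneg_left hA1 hA0.le
          rw [sq]; linarith
        have h3 : 28 * D + 1 ≤ 29 * D := by linarith
        calc (A + A ^ 2) * (28 * D + 1) ≤ (2 * A) * (29 * D) :=
              mul_le_mul h2 h3 (by positivity) (by positivity)
          _ = 58 * (A * D) := by ring
          _ = _ := by rw [hAD]
      rw [e1]
      rw [e3] at e5
      rw [e4, e2, e3] at h1
      have e7 : (401 : ℝ) ^ 2 / s0 ^ 2 + 58 * (401 / s0) + -D =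
        ((400 + 1) ^ 2 / s0 ^ 2 + 58 * (400 + 1) / s0) + -D := by ring
      linarith
    have h1 : Real.exp (a * d - A * d + (Real.exp A - 1) * (d * (1 - s0) + 28 * D + 1)) ≤
        Real.exp ((400 + 1) ^ 2 / s0 ^ 2 + 58 * (400 + 1) / s0) * Real.exp (-D) := by
      rw [← Real.exp_add]
      exact Real.exp_le_exp.2 hexp
    refine le_trans ?_ c5
    have h2 : g * (2 * d / s0) ≤ 2 * D ^ 2 / s0 := by
      rw [hD2]
      have : 0 ≤ 2 * (d : ℝ) / s0 := by positivity
      exact mul_le_of_le_one_left this hg1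
    exact mul_le_mul h2 h1 (Real.exp_pos _).le (by positivity)
  · have : σ ^ 2 = 2 * s0 := by rw [hs0d]; ring
    rw [this]
    have h2 : (1 - s0) * n = n - s0 * n := by ring
    have h3 : (n : ℝ) * s0 = s0 * n := by ring
    linarith
  · -- the final inequality
    rw [← hg]
    have e1 : (Real.exp (2 * a) - 1) / 2 = g + g ^ 2 / 2 := by
      have : Real.exp (2 * a) = (g + 1) ^ 2 := by
        rw [hg]
        have : Real.exp a - 1 + 1 = Real.exp a := by ring
        rw [this, ← Real.exp_nat_mul]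
        push_cast
        ring_nf
      rw [this]; ring
    rw [e1]
    set x : ℝ := (T : ℝ) / n with hx
    have hgD : g * D ≤ 800 := by
      calc g * D ≤ 2 * a * D := mul_le_mul_of_nonneg_right hg2 hD0.le
        _ = 800 := by rw [mul_assoc, haD]; norm_num
    have hg2' : g ≤ 2 := by linarith
    have e2 : (g + g ^ 2 / 2) * (d * x + 28 * D + 1) - g * ((d - 112 * D) * x) + 1 / 2 =
        (g * D) ^ 2 / 2 * x + (g + g ^ 2 / 2) * (28 * D + 1) + 112 * (g * D) * x + 1 / 2 := by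
      rw [← hD2]; ring
    have hgD0 : 0 ≤ g * D := by positivity
    have e3 : (g * D) ^ 2 / 2 * x ≤ 320000 := by
      have h1 : (g * D) ^ 2 ≤ 800 ^ 2 := pow_le_pow_left₀ hgD0 hgD 2
      have h2 : 0 ≤ (g * D) ^ 2 / 2 := by positivity
      calc (g * D) ^ 2 / 2 * x ≤ (g * D) ^ 2 / 2 * 1 := mul_le_mul_of_nonneg_left hxT h2
        _ ≤ 320000 := by linarith
    have e4 : (g + g ^ 2 / 2) * (28 * D + 1) ≤ 34800 := by
      have h1 : g + g ^ 2 / 2 ≤ 3 / 2 * g := by
        have := mul_le_mul_of_nonneg_left hg1 hg0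
        rw [sq]; linarith
      have h2 : 28 * D + 1 ≤ 29 * D := by linarith
      calc (g + g ^ 2 / 2) * (28 * D + 1) ≤ (3 / 2 * g) * (29 * D) :=
            mul_le_mul h1 h2 (by positivity) (by positivity)
        _ = 87 / 2 * (g * D) := by ring
        _ ≤ 87 / 2 * 800 := mul_le_mul_of_nonneg_left hgD (by norm_num)
        _ = 34800 := by norm_num
    have e5 : 112 * (g * D) * x ≤ 89600 := by
      calc 112 * (g * D) * x ≤ 112 * (g * D) * 1 := mul_le_mul_of_nonneg_left hxT (by positivity)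
        _ ≤ 89600 := by linarith
    have e6 : (g + g ^ 2 / 2) * (d * x + 28 * D + 1) - g * ((d - 112 * D) * x) + 1 / 2 ≤ X := by
      rw [e2, hX]
      linarith
    calc σ * Real.exp ((g + g ^ 2 / 2) * (d * x + 28 * D + 1) - g * ((d - 112 * D) * x) + 1 / 2) ≤
        σ * Real.exp X := mul_le_mul_of_nonneg_left (Real.exp_le_exp.2 e6) hσ0.le
      _ = Real.exp (-1) := by rw [hσ, ← Real.exp_add]; congr 1; ring
      _ < 1 / 2 := by
        rw [Real.exp_neg, inv_lt_comm₀ (Real.exp_pos _) (by norm_num)]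
        have := Real.exp_one_gt_d9
        norm_num
        linarith

end Pool.Agent.T2H64.Star
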