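import Mathlib

/-!
# The star process: definitions, invariants, averages
-/

set_option autoImplicit false
set_option linter.unusedVariables false

open Finset
open scoped Classical

namespace Pool.Agent.T2H64.Star

variable {n : ℕ}

/-- the degree -/
noncomputable def dg (G : SimpleGraph (Fin n)) (v : Fin n) : ℕ := (univ.filter (fun u => G.Adj v u)).card

lemma degree_eq (G : SimpleGraph (Fin n)) (v : Fin n) [Fintype (G.neighborSet v)] :
    G.degree v = dg G v := by
  unfold dg SimpleGraph.degree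
  congr 1
  ext u
  simp

/-- candidates -/
noncomputable def cand (d : ℕ) (G : SimpleGraph (Fin n)) (v : Fin n) : Finset (Fin n) :=
  univ.filter (fun u => u ≠ v ∧ dg G u < d ∧ ¬ G.Adj v u)

/-- vertices of minimum degree -/
noncomputable def mins (G : SimpleGraph (Fin n)) : Finset (Fin n) :=
  univ.filter (fun w => ∀ u, dg G w ≤ dg G u)

/-- the graph after a step -/
def star (G : SimpleGraph (Fin n)) (v : Fin n) (S : Finset (Fin n)) : SimpleGraph (Fin n) :=
  G ⊔ SimpleGraph.fromRel (fun x y => x = v ∧ y ∈ S)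

/-- regular graphs -/
def Reg (d : ℕ) (G : SimpleGraph (Fin n)) : Prop := ∀ v, dg G v = d

/-- the average over the sets `S` -/
noncomputable def Av (C : Finset (Fin n)) (r : ℕ) (F : Finset (Fin n) → ℝ) : ℝ :=
  (∑ S ∈ C.powersetCard r, F S) / ((C.card.choose r : ℕ) : ℝ)

lemma Av_const {C : Finset (Fin n)} {r : ℕ} (h : r ≤ C.card) (c : ℝ) : Av C r (fun _ => c) = c := by
  unfold Av
  rw [sum_const, card_powersetCard, nsmul_eq_mul]
  have : (0 : ℝ) < (C.card.choose r : ℕ) := by exact_mod_cast Nat.choose_pos h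
  field_simp

lemma Av_add (C : Finset (Fin n)) (r : ℕ) (F F' : Finset (Fin n) → ℝ) :
    Av C r (fun S => F S + F' S) = Av C r F + Av C r F' := by
  unfold Av
  rw [sum_add_distrib, add_div]

lemma Av_mul (C : Finset (Fin n)) (r : ℕ) (c : ℝ) (F : Finset (Fin n) → ℝ) :
    Av C r (fun S => c * F S) = c * Av C r F := by
  unfold Av
  rw [← mul_sum, mul_div_assoc]

lemma Av_mono {C : Finset (Fin n)} {r : ℕ} {F F' : Finset (Fin n) → ℝ}
    (h : ∀ S, S ⊆ C → S.card = r → F S ≤ F' S) : Av C r F ≤ Av C r F' := by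
  unfold Av
  apply div_le_div_of_nonneg_right _ (Nat.cast_nonneg _)
  exact sum_le_sum fun S hS => h S (mem_powersetCard.1 hS).1 (mem_powersetCard.1 hS).2

lemma Av_congr {C : Finset (Fin n)} {r : ℕ} {F F' : Finset (Fin n) → ℝ}
    (h : ∀ S, S ⊆ C → S.card = r → F S = F' S) : Av C r F = Av C r F' :=
  le_antisymm (Av_mono fun S h1 h2 => (h S h1 h2).le) (Av_mono fun S h1 h2 => (h S h1 h2).ge)

lemma Av_nonneg {C : Finset (Fin n)} {r : ℕ} {F : Finset (Fin n) → ℝ}
    (h : ∀ S, S ⊆ C → S.card = r → 0 ≤ F S) : 0 ≤ Av C r F := by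
  unfold Av
  apply div_nonneg _ (Nat.cast_nonneg _)
  exact sum_nonneg fun S hS => h S (mem_powersetCard.1 hS).1 (mem_powersetCard.1 hS).2

lemma card_mem {C : Finset (Fin n)} {w : Fin n} (hw : w ∈ C) (r : ℕ) :
    ((C.powersetCard (r + 1)).filter (fun S => w ∈ S)).card = (C.card - 1).choose r := by
  have h1 : C = insert w (C.erase w) := (insert_erase hw).symm
  conv_lhs => rw [h1]
  rw [powersetCard_succ_insert (notMem_erase w C), filter_union]
  have h2 : ((C.erase w).powersetCard (r + 1)).filter (fun S => w ∈ S) = ∅ := by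
    rw [filter_eq_empty_iff]
    intro S hS hwS
    exact notMem_erase w C ((mem_powersetCard.1 hS).1 hwS)
  have h3 : (((C.erase w).powersetCard r).image (insert w)).filter (fun S => w ∈ S) =
      ((C.erase w).powersetCard r).image (insert w) := by
    rw [filter_eq_self]
    intro S hS
    obtain ⟨T, hT, rfl⟩ := mem_image.1 hS
    exact mem_insert_self _ _
  rw [h2, h3, empty_union, card_image_of_injOn, card_powersetCard, card_erase_of_mem hw]
  intro S hS T hT hST
  have hS' : w ∉ S := fun h => notMem_erase w C ((mem_powersetCard.1 hS).1 h)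
  have hT' : w ∉ T := fun h => notMem_erase w C ((mem_powersetCard.1 hT).1 h)
  rw [← erase_insert hS', ← erase_insert hT', hST]

/-- average of a linear functional -/
lemma Av_sum {C : Finset (Fin n)} {r : ℕ} (h : r ≤ C.card) (f : Fin n → ℝ) :
    Av C r (fun S => ∑ w ∈ S, f w) = r / C.card * ∑ w ∈ C, f w := by
  rcases Nat.eq_zero_or_pos r with hr | hr
  · subst hr
    simp [Av]
  obtain ⟨k, rfl⟩ : ∃ k, r = k + 1 := ⟨r - 1, by omega⟩
  have hC : 0 < C.card := by omega
  unfold Av
  have e1 : ∑ S ∈ C.powersetCard (k + 1), ∑ w ∈ S, f w =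
      ∑ S ∈ C.powersetCard (k + 1), ∑ w ∈ C, (if w ∈ S then f w else 0) := by
    refine sum_congr rfl fun S hS => ?_
    rw [← sum_filter]
    congr 1
    ext w
    simp only [mem_filter]
    exact ⟨fun h => ⟨(mem_powersetCard.1 hS).1 h, h⟩, fun h => h.2⟩
  rw [e1, sum_comm]
  have e2 : ∀ w ∈ C, ∑ S ∈ C.powersetCard (k + 1), (if w ∈ S then f w else 0) =
      ((C.card - 1).choose k : ℕ) * f w := by
    intro w hw
    rw [← sum_filter, sum_const, card_mem hw, nsmul_eq_mul]
  rw [sum_congr rfl e2, ← mul_sum]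
  have hpos : (0 : ℝ) < (C.card.choose (k + 1) : ℕ) := by exact_mod_cast Nat.choose_pos h
  have hC' : (0 : ℝ) < C.card := by exact_mod_cast hC
  have e3 : (C.card : ℝ) * ((C.card - 1).choose k : ℕ) = (C.card.choose (k + 1) : ℕ) * (k + 1) := by
    have := Nat.add_one_mul_choose_eq (C.card - 1) k
    rw [Nat.sub_add_cancel (by omega : 1 ≤ C.card)] at this
    exact_mod_cast this
  push_cast
  rw [div_mul_eq_mul_div, div_eq_div_iff hpos.ne' hC'.ne']
  linear_combination (∑ w ∈ C, f w) * e3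

/-- the transition kernel -/
noncomputable def K (d n : ℕ) : Matrix (SimpleGraph (Fin n)) (SimpleGraph (Fin n)) ℝ :=
  fun G H => if Reg d G then (if H = G then 1 else 0) else
    ∑ v ∈ mins G, ∑ S ∈ (cand d G v).powersetCard (d - dg G v),
      (if H = star G v S then (1 : ℝ) else 0) /
        (((mins G).card : ℝ) * (((cand d G v).card.choose (d - dg G v) : ℕ) : ℝ))

/-- the transition operator -/
noncomputable def E (d : ℕ) (f : SimpleGraph (Fin n) → ℝ) (G : SimpleGraph (Fin n)) : ℝ :=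
  ∑ H, K d n G H * f H

lemma E_reg {d : ℕ} {G : SimpleGraph (Fin n)} (h : Reg d G) (f : SimpleGraph (Fin n) → ℝ) :
    E d f G = f G := by
  unfold E K
  simp [h]

lemma E_eq {d : ℕ} {G : SimpleGraph (Fin n)} (h : ¬ Reg d G) (f : SimpleGraph (Fin n) → ℝ) :
    E d f G = (∑ v ∈ mins G, Av (cand d G v) (d - dg G v) (fun S => f (star G v S))) /
      ((mins G).card : ℝ) := by
  unfold E K Av
  simp only [h, if_false]
  simp only [sum_mul]
  rw [sum_comm, sum_div]
  refine sum_congr rfl fun v _ => ?_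
  rw [sum_comm, sum_div, sum_div]
  refine sum_congr rfl fun S _ => ?_
  have : ∀ H : SimpleGraph (Fin n), (if H = star G v S then (1 : ℝ) else 0) /
        (((mins G).card : ℝ) * (((cand d G v).card.choose (d - dg G v) : ℕ) : ℝ)) * f H =
      if H = star G v S then f (star G v S) /
        (((mins G).card : ℝ) * (((cand d G v).card.choose (d - dg G v) : ℕ) : ℝ)) else 0 := by
    intro H
    split_ifs with h1
    · rw [h1]; ring
    · simp
  simp only [this, sum_ite_eq', mem_univ, if_true]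
  rw [div_div, mul_comm ((mins G).card : ℝ)]

lemma K_nonneg (d : ℕ) (G H : SimpleGraph (Fin n)) : 0 ≤ K d n G H := by
  unfold K
  split_ifs
  · norm_num
  · norm_num
  · refine sum_nonneg fun v _ => sum_nonneg fun S _ => ?_
    split_ifs <;> positivity

lemma K_ne_zero {d : ℕ} {G H : SimpleGraph (Fin n)} (h : K d n G H ≠ 0) (hG : ¬ Reg d G) :
    ∃ v ∈ mins G, ∃ S, S ⊆ cand d G v ∧ S.card = d - dg G v ∧ H = star G v S := by
  unfold K at h
  rw [if_neg hG] at h
  obtain ⟨v, hv, h1⟩ := exists_ne_zero_of_sum_ne_zero h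
  obtain ⟨S, hS, h2⟩ := exists_ne_zero_of_sum_ne_zero h1
  refine ⟨v, hv, S, (mem_powersetCard.1 hS).1, (mem_powersetCard.1 hS).2, ?_⟩
  by_contra hc
  simp [hc] at h2

lemma mins_nonempty (hn : 0 < n) (G : SimpleGraph (Fin n)) : (mins G).Nonempty := by
  have : (univ : Finset (Fin n)).Nonempty := ⟨⟨0, hn⟩, mem_univ _⟩
  obtain ⟨v, -, hv⟩ := exists_min_image univ (dg G) this
  exact ⟨v, by unfold mins; simp only [mem_filter, mem_univ, true_and]; exact fun u => hv u (mem_univ _)⟩

lemma E_le {d : ℕ} (hn : 0 < n) {G : SimpleGraph (Fin n)} (h : ¬ Reg d G)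
    {f : SimpleGraph (Fin n) → ℝ} {c : ℝ}
    (hc : ∀ v ∈ mins G, Av (cand d G v) (d - dg G v) (fun S => f (star G v S)) ≤ c) :
    E d f G ≤ c := by
  rw [E_eq h]
  have h1 : 0 < (mins G).card := (mins_nonempty hn G).card_pos
  have h1' : (0 : ℝ) < (mins G).card := by exact_mod_cast h1
  rw [div_le_iff₀ h1', mul_comm, ← nsmul_eq_mul]
  exact sum_le_card_nsmul _ _ _ hc

lemma le_E {d : ℕ} (hn : 0 < n) {G : SimpleGraph (Fin n)} (h : ¬ Reg d G)
    {f : SimpleGraph (Fin n) → ℝ} {c : ℝ}
    (hc : ∀ v ∈ mins G, c ≤ Av (cand d G v) (d - dg G v) (fun S => f (star G v S))) :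
    c ≤ E d f G := by
  rw [E_eq h]
  have h1 : 0 < (mins G).card := (mins_nonempty hn G).card_pos
  have h1' : (0 : ℝ) < (mins G).card := by exact_mod_cast h1
  rw [le_div_iff₀ h1', mul_comm, ← nsmul_eq_mul]
  exact card_nsmul_le_sum _ _ _ hc

lemma E_mono {d : ℕ} {f f' : SimpleGraph (Fin n) → ℝ} {G : SimpleGraph (Fin n)}
    (h : ∀ H, K d n G H ≠ 0 → f H ≤ f' H) : E d f G ≤ E d f' G := by
  unfold E
  refine sum_le_sum fun H _ => ?_
  by_cases hK : K d n G H = 0
  · simp [hK]
  · exact mul_le_mul_of_nonneg_left (h H hK) (K_nonneg d G H)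

/-! ### degrees -/

lemma star_adj {G : SimpleGraph (Fin n)} {v : Fin n} {S : Finset (Fin n)} (hv : v ∉ S)
    (x y : Fin n) : (star G v S).Adj x y ↔ G.Adj x y ∨ (x = v ∧ y ∈ S) ∨ (y = v ∧ x ∈ S) := by
  unfold star
  rw [SimpleGraph.sup_adj, SimpleGraph.fromRel_adj]
  constructor
  · rintro (h | ⟨-, h | h⟩)
    · exact Or.inl h
    · exact Or.inr (Or.inl h)
    · exact Or.inr (Or.inr h)
  · rintro (h | h | h)
    · exact Or.inl h
    · refine Or.inr ⟨?_, Or.inl h⟩
      rintro rfl
      exact hv (h.1 ▸ h.2)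
    · refine Or.inr ⟨?_, Or.inr h⟩
      rintro rfl
      exact hv (h.1 ▸ h.2)

lemma le_star (G : SimpleGraph (Fin n)) (v : Fin n) (S : Finset (Fin n)) : G ≤ star G v S :=
  le_sup_left

lemma dg_star_self {G : SimpleGraph (Fin n)} {v : Fin n} {S : Finset (Fin n)} (hv : v ∉ S)
    (hS : ∀ u ∈ S, ¬ G.Adj v u) : dg (star G v S) v = dg G v + S.card := by
  unfold dg
  rw [← card_union_of_disjoint]
  · congr 1
    ext u
    simp only [mem_filter, mem_univ, true_and, mem_union, star_adj hv]
    constructor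
    · rintro (h | h | h)
      · exact Or.inl h
      · exact Or.inr h
      · exact absurd h.2 hv
    · rintro (h | h)
      · exact Or.inl h
      · exact Or.inr (Or.inl h)
  · rw [disjoint_left]
    intro u hu hu'
    exact hS u hu' (mem_filter.1 hu).2

lemma dg_star_mem {G : SimpleGraph (Fin n)} {v : Fin n} {S : Finset (Fin n)} (hv : v ∉ S)
    (hS : ∀ u ∈ S, ¬ G.Adj v u) {w : Fin n} (hw : w ∈ S) : dg (star G v S) w = dg G w + 1 := by
  unfold dg
  have hwv : w ≠ v := fun h => hv (h ▸ hw)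
  have hnot : v ∉ univ.filter (fun u => G.Adj w u) := by
    simp only [mem_filter, mem_univ, true_and]
    exact fun h => hS w hw h.symm
  rw [← card_insert_of_notMem hnot]
  congr 1
  ext u
  simp only [mem_filter, mem_univ, true_and, mem_insert, star_adj hv]
  constructor
  · rintro (h | h | h)
    · exact Or.inr h
    · exact absurd h.1 hwv
    · exact Or.inl h.1
  · rintro (h | h)
    · exact Or.inr (Or.inr ⟨h, hw⟩)
    · exact Or.inl h

lemma dg_star_other {G : SimpleGraph (Fin n)} {v : Fin n} {S : Finset (Fin n)} (hv : v ∉ S)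
    {w : Fin n} (hwv : w ≠ v) (hw : w ∉ S) : dg (star G v S) w = dg G w := by
  unfold dg
  congr 1
  ext u
  simp only [mem_filter, mem_univ, true_and, star_adj hv]
  constructor
  · rintro (h | h | h)
    · exact h
    · exact absurd h.1 hwv
    · exact absurd h.2 hw
  · exact Or.inl

/-- sums over vertices after a step -/
lemma sum_star {G : SimpleGraph (Fin n)} {v : Fin n} {S : Finset (Fin n)} (hv : v ∉ S)
    (hS : ∀ u ∈ S, ¬ G.Adj v u) (φ : ℕ → ℝ) :
    ∑ w, φ (dg (star G v S) w) = ∑ w, φ (dg G w) - φ (dg G v) + φ (dg G v + S.card) +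
      ∑ w ∈ S, (φ (dg G w + 1) - φ (dg G w)) := by
  have h1 : ∀ w, φ (dg (star G v S) w) = φ (dg G w) +
      (if w = v then φ (dg G v + S.card) - φ (dg G v) else 0) +
      (if w ∈ S then φ (dg G w + 1) - φ (dg G w) else 0) := by
    intro w
    by_cases hw : w = v
    · subst hw
      rw [dg_star_self hv hS]
      simp [hv]
    · by_cases hwS : w ∈ S
      · rw [dg_star_mem hv hS hwS]
        simp [hw, hwS]
      · rw [dg_star_other hv hw hwS]
        simp [hw, hwS]
  simp only [h1, sum_add_distrib]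
  rw [Finset.sum_ite_eq' univ v, if_pos (mem_univ v), ← sum_filter]
  have h2 : univ.filter (fun w => w ∈ S) = S := by ext; simp
  rw [h2]
  ring

/-- unsaturated vertices -/
noncomputable def U (d : ℕ) (G : SimpleGraph (Fin n)) : Finset (Fin n) := univ.filter (fun u => dg G u < d)

/-- the invariant of the states which can be reached in `t` steps -/
def Inv (d t : ℕ) (G : SimpleGraph (Fin n)) : Prop :=
  ∃ P : Finset (Fin n), P.card = t ∧ (∀ v ∈ P, dg G v = d) ∧
    (∀ u v, G.Adj u v → u ∈ P ∨ v ∈ P) ∧ ∀ v, dg G v ≤ d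

lemma Inv_bot (d : ℕ) : Inv d 0 (⊥ : SimpleGraph (Fin n)) := by
  refine ⟨∅, rfl, by simp, by simp, fun v => ?_⟩
  unfold dg
  simp

lemma cand_eq {d t : ℕ} {G : SimpleGraph (Fin n)} (h : Inv d t G) {v : Fin n} (hv : dg G v < d) :
    cand d G v = (U d G).erase v := by
  obtain ⟨P, h1, h2, h3, h4⟩ := h
  unfold cand U
  ext u
  simp only [mem_filter, mem_univ, true_and, mem_erase]
  constructor
  · rintro ⟨a, b, c⟩; exact ⟨a, b⟩
  · rintro ⟨a, b⟩
    refine ⟨a, b, fun hc => ?_⟩
    rcases h3 v u hc with h5 | h5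
    · have := h2 v h5; omega
    · have := h2 u h5; omega

lemma mins_lt {d t : ℕ} {G : SimpleGraph (Fin n)} (h : Inv d t G) (hG : ¬ Reg d G) {v : Fin n}
    (hv : v ∈ mins G) : dg G v < d := by
  obtain ⟨P, h1, h2, h3, h4⟩ := h
  unfold Reg at hG
  push Not at hG
  obtain ⟨w, hw⟩ := hG
  have h5 := (mem_filter.1 hv).2 w
  have h6 := h4 w
  omega

/-- facts about a set of chosen vertices -/
lemma sub_facts {d t : ℕ} {G : SimpleGraph (Fin n)} (h : Inv d t G) {v : Fin n} (hv : dg G v < d)
    {S : Finset (Fin n)} (hS : S ⊆ cand d G v) : v ∉ S ∧ (∀ u ∈ S, ¬ G.Adj v u) ∧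
      ∀ u ∈ S, dg G u < d := by
  refine ⟨fun hc => ?_, fun u hu => ?_, fun u hu => ?_⟩
  · exact (mem_filter.1 (hS hc)).2.1 rfl
  · exact (mem_filter.1 (hS hu)).2.2.2
  · exact (mem_filter.1 (hS hu)).2.2.1

lemma Inv_star {d t : ℕ} {G : SimpleGraph (Fin n)} (h : Inv d t G) (hG : ¬ Reg d G) {v : Fin n}
    (hv : v ∈ mins G) {S : Finset (Fin n)} (hS : S ⊆ cand d G v) (hc : S.card = d - dg G v) :
    Inv d (t + 1) (star G v S) := by
  have hvd := mins_lt h hG hv
  obtain ⟨f1, f2, f3⟩ := sub_facts h hvd hS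
  obtain ⟨P, h1, h2, h3, h4⟩ := h
  have hvP : v ∉ P := fun hc => by have := h2 v hc; omega
  refine ⟨insert v P, by rw [card_insert_of_notMem hvP, h1], ?_, ?_, ?_⟩
  · intro u hu
    rcases mem_insert.1 hu with rfl | hu
    · rw [dg_star_self f1 f2, hc]; omega
    · have huv : u ≠ v := fun hh => hvP (hh ▸ hu)
      have huS : u ∉ S := fun hh => by
        have := f3 u hh
        have := h2 u hu
        omega
      rw [dg_star_other f1 huv huS, h2 u hu]
  · intro a b hab
    rw [star_adj f1] at hab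
    rcases hab with hab | hab | hab
    · rcases h3 a b hab with h5 | h5
      · exact Or.inl (mem_insert_of_mem h5)
      · exact Or.inr (mem_insert_of_mem h5)
    · exact Or.inl (by rw [hab.1]; exact mem_insert_self _ _)
    · exact Or.inr (by rw [hab.1]; exact mem_insert_self _ _)
  · intro w
    by_cases hw : w = v
    · subst hw
      rw [dg_star_self f1 f2, hc]; omega
    · by_cases hwS : w ∈ S
      · rw [dg_star_mem f1 f2 hwS]
        have := f3 w hwS
        omega
      · rw [dg_star_other f1 hw hwS]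
        exact h4 w

lemma Inv.le {d t : ℕ} {G : SimpleGraph (Fin n)} (h : Inv d t G) : t ≤ n := by
  obtain ⟨P, h1, -⟩ := h
  rw [← h1]
  simpa using card_le_univ P

/-- `t` chosen vertices are saturated -/
lemma Inv.card_U {d t : ℕ} {G : SimpleGraph (Fin n)} (h : Inv d t G) : (U d G).card + t ≤ n := by
  obtain ⟨P, h1, h2, -⟩ := h
  have hd : Disjoint (U d G) P := by
    rw [disjoint_left]
    intro a ha haP
    have := h2 a haP
    have h3 := (mem_filter.1 ha).2
    omega
  rw [← h1, ← card_union_of_disjoint hd]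
  simpa using card_le_univ (U d G ∪ P)

end Pool.Agent.T2H64.Star
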