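import Pool.Agent.T2H64.Star.State

/-!
# The killed chain
-/

set_option autoImplicit false
set_option linter.unusedVariables false
set_option linter.unusedSimpArgs false
set_option linter.unusedSectionVars false

open Finset
open scoped Classical

namespace Pool.Agent.T2H64.Star

variable {n : ℕ}

/-- parameters -/
structure Par (d n T k0 : ℕ) (s0 ν : ℝ) : Prop where
  hd : 0 < d
  hs0 : 0 < s0
  hs1 : s0 ≤ 1
  hT : (T : ℝ) ≤ (1 - s0) * n
  hν0 : 0 < ν
  hν1 : ν ≤ s0 / 4
  hν2 : 2401 < (d : ℝ) ^ 2 * ν ^ 3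
  hn1 : 4 ≤ s0 * n
  hn2 : (k0 : ℝ) + 1 + d ≤ 3 / 4 * (s0 * n)
  hd1 : 28 ≤ s0 * √d

/-- the support of the killed chain -/
def J (d k0 t : ℕ) (G : SimpleGraph (Fin n)) : Prop :=
  Inv d t G ∧ k0 ≤ (U d G).card ∧ Df d G * ((n : ℝ) - 1) ≤ d * (n - t) * (n - t - 1)

/-- good states -/
def Good (d k0 : ℕ) (ν : ℝ) (t : ℕ) (G : SimpleGraph (Fin n)) : Prop :=
  J d k0 t G ∧ ((n : ℝ) - t) ^ 2 * (d - et d n t) / n ≤ Df d G ∧ Np d t G ≤ ν * n

section

variable {d T k0 t : ℕ} {s0 ν : ℝ} (hp : Par d n T k0 s0 ν)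

include hp

lemma Par.n4 : (4 : ℝ) ≤ n := by
  have h1 := hp.hn1
  have h2 := hp.hs1
  have h3 : (0 : ℝ) ≤ n := Nat.cast_nonneg n
  nlinarith

lemma Par.npos : 0 < n := by
  have := hp.n4
  have h : (0 : ℝ) < n := by linarith
  exact_mod_cast h

lemma Par.Tn : T < n := by
  have h1 := hp.hT
  have h2 := hp.n4
  have h3 := hp.hn1
  have : (T : ℝ) < n := by linarith
  exact_mod_cast this

/-- times up to `T` -/
lemma Par.tle (ht : t ≤ T) : s0 * n ≤ (n : ℝ) - t := by
  have h1 := hp.hT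
  have : (t : ℝ) ≤ T := by exact_mod_cast ht
  linarith

lemma Good.u (ht : t ≤ T) {G : SimpleGraph (Fin n)} (h : Good d k0 ν t G) :
    3 / 4 * (s0 * n) ≤ (U d G).card := by
  have h1 := h.2.2
  unfold Np at h1
  have h2 := hp.tle ht
  have h3 := hp.hν1
  have h4 : (0 : ℝ) ≤ n := Nat.cast_nonneg n
  nlinarith

lemma Good.notReg (ht : t ≤ T) {G : SimpleGraph (Fin n)} (h : Good d k0 ν t G) : ¬ Reg d G := by
  intro hR
  have h1 := h.u hp ht
  have h2 : (U d G).card = 0 := by
    rw [card_eq_zero]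
    unfold U
    rw [filter_eq_empty_iff]
    intro v _ hv
    have := hR v
    omega
  rw [h2] at h1
  have := hp.hn1
  push_cast at h1
  linarith

lemma Good.u1 (ht : t ≤ T) {G : SimpleGraph (Fin n)} (h : Good d k0 ν t G) :
    s0 * n / 2 ≤ (U d G).card - 1 := by
  have h1 := h.u hp ht
  have := hp.hn1
  linarith

lemma Good.ud (ht : t ≤ T) {G : SimpleGraph (Fin n)} (h : Good d k0 ν t G) :
    (k0 : ℝ) + 1 + d ≤ (U d G).card := hp.hn2.trans (h.u hp ht)

lemma Good.free (ht : t ≤ T) {G : SimpleGraph (Fin n)} (h : Good d k0 ν t G) {v : Fin n}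
    (hv : v ∈ mins G) : d - dg G v ≤ (cand d G v).card := by
  obtain ⟨hc1, hc2⟩ := card_cand h.1.1 (h.notReg hp ht) hv
  have h1 := h.ud hp ht
  have h2 : k0 + 1 + d ≤ (U d G).card := by exact_mod_cast h1
  omega

/-- the new degree of `v` is at least the average deficit -/
lemma Good.R (ht : t ≤ T) {G : SimpleGraph (Fin n)} (h : Good d k0 ν t G) {v : Fin n}
    (hv : v ∈ mins G) : Df d G ≤ (n - t) * ((d : ℝ) - dg G v) := by
  have h1 := Df_le h.1.1 hv
  have h2 := Np_nonneg h.1.1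
  unfold Np at h2
  have h3 : 0 ≤ (d : ℝ) - dg G v := by
    have : (dg G v : ℝ) ≤ d := by exact_mod_cast h.1.1.dg_le v
    linarith
  nlinarith

lemma J_zero (hk : (k0 : ℝ) ≤ n) : J d k0 0 (⊥ : SimpleGraph (Fin n)) := by
  have hdeg : ∀ w : Fin n, dg (⊥ : SimpleGraph (Fin n)) w = 0 := by
    intro w; unfold dg; simp
  refine ⟨Inv_bot d, ?_, ?_⟩
  · have : U d (⊥ : SimpleGraph (Fin n)) = univ := by
      unfold U
      rw [filter_true_of_mem]
      intro w _
      rw [hdeg]; exact hp.hd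
    rw [this, card_univ, Fintype.card_fin]
    exact_mod_cast hk
  · unfold Df
    simp only [hdeg]
    simp
    ring_nf
    exact le_refl _

lemma Good_zero (hk : (k0 : ℝ) ≤ n) : Good d k0 ν 0 (⊥ : SimpleGraph (Fin n)) := by
  have hdeg : ∀ w : Fin n, dg (⊥ : SimpleGraph (Fin n)) w = 0 := by
    intro w; unfold dg; simp
  have hn : (0 : ℝ) < n := by exact_mod_cast hp.npos
  refine ⟨J_zero hp hk, ?_, ?_⟩
  · unfold Df et
    simp only [hdeg]
    simp
    rw [div_le_iff₀ hn]
    ring_nf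
    exact le_refl _
  · unfold Np
    have : U d (⊥ : SimpleGraph (Fin n)) = univ := by
      unfold U
      rw [filter_true_of_mem]
      intro w _
      rw [hdeg]; exact hp.hd
    rw [this, card_univ, Fintype.card_fin]
    have := hp.hν0
    simp
    positivity

/-- the support is preserved -/
lemma J_succ (ht : t ≤ T) {G H : SimpleGraph (Fin n)} (h : Good d k0 ν t G) (hK : K d n G H ≠ 0) :
    J d k0 (t + 1) H := by
  have hG := h.notReg hp ht
  obtain ⟨v, hv, S, hS, hc, rfl⟩ := K_ne_zero hK hG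
  have hI := h.1.1
  refine ⟨Inv_star hI hG hv hS hc, ?_, ?_⟩
  · have h1 := U_star hI hG hv hS hc
    have h2 : ∑ w ∈ S, (if dg G w + 1 = d then (1 : ℝ) else 0) ≤ d := by
      calc ∑ w ∈ S, (if dg G w + 1 = d then (1 : ℝ) else 0) ≤ ∑ w ∈ S, (1 : ℝ) :=
            sum_le_sum fun w _ => by split_ifs <;> norm_num
        _ = S.card := by simp
        _ ≤ d := by rw [hc]; exact_mod_cast Nat.sub_le _ _
    have h3 := h.ud hp ht
    have h4 : (k0 : ℝ) ≤ (U d (star G v S)).card := by rw [h1]; linarith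
    exact_mod_cast h4
  · rw [Df_star hI hG hv hS hc]
    have h1 := h.R hp ht hv
    have h2 := h.1.2.2
    have h3 := hp.tle ht
    have h4 := hp.hn1
    have hnt : (0 : ℝ) < n - t := by linarith
    have hnt2 : (2 : ℝ) ≤ n - t := by linarith
    have hn4 := hp.n4
    have hDf := Df_nonneg hI
    set R : ℝ := (d : ℝ) - dg G v with hR
    -- (Df − 2R)(n−1) ≤ Df (n−1)(n−t−2)/(n−t)
    have h5 : (Df d G - 2 * R) * (n - t) ≤ Df d G * (n - t - 2) := by nlinarith
    have h6 : (Df d G - 2 * R) * (n - t) * (n - 1) ≤ d * (n - t) * (n - t - 1) * (n - t - 2) := by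
      calc (Df d G - 2 * R) * (n - t) * (n - 1) ≤ Df d G * (n - t - 2) * (n - 1) :=
            mul_le_mul_of_nonneg_right h5 (by linarith)
        _ = (Df d G * (n - 1)) * (n - t - 2) := by ring
        _ ≤ (d * (n - t) * (n - t - 1)) * (n - t - 2) := mul_le_mul_of_nonneg_right h2 (by linarith)
    have h7 : ((Df d G - 2 * R) * (n - 1)) * (n - t) ≤
        (d * (n - t - 1) * (n - t - 2)) * (n - t) := by
      calc ((Df d G - 2 * R) * (n - 1)) * (n - t) = (Df d G - 2 * R) * (n - t) * (n - 1) := by ring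
        _ ≤ _ := h6
        _ = _ := by ring
    have h8 := le_of_mul_le_mul_right h7 hnt
    push_cast
    calc (Df d G - 2 * R) * ((n : ℝ) - 1) ≤ d * (n - t - 1) * (n - t - 2) := h8
      _ = d * (n - (t + 1)) * (n - (t + 1) - 1) := by ring

/-- facts about `et` -/
lemma et_facts (ht : t ≤ T) : 0 ≤ et d n t ∧ et d n t ≤ d ∧
    (1 - (t : ℝ) / n) * et d n t ≤ 28 * √d * (t / n) := by
  have hn : (0 : ℝ) < n := by exact_mod_cast hp.npos
  have h1 := hp.tle ht
  set x : ℝ := (t : ℝ) / n with hx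
  have hx0 : 0 ≤ x := by positivity
  have hs : s0 ≤ 1 - x := by
    rw [hx, ← sub_nonneg]
    have : 1 - (t : ℝ) / n - s0 = ((n - t) - s0 * n) / n := by field_simp
    rw [this]
    apply div_nonneg _ hn.le
    linarith
  have hs0 := hp.hs0
  obtain ⟨r0, r1, r4⟩ := rr_facts (s := 1 - x) (by linarith) (by linarith)
  set r : ℝ := √√(1 - x) with hr
  have het : et d n t = 28 * √d * x / r ^ 3 := rfl
  have hsd : 0 ≤ √(d : ℝ) := Real.sqrt_nonneg _
  rw [het]
  refine ⟨by positivity, ?_, ?_⟩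
  · have h2 : s0 ≤ r ^ 3 := by
      calc s0 ≤ r ^ 4 := by rw [r4]; exact hs
        _ ≤ r ^ 3 := pow_le_pow_of_le_one r0.le r1 (by norm_num)
    rw [div_le_iff₀ (by positivity)]
    have h3 := hp.hd1
    have h4 : √(d : ℝ) * √d = d := Real.mul_self_sqrt (Nat.cast_nonneg d)
    calc 28 * √(d : ℝ) * x ≤ 28 * √(d : ℝ) * 1 := by
          apply mul_le_mul_of_nonneg_left _ (by positivity)
          linarith
      _ ≤ (s0 * √d) * √d := by nlinarith
      _ = d * s0 := by rw [mul_assoc, h4]; ring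
      _ ≤ d * r ^ 3 := mul_le_mul_of_nonneg_left h2 (Nat.cast_nonneg d)
  · have : (1 - x) * (28 * √d * x / r ^ 3) = 28 * √d * x * r := by
      rw [← r4]; field_simp
    rw [this]
    have h5 : 0 ≤ 28 * √(d : ℝ) * x := by positivity
    nlinarith

/-- bounds for the transition probability -/
lemma Good.p_bounds (ht : t ≤ T) {G : SimpleGraph (Fin n)} (h : Good d k0 ν t G) {v : Fin n}
    (hv : v ∈ mins G) : (d - et d n t) / n ≤ ((d : ℝ) - dg G v) / ((U d G).card - 1) ∧
      ((d : ℝ) - dg G v) / ((U d G).card - 1) ≤ 2 * d / (s0 * n) ∧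
      (dg G v : ℝ) ≤ (d + 28 * √d) * (t / n) := by
  have hn : (0 : ℝ) < n := by exact_mod_cast hp.npos
  have h1 := hp.tle ht
  have h2 := h.u1 hp ht
  have h3 := h.R hp ht hv
  have h4 := h.2.1
  have hs0 := hp.hs0
  have hsn : 0 < s0 * n := by positivity
  have hnt : (0 : ℝ) < n - t := by linarith
  have hu : (0 : ℝ) < (U d G).card - 1 := by linarith
  have h5 := Np_nonneg h.1.1
  unfold Np at h5
  have h6 : 0 ≤ (d : ℝ) - dg G v := by
    have : (dg G v : ℝ) ≤ d := by exact_mod_cast h.1.1.dg_le v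
    linarith
  -- (n−t)(d−et)/n ≤ R
  have h7 : (n - t) * (d - et d n t) / n ≤ (d : ℝ) - dg G v := by
    have h8 : (n - t) * ((n - t) * (d - et d n t) / n) ≤ (n - t) * ((d : ℝ) - dg G v) := by
      calc (n - t) * ((n - t) * (d - et d n t) / n) = ((n : ℝ) - t) ^ 2 * (d - et d n t) / n := by ring
        _ ≤ _ := h4.trans h3
    exact le_of_mul_le_mul_left h8 hnt
  obtain ⟨e1, e2, e3⟩ := et_facts hp ht
  refine ⟨?_, ?_, ?_⟩
  · calc (d - et d n t) / n = ((n - t) * (d - et d n t) / n) / (n - t) := by field_simp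
      _ ≤ ((d : ℝ) - dg G v) / (n - t) := div_le_div_of_nonneg_right h7 hnt.le
      _ ≤ ((d : ℝ) - dg G v) / ((U d G).card - 1) := by
        apply div_le_div_of_nonneg_left h6 hu
        linarith
  · rw [div_le_div_iff₀ hu hsn]
    have h8 : (d : ℝ) - dg G v ≤ d := by
      have : (0 : ℝ) ≤ dg G v := Nat.cast_nonneg _
      linarith
    have hd0 : (0 : ℝ) ≤ d := Nat.cast_nonneg _
    calc ((d : ℝ) - dg G v) * (s0 * n) ≤ d * (s0 * n) := mul_le_mul_of_nonneg_right h8 hsn.le
      _ = 2 * d * (s0 * n / 2) := by ring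
      _ ≤ 2 * d * ((U d G).card - 1) := mul_le_mul_of_nonneg_left h2 (by positivity)
  · have h8 : (n - t) * (d - et d n t) / n = (1 - (t : ℝ) / n) * d - (1 - (t : ℝ) / n) * et d n t := by
      field_simp
    rw [h8] at h7
    linarith

/-- **One step, lower bound.** -/
lemma step_lower (ht : t ≤ T) {G : SimpleGraph (Fin n)} (h : Good d k0 ν t G) {a : ℝ} (ha : 0 ≤ a) :
    (1 + (Real.exp a - 1) * ((d - et d n t) / n)) *
      (Ps d (Real.exp a) t G - Real.exp (a * ((d + 28 * √d) * (t / n)))) -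
      (Real.exp a - 1) * (2 * d / (s0 * n)) * Real.exp (a * d) * Np d t G ≤
      E d (Ps d (Real.exp a) (t + 1)) G := by
  have hG := h.notReg hp ht
  refine le_E hp.npos hG fun v hv => ?_
  rw [Av_Ps h.1.1 hG hv (Real.exp a) (h.free hp ht hv)]
  obtain ⟨b1, b2, b3⟩ := h.p_bounds hp ht hv
  obtain ⟨e1, e2, e3⟩ := et_facts hp ht
  set p : ℝ := ((d : ℝ) - dg G v) / ((U d G).card - 1) with hpdef
  set q : ℝ := (d - et d n t) / n with hq
  set z : ℝ := Real.exp a with hz
  have hn : (0 : ℝ) < n := by exact_mod_cast hp.npos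
  have hz1 : 1 ≤ z := Real.one_le_exp ha
  have hq0 : 0 ≤ q := div_nonneg (by linarith) hn.le
  have hzd : z ^ d = Real.exp (a * d) := by rw [hz, ← Real.exp_nat_mul, mul_comm]
  have hzb : z ^ dg G v ≤ Real.exp (a * ((d + 28 * √d) * (t / n))) := by
    rw [hz, ← Real.exp_nat_mul]
    apply Real.exp_le_exp.2
    rw [mul_comm]
    exact mul_le_mul_of_nonneg_left b3 ha
  have hNp := Np_nonneg h.1.1
  have hPs : z ^ dg G v ≤ Ps d z t G := by
    rw [Ps_eq h.1.1]
    have hvU : v ∈ U d G := by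
      unfold U; simp [mins_lt h.1.1 hG hv]
    have h1 : z ^ dg G v ≤ ∑ w ∈ U d G, z ^ dg G w :=
      single_le_sum (f := fun w => z ^ dg G w) (fun w _ => by positivity) hvU
    have h2 : 0 ≤ Np d t G * z ^ d := by positivity
    linarith
  rw [← hzd]
  have e1 : (Ps d z t G - z ^ dg G v) + (z - 1) * (p * (Ps d z t G - z ^ dg G v - Np d t G * z ^ d)) =
      (1 + (z - 1) * p) * (Ps d z t G - z ^ dg G v) - (z - 1) * p * z ^ d * Np d t G := by ring
  rw [e1]
  have h1 : (1 + (z - 1) * q) * (Ps d z t G - Real.exp (a * ((d + 28 * √d) * (t / n)))) ≤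
      (1 + (z - 1) * p) * (Ps d z t G - z ^ dg G v) := by
    have h2 : (z - 1) * q ≤ (z - 1) * p := mul_le_mul_of_nonneg_left b1 (by linarith)
    have h3 : 0 ≤ (z - 1) * q := mul_nonneg (by linarith) hq0
    calc (1 + (z - 1) * q) * (Ps d z t G - Real.exp (a * ((d + 28 * √d) * (t / n)))) ≤
        (1 + (z - 1) * q) * (Ps d z t G - z ^ dg G v) :=
          mul_le_mul_of_nonneg_left (by linarith) (by linarith)
      _ ≤ _ := mul_le_mul_of_nonneg_right (by linarith) (by linarith)
  have h2 : (z - 1) * p * z ^ d * Np d t G ≤ (z - 1) * (2 * d / (s0 * n)) * z ^ d * Np d t G := by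
    apply mul_le_mul_of_nonneg_right _ hNp
    apply mul_le_mul_of_nonneg_right _ (by positivity)
    exact mul_le_mul_of_nonneg_left b2 (by linarith)
  linarith

/-- **One step, upper bound.** -/
lemma step_upper (ht : t ≤ T) {G : SimpleGraph (Fin n)} (h : Good d k0 ν t G) {a : ℝ} (ha : 0 ≤ a) :
    E d (fun H => Ps d (Real.exp a) (t + 1) H *
      Real.exp ((Real.exp a - 1) * (Df d H / (2 * (n - t - 1))))) G ≤
      Ps d (Real.exp a) t G * Real.exp ((Real.exp a - 1) * (Df d G / (2 * (n - t)))) *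
      Real.exp ((Real.exp a - 1) * (d / (2 * (n - 1)) + 4 * d * ν / (s0 ^ 2 * n))) := by
  have hG := h.notReg hp ht
  refine E_le hp.npos hG fun v hv => ?_
  have hI := h.1.1
  have hn : (0 : ℝ) < n := by exact_mod_cast hp.npos
  have hn4 := hp.n4
  have h1 := hp.tle ht
  have h2 := h.u1 hp ht
  have hs0 := hp.hs0
  have hsn : 4 ≤ s0 * n := hp.hn1
  have hnt : (0 : ℝ) < n - t := by linarith
  have hu : (0 : ℝ) < (U d G).card - 1 := by linarith
  have h5 := Np_nonneg hI
  have h5' : Np d t G = (n : ℝ) - (U d G).card - t := rfl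
  have hnt1 : (0 : ℝ) < n - t - 1 := by linarith
  set g : ℝ := Real.exp a - 1 with hg
  have hg0 : 0 ≤ g := by
    have := Real.one_le_exp ha
    linarith
  set R : ℝ := (d : ℝ) - dg G v with hR
  have hR0 : 0 ≤ R := by
    have : (dg G v : ℝ) ≤ d := by exact_mod_cast hI.dg_le v
    linarith
  have hRd : R ≤ d := by
    have : (0 : ℝ) ≤ dg G v := Nat.cast_nonneg _
    linarith
  have e1 : Av (cand d G v) (d - dg G v) (fun S => Ps d (Real.exp a) (t + 1) (star G v S) *
      Real.exp (g * (Df d (star G v S) / (2 * (n - t - 1))))) =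
      Real.exp (g * ((Df d G - 2 * R) / (2 * (n - t - 1)))) *
        Av (cand d G v) (d - dg G v) (fun S => Ps d (Real.exp a) (t + 1) (star G v S)) := by
    rw [← Av_mul]
    refine Av_congr fun S hS hc => ?_
    rw [Df_star hI hG hv hS hc, mul_comm]
  rw [e1, Av_Ps hI hG hv (Real.exp a) (h.free hp ht hv)]
  rw [← hg, ← hR]
  set p : ℝ := R / ((U d G).card - 1) with hpd
  have hp0 : 0 ≤ p := by positivity
  have hPs := Ps_nonneg hI (Real.exp_pos a).le
  have hzb : 0 ≤ Real.exp a ^ dg G v := by positivity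
  have hzd : 0 ≤ Real.exp a ^ d := by positivity
  have h6 : (Ps d (Real.exp a) t G - Real.exp a ^ dg G v) +
      g * (p * (Ps d (Real.exp a) t G - Real.exp a ^ dg G v - Np d t G * Real.exp a ^ d)) ≤
      Ps d (Real.exp a) t G * Real.exp (g * p) := by
    have h7 : (1 + g * p) * Ps d (Real.exp a) t G ≤ Real.exp (g * p) * Ps d (Real.exp a) t G := by
      apply mul_le_mul_of_nonneg_right _ hPs
      have := Real.add_one_le_exp (g * p)
      linarith
    have h8 : 0 ≤ (1 + g * p) * Real.exp a ^ dg G v := by positivity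
    have h9 : 0 ≤ g * p * (Np d t G * Real.exp a ^ d) := by positivity
    linarith
  refine (mul_le_mul_of_nonneg_left h6 (Real.exp_pos _).le).trans ?_
  have e2 : Real.exp (g * ((Df d G - 2 * R) / (2 * (n - t - 1)))) *
      (Ps d (Real.exp a) t G * Real.exp (g * p)) =
      Ps d (Real.exp a) t G * Real.exp (g * (p + (Df d G - 2 * R) / (2 * (n - t - 1)))) := by
    rw [mul_add, Real.exp_add]; ring
  have e3 : Ps d (Real.exp a) t G * Real.exp (g * (Df d G / (2 * (n - t)))) *
      Real.exp (g * (d / (2 * (n - 1)) + 4 * d * ν / (s0 ^ 2 * n))) =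
      Ps d (Real.exp a) t G * Real.exp (g * (Df d G / (2 * (n - t)) +
        (d / (2 * (n - 1)) + 4 * d * ν / (s0 ^ 2 * n)))) := by
    rw [mul_add g (Df d G / (2 * (n - t))), Real.exp_add]; ring
  rw [e2, e3]
  apply mul_le_mul_of_nonneg_left _ hPs
  apply Real.exp_le_exp.2
  apply mul_le_mul_of_nonneg_left _ hg0
  -- p − R/(n−t−1) ≤ 4dν/(s0² n)
  have h7 : p - R / (n - t - 1) ≤ 4 * d * ν / (s0 ^ 2 * n) := by
    have h8 : p - R / (n - t - 1) = R * Np d t G / (((U d G).card - 1) * (n - t - 1)) := by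
      rw [hpd, h5']
      field_simp
      ring
    rw [h8, div_le_div_iff₀ (by positivity) (by positivity)]
    have h9 := h.2.2
    have h10 : R * Np d t G ≤ d * (ν * n) := mul_le_mul hRd h9 h5 (Nat.cast_nonneg d)
    have h11 : s0 * n / 2 * (s0 * n / 2) ≤ ((U d G).card - 1) * ((n : ℝ) - t - 1) := by
      apply mul_le_mul h2 _ (by positivity) hu.le
      linarith
    have hν0 := hp.hν0
    have hd0 : (0 : ℝ) ≤ d := Nat.cast_nonneg d
    calc R * Np d t G * (s0 ^ 2 * n) ≤ d * (ν * n) * (s0 ^ 2 * n) :=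
          mul_le_mul_of_nonneg_right h10 (by positivity)
      _ = 4 * d * ν * (s0 * n / 2 * (s0 * n / 2)) := by ring
      _ ≤ 4 * d * ν * (((U d G).card - 1) * ((n : ℝ) - t - 1)) :=
          mul_le_mul_of_nonneg_left h11 (by positivity)
  have h8 : Df d G / (2 * (n - t) * (n - t - 1)) ≤ d / (2 * (n - 1)) := by
    rw [div_le_div_iff₀ (by positivity) (by linarith)]
    have h9 := h.1.2.2
    calc Df d G * (2 * ((n : ℝ) - 1)) = 2 * (Df d G * (n - 1)) := by ring
      _ ≤ 2 * (d * (n - t) * (n - t - 1)) := by linarith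
      _ = d * (2 * (n - t) * (n - t - 1)) := by ring
  have h9 : p + (Df d G - 2 * R) / (2 * (n - t - 1)) = (p - R / (n - t - 1)) +
      Df d G / (2 * (n - t)) + Df d G / (2 * (n - t) * (n - t - 1)) := by
    field_simp
    ring
  rw [h9]
  linarith

end

/-! ### the killed chain -/

/-- the expectation at time `t` of the chain killed at the states which are not good -/
noncomputable def L (d : ℕ) (good : ℕ → SimpleGraph (Fin n) → Prop) : ℕ → (SimpleGraph (Fin n) → ℝ) → ℝ
  | 0, f => f ⊥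
  | t + 1, f => L d good t (fun G => if good t G then E d f G else 0)

variable {d : ℕ} {good : ℕ → SimpleGraph (Fin n) → Prop}

lemma E_add (f f' : SimpleGraph (Fin n) → ℝ) (G : SimpleGraph (Fin n)) :
    E d (fun H => f H + f' H) G = E d f G + E d f' G := by
  unfold E
  rw [← sum_add_distrib]
  exact sum_congr rfl fun H _ => by ring

lemma E_mul (c : ℝ) (f : SimpleGraph (Fin n) → ℝ) (G : SimpleGraph (Fin n)) :
    E d (fun H => c * f H) G = c * E d f G := by
  unfold E
  rw [mul_sum]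
  exact sum_congr rfl fun H _ => by ring

lemma L_add (t : ℕ) (f f' : SimpleGraph (Fin n) → ℝ) :
    L d good t (fun G => f G + f' G) = L d good t f + L d good t f' := by
  induction t generalizing f f' with
  | zero => rfl
  | succ t ih =>
    simp only [L]
    rw [← ih]
    congr 1
    funext G
    split_ifs
    · rw [E_add]
    · simp

lemma L_mul (t : ℕ) (c : ℝ) (f : SimpleGraph (Fin n) → ℝ) :
    L d good t (fun G => c * f G) = c * L d good t f := by
  induction t generalizing f with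
  | zero => rfl
  | succ t ih =>
    simp only [L]
    rw [← ih]
    congr 1
    funext G
    split_ifs
    · rw [E_mul]
    · simp

lemma L_mono {T : ℕ} {Jp : ℕ → SimpleGraph (Fin n) → Prop} (h0 : Jp 0 ⊥)
    (hs : ∀ t < T, ∀ G H, good t G → K d n G H ≠ 0 → Jp (t + 1) H) :
    ∀ t ≤ T, ∀ f f' : SimpleGraph (Fin n) → ℝ, (∀ G, Jp t G → f G ≤ f' G) →
      L d good t f ≤ L d good t f' := by
  intro t
  induction t with
  | zero => intro _ f f' hf; exact hf ⊥ h0
  | succ t ih =>
    intro ht f f' hf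
    simp only [L]
    refine ih (by omega) _ _ fun G hG => ?_
    split_ifs with hg
    · exact E_mono fun H hH => hf H (hs t (by omega) G H hg hH)
    · exact le_refl _

lemma E_one_le (G : SimpleGraph (Fin n)) : E d (fun _ => (1 : ℝ)) G ≤ 1 := by
  by_cases hG : Reg d G
  · rw [E_reg hG]
  rcases Nat.eq_zero_or_pos n with hn | hn
  · exfalso
    subst hn
    exact hG fun v => v.elim0
  refine E_le hn hG fun v hv => ?_
  unfold Av
  rw [sum_const, card_powersetCard, nsmul_eq_mul, mul_one]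
  exact div_self_le_one _

lemma L_one_le (t : ℕ) {T : ℕ} {Jp : ℕ → SimpleGraph (Fin n) → Prop} (h0 : Jp 0 ⊥)
    (hs : ∀ t < T, ∀ G H, good t G → K d n G H ≠ 0 → Jp (t + 1) H) (ht : t ≤ T) :
    L d good t (fun _ => 1) ≤ 1 := by
  induction t with
  | zero => exact le_refl _
  | succ t ih =>
    simp only [L]
    refine le_trans (L_mono h0 hs t (by omega) _ _ fun G _ => ?_) (ih (by omega))
    split_ifs
    · exact E_one_le G
    · norm_num

end Pool.Agent.T2H64.Star
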