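import Pool.Agent.T2H64.Star.Switch

/-!
# Counting admissible switchings
-/

set_option autoImplicit false
set_option linter.unusedVariables false
set_option linter.unusedSimpArgs false

open Finset
open scoped Classical

namespace Pool.Agent.T2H64.Star

variable {n : ℕ}

lemma card_rev (B : Finset (Fin n)) (G : SimpleGraph (Fin n)) :
    (univ.filter (fun q => Rev B G q)).card ≤ ee B B G * ee Bᶜ Bᶜ G := by
  unfold ee
  rw [← card_product]
  refine card_le_card_of_injOn (fun q => ((q.1, q.2.2.1), (q.2.1, q.2.2.2))) ?_ ?_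
  · intro q hq
    have h := (mem_filter.1 (mem_coe.1 hq)).2
    obtain ⟨⟨h1, h2, h3⟩, ⟨h4, h5, h6⟩⟩ := h
    rw [mem_coe, mem_product, mem_filter, mem_filter, mem_product, mem_product]
    exact ⟨⟨⟨h1, h2⟩, h3⟩, ⟨⟨h4, h5⟩, h6⟩⟩
  · rintro ⟨x, y, x', y'⟩ _ ⟨a, b, a', b'⟩ _ h
    simp only [Prod.mk.injEq] at h
    obtain ⟨⟨h1, h2⟩, ⟨h3, h4⟩⟩ := h
    subst h1 h2 h3 h4
    rfl

/-- the cut pairs -/
noncomputable def Cr (B : Finset (Fin n)) (G : SimpleGraph (Fin n)) : Finset (Fin n × Fin n) :=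
  (B ×ˢ Bᶜ).filter (fun p => G.Adj p.1 p.2)

lemma card_fst {d : ℕ} {G : SimpleGraph (Fin n)} (h : Reg d G) (B : Finset (Fin n)) (a : Fin n) :
    ((Cr B G).filter (fun p => p.1 = a)).card ≤ d := by
  rw [← h a]
  unfold dg
  refine card_le_card_of_injOn (fun p => p.2) ?_ ?_
  · intro p hp
    have h1 := mem_filter.1 (mem_coe.1 hp)
    have h2 := (mem_filter.1 h1.1).2
    rw [mem_coe, mem_filter]
    rw [h1.2] at h2
    exact ⟨mem_univ _, h2⟩
  · rintro ⟨p1, p2⟩ hp ⟨q1, q2⟩ hq hpq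
    have h1 := (mem_filter.1 (mem_coe.1 hp)).2
    have h2 := (mem_filter.1 (mem_coe.1 hq)).2
    simp only at h1 h2 hpq
    rw [h1, h2, hpq]

lemma card_snd {d : ℕ} {G : SimpleGraph (Fin n)} (h : Reg d G) (B : Finset (Fin n)) (a : Fin n) :
    ((Cr B G).filter (fun p => p.2 = a)).card ≤ d := by
  rw [← h a]
  unfold dg
  refine card_le_card_of_injOn (fun p => p.1) ?_ ?_
  · intro p hp
    have h1 := mem_filter.1 (mem_coe.1 hp)
    have h2 := (mem_filter.1 h1.1).2
    rw [mem_coe, mem_filter]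
    rw [h1.2] at h2
    exact ⟨mem_univ _, h2.symm⟩
  · rintro ⟨p1, p2⟩ hp ⟨q1, q2⟩ hq hpq
    have h1 := (mem_filter.1 (mem_coe.1 hp)).2
    have h2 := (mem_filter.1 (mem_coe.1 hq)).2
    simp only at h1 h2 hpq
    rw [h1, h2, hpq]

lemma card_nfst {d : ℕ} {G : SimpleGraph (Fin n)} (h : Reg d G) (B : Finset (Fin n)) (a : Fin n) :
    ((Cr B G).filter (fun p => G.Adj a p.1)).card ≤ d * d := by
  have h1 : ((Cr B G).filter (fun p => G.Adj a p.1)) ⊆
      (univ.filter (fun w => G.Adj a w)).biUnion (fun w => (Cr B G).filter (fun p => p.1 = w)) := by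
    intro p hp
    have h1 := mem_filter.1 hp
    rw [mem_biUnion]
    exact ⟨p.1, by simpa using h1.2, mem_filter.2 ⟨h1.1, rfl⟩⟩
  refine (card_le_card h1).trans (card_biUnion_le.trans ?_)
  refine (sum_le_card_nsmul _ _ d fun w _ => card_fst h B w).trans (le_of_eq ?_)
  rw [smul_eq_mul]
  have : (univ.filter (fun w => G.Adj a w)).card = d := h a
  rw [this]

lemma card_nsnd {d : ℕ} {G : SimpleGraph (Fin n)} (h : Reg d G) (B : Finset (Fin n)) (a : Fin n) :
    ((Cr B G).filter (fun p => G.Adj a p.2)).card ≤ d * d := by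
  have h1 : ((Cr B G).filter (fun p => G.Adj a p.2)) ⊆
      (univ.filter (fun w => G.Adj a w)).biUnion (fun w => (Cr B G).filter (fun p => p.2 = w)) := by
    intro p hp
    have h1 := mem_filter.1 hp
    rw [mem_biUnion]
    exact ⟨p.2, by simpa using h1.2, mem_filter.2 ⟨h1.1, rfl⟩⟩
  refine (card_le_card h1).trans (card_biUnion_le.trans ?_)
  refine (sum_le_card_nsmul _ _ d fun w _ => card_snd h B w).trans (le_of_eq ?_)
  rw [smul_eq_mul]
  have : (univ.filter (fun w => G.Adj a w)).card = d := h a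
  rw [this]

lemma card_adm {d : ℕ} {G : SimpleGraph (Fin n)} (h : Reg d G) (B : Finset (Fin n)) :
    ee B Bᶜ G * (ee B Bᶜ G - (2 * d + 2 * (d * d))) ≤ (univ.filter (fun q => Adm B G q)).card := by
  have hCr : (Cr B G).card = ee B Bᶜ G := rfl
  set good : Fin n × Fin n → Finset (Fin n × Fin n) := fun p =>
    (Cr B G).filter (fun p' => p.1 ≠ p'.1 ∧ p.2 ≠ p'.2 ∧ ¬ G.Adj p.1 p'.1 ∧ ¬ G.Adj p.2 p'.2)
    with hgood
  have h1 : ∀ p ∈ Cr B G, ee B Bᶜ G - (2 * d + 2 * (d * d)) ≤ (good p).card := by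
    intro p _
    have h2 : Cr B G ⊆ good p ∪ ((Cr B G).filter (fun p' => p'.1 = p.1) ∪
        (Cr B G).filter (fun p' => p'.2 = p.2) ∪ ((Cr B G).filter (fun p' => G.Adj p.1 p'.1) ∪
        (Cr B G).filter (fun p' => G.Adj p.2 p'.2))) := by
      intro p' hp'
      simp only [hgood, mem_union, mem_filter]
      by_cases a1 : p'.1 = p.1
      · exact Or.inr (Or.inl (Or.inl ⟨hp', a1⟩))
      by_cases a2 : p'.2 = p.2
      · exact Or.inr (Or.inl (Or.inr ⟨hp', a2⟩))
      by_cases a3 : G.Adj p.1 p'.1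
      · exact Or.inr (Or.inr (Or.inl ⟨hp', a3⟩))
      by_cases a4 : G.Adj p.2 p'.2
      · exact Or.inr (Or.inr (Or.inr ⟨hp', a4⟩))
      exact Or.inl ⟨hp', fun hc => a1 hc.symm, fun hc => a2 hc.symm, a3, a4⟩
    have h3 := card_le_card h2
    have h4 := card_union_le (good p) ((Cr B G).filter (fun p' => p'.1 = p.1) ∪
        (Cr B G).filter (fun p' => p'.2 = p.2) ∪ ((Cr B G).filter (fun p' => G.Adj p.1 p'.1) ∪
        (Cr B G).filter (fun p' => G.Adj p.2 p'.2)))
    have h5 := card_union_le ((Cr B G).filter (fun p' => p'.1 = p.1) ∪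
        (Cr B G).filter (fun p' => p'.2 = p.2)) ((Cr B G).filter (fun p' => G.Adj p.1 p'.1) ∪
        (Cr B G).filter (fun p' => G.Adj p.2 p'.2))
    have h6 := card_union_le ((Cr B G).filter (fun p' => p'.1 = p.1))
      ((Cr B G).filter (fun p' => p'.2 = p.2))
    have h7 := card_union_le ((Cr B G).filter (fun p' => G.Adj p.1 p'.1))
      ((Cr B G).filter (fun p' => G.Adj p.2 p'.2))
    have h8 := card_fst h B p.1
    have h9 := card_snd h B p.2
    have h10 := card_nfst h B p.1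
    have h11 := card_nsnd h B p.2
    rw [hCr] at h3
    omega
  have h2 : ee B Bᶜ G * (ee B Bᶜ G - (2 * d + 2 * (d * d))) ≤ ((Cr B G).sigma good).card := by
    rw [card_sigma, ← hCr, ← smul_eq_mul]
    exact card_nsmul_le_sum _ _ _ h1
  refine h2.trans ?_
  refine card_le_card_of_injOn (fun s => (s.1.1, s.1.2, s.2.1, s.2.2)) ?_ ?_
  · rintro ⟨⟨x, y⟩, ⟨x', y'⟩⟩ hs
    have hs' := mem_sigma.1 (mem_coe.1 hs)
    have a1 := mem_filter.1 hs'.1
    have a2 := mem_filter.1 hs'.2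
    have a3 := mem_filter.1 a2.1
    have a4 := mem_product.1 a1.1
    have a5 := mem_product.1 a3.1
    simp only [mem_compl] at a1 a2 a3 a4 a5
    rw [mem_coe, mem_filter]
    exact ⟨mem_univ _, a4.1, a4.2, a5.1, a5.2, a1.2, a3.2, a2.2.1, a2.2.2.1, a2.2.2.2.1,
      a2.2.2.2.2⟩
  · rintro ⟨⟨x, y⟩, ⟨x', y'⟩⟩ _ ⟨⟨a, b⟩, ⟨a', b'⟩⟩ _ hh
    simp only [Prod.mk.injEq] at hh
    obtain ⟨h1, h2, h3, h4⟩ := hh
    subst h1 h2 h3 h4
    rfl

/-- the numbers of graphs with `k` and `k + 2` inner pairs -/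
lemma ratio {d : ℕ} (B : Finset (Fin n)) (k : ℕ) (hk : k + 2 ≤ d * B.card) :
    (GG d B k).card * ((d * B.card - k) * (d * B.card - k - (2 * d + 2 * (d * d)))) ≤
      (GG d B (k + 2)).card * ((k + 2) * (d * (n - B.card) - (d * B.card - (k + 2)))) := by
  refine double_count d B k _ _ ?_ ?_
  · intro G hG
    have hG' := (mem_filter.1 hG).2
    have h1 := card_adm hG'.1 B
    have h2 := ee_compl hG'.1 B
    rw [hG'.2] at h2
    have h3 : ee B Bᶜ G = d * B.card - k := by omega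
    rw [h3] at h1
    exact h1
  · intro G hG
    have hG' := (mem_filter.1 hG).2
    have h1 := card_rev B G
    have h2 := ee_compl hG'.1 B
    have h3 := ee_compl hG'.1 Bᶜ
    rw [compl_compl, ee_symm, card_compl, Fintype.card_fin] at h3
    rw [hG'.2] at h2 h1
    have h4 : ee B Bᶜ G = d * B.card - (k + 2) := by omega
    have h5 : ee Bᶜ Bᶜ G = d * (n - B.card) - (d * B.card - (k + 2)) := by
      rw [ee_symm Bᶜ B] at h3
      omega
    rw [h5] at h1
    exact h1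

/-- the real form of the ratio inequality -/
lemma ratio_real {d : ℕ} (B : Finset (Fin n)) (k : ℕ) {l : ℝ} (hb : 0 < B.card) (hbn : B.card < n)
    (hd : 0 < d) (hl : (d : ℝ) * (B.card : ℝ) ^ 2 / n = (k : ℝ) + 2 + l)
    (hD : 2 * (d : ℝ) + 2 * (d * d) ≤ l) :
    ((GG d B k).card : ℝ) ≤ (1 - l / (d * (B.card : ℝ) ^ 2 / n)) * ((GG d B (k + 2)).card : ℝ) := by
  set b := B.card with hbdef
  have hn : (0 : ℝ) < n := by exact_mod_cast (lt_of_le_of_lt (Nat.zero_le _) hbn)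
  have hb' : (0 : ℝ) < b := by exact_mod_cast hb
  have hbn' : (b : ℝ) < n := by exact_mod_cast hbn
  have hd' : (0 : ℝ) < d := by exact_mod_cast hd
  have hl0 : 0 ≤ l := by
    have : 0 ≤ 2 * (d : ℝ) + 2 * (d * d) := by positivity
    linarith
  set μ : ℝ := (d : ℝ) * (b : ℝ) ^ 2 / n with hμ
  set Q : ℝ := (d : ℝ) * b * (n - b) / n with hQ
  have hQ0 : 0 < Q := by
    have : 0 < (n : ℝ) - b := by linarith
    positivity
  have hμ0 : 0 < μ := by positivity
  have hsum : μ + Q = d * b := by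
    rw [hμ, hQ]; field_simp; ring_nf
  have hk2 : (k : ℝ) + 2 ≤ d * b := by linarith
  have hk2n : k + 2 ≤ d * b := by exact_mod_cast hk2
  have h1 := ratio (d := d) B k (by rw [← hbdef]; exact hk2n)
  rw [← hbdef] at h1
  -- cast
  have hX : ((d * b - k : ℕ) : ℝ) = Q + l + 2 := by
    rw [Nat.cast_sub (by omega)]
    push_cast
    linarith
  have hXD : Q + l + 2 - (2 * d + 2 * (d * d)) ≤ ((d * b - k - (2 * d + 2 * (d * d)) : ℕ) : ℝ) := by
    have h2 : 2 * d + 2 * (d * d) ≤ d * b - k := by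
      have : (2 * (d : ℝ) + 2 * (d * d)) ≤ ((d * b - k : ℕ) : ℝ) := by rw [hX]; linarith
      exact_mod_cast this
    rw [Nat.cast_sub h2, hX]
    push_cast
    linarith
  have hoc : ((d * (n - b) - (d * b - (k + 2)) : ℕ) : ℝ) ≤ d * ((n : ℝ) - b) ^ 2 / n := by
    rcases Nat.le_total (d * b - (k + 2)) (d * (n - b)) with h2 | h2
    · rw [Nat.cast_sub h2, Nat.cast_sub hk2n]
      push_cast
      rw [Nat.cast_sub hbn.le]
      have e : (d : ℝ) * ((n : ℝ) - b) ^ 2 / n = d * (n - b) - Q := by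
        rw [hQ]; field_simp
      rw [e]
      linarith
    · rw [Nat.sub_eq_zero_of_le h2]
      simp only [Nat.cast_zero]
      positivity
  have h3 : ((GG d B k).card : ℝ) * ((Q + l + 2) * (Q + l + 2 - (2 * d + 2 * (d * d)))) ≤
      ((GG d B (k + 2)).card : ℝ) * ((μ - l) * (d * ((n : ℝ) - b) ^ 2 / n)) := by
    have h4 : (((GG d B k).card * ((d * b - k) * (d * b - k - (2 * d + 2 * (d * d)))) : ℕ) : ℝ) ≤
        (((GG d B (k + 2)).card * ((k + 2) * (d * (n - b) - (d * b - (k + 2)))) : ℕ) : ℝ) := by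
      exact_mod_cast h1
    rw [Nat.cast_mul, Nat.cast_mul, Nat.cast_mul (GG d B (k + 2)).card, Nat.cast_mul (k + 2), hX] at h4
    have h5 : ((GG d B k).card : ℝ) * ((Q + l + 2) * (Q + l + 2 - (2 * d + 2 * (d * d)))) ≤
        ((GG d B k).card : ℝ) * ((Q + l + 2) * ((d * b - k - (2 * d + 2 * (d * d)) : ℕ) : ℝ)) := by
      apply mul_le_mul_of_nonneg_left _ (Nat.cast_nonneg _)
      exact mul_le_mul_of_nonneg_left hXD (by linarith)
    have h6 : ((GG d B (k + 2)).card : ℝ) * (((k + 2 : ℕ) : ℝ) *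
        ((d * (n - b) - (d * b - (k + 2)) : ℕ) : ℝ)) ≤
        ((GG d B (k + 2)).card : ℝ) * ((μ - l) * (d * ((n : ℝ) - b) ^ 2 / n)) := by
      apply mul_le_mul_of_nonneg_left _ (Nat.cast_nonneg _)
      have h7 : ((k + 2 : ℕ) : ℝ) = μ - l := by push_cast; linarith
      rw [h7]
      apply mul_le_mul_of_nonneg_left hoc
      rw [← h7]
      exact Nat.cast_nonneg _
    linarith
  have hQ2 : μ * (d * ((n : ℝ) - b) ^ 2 / n) = Q ^ 2 := by
    rw [hμ, hQ]; field_simp
  have h4 : ((GG d B k).card : ℝ) * Q ^ 2 ≤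
      ((1 - l / μ) * ((GG d B (k + 2)).card : ℝ)) * Q ^ 2 := by
    have h5 : Q ^ 2 ≤ (Q + l + 2) * (Q + l + 2 - (2 * d + 2 * (d * d))) := by
      have h6 : Q ≤ Q + l + 2 := by linarith
      nlinarith
    calc ((GG d B k).card : ℝ) * Q ^ 2 ≤
        ((GG d B k).card : ℝ) * ((Q + l + 2) * (Q + l + 2 - (2 * d + 2 * (d * d)))) :=
          mul_le_mul_of_nonneg_left h5 (Nat.cast_nonneg _)
      _ ≤ _ := h3
      _ = ((1 - l / μ) * ((GG d B (k + 2)).card : ℝ)) * Q ^ 2 := by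
          rw [← hQ2]
          field_simp
  exact le_of_mul_le_mul_right h4 (by positivity)

end Pool.Agent.T2H64.Star
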