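import Pool.Agent.T2H64.Star.Chain

/-!
# Global estimates and the contradiction
-/

set_option autoImplicit false
set_option linter.unusedVariables false
set_option linter.unusedSimpArgs false
set_option linter.unusedSectionVars false

open Finset
open scoped Classical

namespace Pool.Agent.T2H64.Star

variable {n : ℕ}

/-- the good part of an expectation -/
noncomputable def LG (d k0 : ℕ) (ν : ℝ) (t : ℕ) (f : SimpleGraph (Fin n) → ℝ) : ℝ :=
  L d (Good d k0 ν) t (fun G => if Good d k0 ν t G then f G else 0)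

/-- the mass killed at time `t` -/
noncomputable def kap (d n k0 : ℕ) (ν : ℝ) (t : ℕ) : ℝ :=
  L (n := n) d (Good d k0 ν) t (fun G => if Good d k0 ν t G then 0 else 1)

/-- the bad final graphs -/
noncomputable def iA (d : ℕ) (G : SimpleGraph (Fin n)) : ℝ := if Reg d G ∧ ¬ PR d G then 1 else 0

lemma L_succ (d k0 : ℕ) (ν : ℝ) (t : ℕ) (f : SimpleGraph (Fin n) → ℝ) :
    L d (Good d k0 ν) (t + 1) f = LG d k0 ν t (E d f) := rfl

lemma LG_mul {d k0 : ℕ} {ν : ℝ} (t : ℕ) (c : ℝ) (f : SimpleGraph (Fin n) → ℝ) :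
    LG d k0 ν t (fun G => c * f G) = c * LG d k0 ν t f := by
  unfold LG
  rw [← L_mul]
  congr 1
  funext G
  split_ifs <;> simp

lemma LG_add {d k0 : ℕ} {ν : ℝ} (t : ℕ) (f f' : SimpleGraph (Fin n) → ℝ) :
    LG d k0 ν t (fun G => f G + f' G) = LG d k0 ν t f + LG d k0 ν t f' := by
  unfold LG
  rw [← L_add]
  congr 1
  funext G
  split_ifs <;> simp

section

variable {d T k0 t : ℕ} {s0 ν : ℝ} (hp : Par d n T k0 s0 ν)

include hp

lemma Par.hk : (k0 : ℝ) ≤ n := by
  have h1 := hp.hn2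
  have h2 := hp.hs1
  have h3 : (0 : ℝ) ≤ n := Nat.cast_nonneg n
  have h4 : (0 : ℝ) ≤ d := Nat.cast_nonneg d
  nlinarith

lemma Lmono (ht : t ≤ T) {f f' : SimpleGraph (Fin n) → ℝ} (hf : ∀ G, J d k0 t G → f G ≤ f' G) :
    L d (Good d k0 ν) t f ≤ L d (Good d k0 ν) t f' :=
  L_mono (Jp := J d k0) (J_zero hp hp.hk) (fun t ht G H hg hK => J_succ hp ht.le hg hK) t ht f f' hf

lemma LGmono (ht : t ≤ T) {f f' : SimpleGraph (Fin n) → ℝ} (hf : ∀ G, Good d k0 ν t G → f G ≤ f' G) :
    LG d k0 ν t f ≤ LG d k0 ν t f' := by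
  unfold LG
  refine Lmono hp ht fun G _ => ?_
  split_ifs with h
  · exact hf G h
  · exact le_refl _

lemma LGnonneg (ht : t ≤ T) {f : SimpleGraph (Fin n) → ℝ} (hf : ∀ G, Good d k0 ν t G → 0 ≤ f G) :
    0 ≤ LG d k0 ν t f := by
  have h1 : LG d k0 ν t (fun G : SimpleGraph (Fin n) => (0 : ℝ) * 0) ≤ LG d k0 ν t f :=
    LGmono hp ht fun G hG => by simpa using hf G hG
  rw [LG_mul] at h1
  linarith

lemma LGone (ht : t ≤ T) : LG d k0 ν t (fun _ : SimpleGraph (Fin n) => (1 : ℝ)) ≤ 1 := by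
  refine le_trans ?_ (L_one_le (n := n) (d := d) (good := Good d k0 ν) t (Jp := J d k0)
    (J_zero hp hp.hk) (fun t ht G H hg hK => J_succ hp ht.le hg hK) ht)
  unfold LG
  refine Lmono hp ht fun G _ => ?_
  split_ifs <;> norm_num

lemma LG_le_L (ht : t ≤ T) {f : SimpleGraph (Fin n) → ℝ} (hf : ∀ G, J d k0 t G → 0 ≤ f G) :
    LG d k0 ν t f ≤ L d (Good d k0 ν) t f := by
  unfold LG
  refine Lmono hp ht fun G hG => ?_
  split_ifs
  · exact le_refl _
  · exact hf G hG

lemma L_le_LG (ht : t ≤ T) {f : SimpleGraph (Fin n) → ℝ} {M : ℝ} (hf : ∀ G, J d k0 t G → f G ≤ M) :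
    L d (Good d k0 ν) t f ≤ LG d k0 ν t f + M * kap d n k0 ν t := by
  unfold LG kap
  rw [← L_mul, ← L_add]
  refine Lmono hp ht fun G hG => ?_
  split_ifs
  · simp
  · simpa using hf G hG

lemma kap_nonneg (ht : t ≤ T) : 0 ≤ kap d n k0 ν t := by
  have h1 : L d (Good d k0 ν) t (fun G : SimpleGraph (Fin n) => (0 : ℝ) * 0) ≤ kap d n k0 ν t := by
    unfold kap
    refine Lmono hp ht fun G hG => ?_
    split_ifs <;> norm_num
  rw [L_mul] at h1
  linarith

/-- **The killed mass.** -/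
lemma killed (hreg : ∀ (m t : ℕ) (G : SimpleGraph (Fin n)), t + m = n → Inv d t G →
    k0 ≤ (U d G).card → 1 / 2 ≤ It d m (ind d) G) :
    ∑ k ∈ range (T + 1), kap d n k0 ν k ≤ 2 * It d n (iA d) (⊥ : SimpleGraph (Fin n)) := by
  have hTn := hp.Tn
  have hnn : ∀ (m : ℕ) (G : SimpleGraph (Fin n)), 0 ≤ It d m (iA d) G := by
    intro m G
    have h1 : It d m (fun _ => (0 : ℝ)) G ≤ It d m (iA d) G := by
      apply It_mono
      intro H _
      unfold iA
      split_ifs <;> norm_num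
    have h2 : ∀ k, It d k (fun _ : SimpleGraph (Fin n) => (0 : ℝ)) = fun _ => 0 := by
      intro k
      induction k with
      | zero => rfl
      | succ k ihk =>
        rw [It_succ, ihk]
        funext H
        unfold E
        simp
    rw [h2] at h1
    exact h1
  -- the one step inequality
  have hstep : ∀ t ≤ T, L (n := n) d (Good d k0 ν) (t + 1) (It d (n - (t + 1)) (iA d)) +
      1 / 2 * kap d n k0 ν t ≤ L (n := n) d (Good d k0 ν) t (It d (n - t) (iA d)) := by
    intro t ht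
    rw [L_succ]
    unfold LG kap
    rw [← L_mul, ← L_add]
    refine Lmono hp ht fun G hG => ?_
    by_cases hg : Good d k0 ν t G
    · rw [if_pos hg, if_pos hg]
      have e : n - t = (n - (t + 1)) + 1 := by omega
      rw [e, It_succ]
      simp
    · rw [if_neg hg, if_neg hg]
      have h1 := hreg (n - t) t G (by omega) hG.1 hG.2.1
      have h2 : It d (n - t) (ind d) G ≤ It d (n - t) (iA d) G := by
        refine It_mono fun H hGH => ?_
        unfold ind iA
        by_cases hH : Reg d H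
        · rw [if_pos hH]
          have hPR : ¬ PR d H := by
            intro hPR
            apply hg
            refine ⟨hG, Df_ge hH hPR hGH hG.1 (by omega), ?_⟩
            have h3 := hp.hν1
            have h4 := hp.hs1
            have h5 := hp.n4
            refine Np_le hp.hd hH hPR hGH hG.1 hp.hν2 hp.hν0 ?_
            nlinarith
          rw [if_pos ⟨hH, hPR⟩]
        · rw [if_neg hH, if_neg (by tauto)]
      simp only [zero_add, mul_one]
      linarith
  have hsum : ∀ t ≤ T + 1, 1 / 2 * ∑ k ∈ range t, kap d n k0 ν k +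
      L (n := n) d (Good d k0 ν) t (It d (n - t) (iA d)) ≤ It d n (iA d) (⊥ : SimpleGraph (Fin n)) := by
    intro t
    induction t with
    | zero =>
      intro _
      simp [L]
    | succ t ih =>
      intro ht
      have h1 := ih (by omega)
      have h2 := hstep t (by omega)
      rw [sum_range_succ]
      linarith
  have h1 := hsum (T + 1) le_rfl
  have h2 : 0 ≤ L (n := n) d (Good d k0 ν) (T + 1) (It d (n - (T + 1)) (iA d)) := by
    rw [L_succ]
    refine LGnonneg hp le_rfl fun G _ => ?_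
    rw [← It_succ]
    exact hnn _ _
  linarith

/-- **The upper bound for the exponential functional.** -/
lemma upper0 {a : ℝ} (ha : 0 ≤ a) (t : ℕ) (ht : t ≤ T) :
    LG d k0 ν t (fun G : SimpleGraph (Fin n) => Ps d (Real.exp a) t G *
      Real.exp ((Real.exp a - 1) * (Df d G / (2 * (n - t))))) ≤
      n * Real.exp ((Real.exp a - 1) * (d / 2 + t * (d / (2 * (n - 1)) + 4 * d * ν / (s0 ^ 2 * n)))) := by
  have hn : (0 : ℝ) < n := by exact_mod_cast hp.npos
  induction t with
  | zero =>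
    have hdeg : ∀ w : Fin n, dg (⊥ : SimpleGraph (Fin n)) w = 0 := by
      intro w; unfold dg; simp
    unfold LG L
    beta_reduce
    rw [if_pos (Good_zero hp hp.hk)]
    have e1 : Ps d (Real.exp a) 0 (⊥ : SimpleGraph (Fin n)) = n := by
      unfold Ps
      simp [hdeg]
    have e2 : Df d (⊥ : SimpleGraph (Fin n)) = n * d := by
      unfold Df
      simp [hdeg]
    rw [e1, e2]
    have e3 : (n : ℝ) * d / (2 * (n - ((0 : ℕ) : ℝ))) = d / 2 + ((0 : ℕ) : ℝ) *
        (d / (2 * (n - 1)) + 4 * d * ν / (s0 ^ 2 * n)) := by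
      push_cast
      rw [sub_zero, zero_mul, add_zero]
      field_simp
    rw [e3]
  | succ t ih =>
    have h1 := ih (by omega)
    have h2 : LG d k0 ν (t + 1) (fun G : SimpleGraph (Fin n) => Ps d (Real.exp a) (t + 1) G *
      Real.exp ((Real.exp a - 1) * (Df d G / (2 * (n - ((t + 1 : ℕ) : ℝ)))))) ≤
      L d (Good d k0 ν) (t + 1) (fun G : SimpleGraph (Fin n) => Ps d (Real.exp a) (t + 1) G *
      Real.exp ((Real.exp a - 1) * (Df d G / (2 * (n - t - 1))))) := by
      refine le_trans (LG_le_L hp ht fun G hG => ?_) (le_of_eq ?_)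
      · exact mul_nonneg (Ps_nonneg hG.1 (Real.exp_pos a).le) (Real.exp_pos _).le
      · congr 1
        funext G
        have : (n : ℝ) - ((t + 1 : ℕ) : ℝ) = n - t - 1 := by push_cast; ring
        rw [this]
    refine h2.trans ?_
    rw [L_succ]
    have h3 : LG d k0 ν t (E d (fun G : SimpleGraph (Fin n) => Ps d (Real.exp a) (t + 1) G *
      Real.exp ((Real.exp a - 1) * (Df d G / (2 * (n - t - 1)))))) ≤
      LG d k0 ν t (fun G : SimpleGraph (Fin n) =>
        Real.exp ((Real.exp a - 1) * (d / (2 * (n - 1)) + 4 * d * ν / (s0 ^ 2 * n))) *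
        (Ps d (Real.exp a) t G * Real.exp ((Real.exp a - 1) * (Df d G / (2 * (n - t)))))) := by
      refine LGmono hp (by omega) fun G hG => ?_
      refine (step_upper hp (by omega) hG ha).trans (le_of_eq (by ring))
    refine h3.trans ?_
    rw [LG_mul]
    refine (mul_le_mul_of_nonneg_left h1 (Real.exp_pos _).le).trans (le_of_eq ?_)
    rw [mul_left_comm, ← Real.exp_add]
    congr 2
    push_cast
    ring

lemma upper {a : ℝ} (ha : 0 ≤ a) (h4 : 4 * d * ν / s0 ^ 2 ≤ 14 * √d) (h5 : (d : ℝ) ≤ 2 * (n - 1))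
    (ht : t ≤ T) :
    LG d k0 ν t (fun G : SimpleGraph (Fin n) => Ps d (Real.exp a) t G) ≤
      n * Real.exp ((Real.exp a - 1) * (d * (t / n) + 28 * √d + 1)) := by
  have hn : (0 : ℝ) < n := by exact_mod_cast hp.npos
  have hn4 := hp.n4
  have hnt := hp.tle ht
  have hsn := hp.hn1
  have hnt' : (0 : ℝ) < n - t := by linarith
  obtain ⟨e1, e2, e3⟩ := et_facts hp ht
  set g : ℝ := Real.exp a - 1 with hg
  have hg0 : 0 ≤ g := by
    have := Real.one_le_exp ha
    linarith
  have h0 := upper0 hp ha t ht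
  rw [← hg] at h0
  have h1 : Real.exp (g * ((1 - (t : ℝ) / n) * (d - et d n t) / 2)) *
      LG d k0 ν t (fun G : SimpleGraph (Fin n) => Ps d (Real.exp a) t G) ≤
      n * Real.exp (g * (d / 2 + t * (d / (2 * (n - 1)) + 4 * d * ν / (s0 ^ 2 * n)))) := by
    refine le_trans ?_ h0
    rw [← LG_mul]
    refine LGmono hp ht fun G hG => ?_
    rw [mul_comm]
    apply mul_le_mul_of_nonneg_left _ (Ps_nonneg hG.1.1 (Real.exp_pos a).le)
    apply Real.exp_le_exp.2
    apply mul_le_mul_of_nonneg_left _ hg0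
    rw [le_div_iff₀ (by positivity)]
    refine le_trans (le_of_eq ?_) hG.2.1
    field_simp
  have h2 : LG d k0 ν t (fun G : SimpleGraph (Fin n) => Ps d (Real.exp a) t G) ≤
      n * Real.exp (g * (d / 2 + t * (d / (2 * (n - 1)) + 4 * d * ν / (s0 ^ 2 * n)) -
        (1 - (t : ℝ) / n) * (d - et d n t) / 2)) := by
    have h3 := Real.exp_pos (g * ((1 - (t : ℝ) / n) * (d - et d n t) / 2))
    rw [← mul_le_mul_iff_right₀ h3]
    refine h1.trans (le_of_eq ?_)
    rw [mul_left_comm, ← Real.exp_add]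
    congr 2
    ring
  refine h2.trans ?_
  apply mul_le_mul_of_nonneg_left _ hn.le
  apply Real.exp_le_exp.2
  apply mul_le_mul_of_nonneg_left _ hg0
  have htn : (t : ℝ) ≤ n := by linarith
  have ht0 : (0 : ℝ) ≤ t := Nat.cast_nonneg t
  have hx1 : (t : ℝ) / n ≤ 1 := by rw [div_le_one hn]; exact htn
  have hx0 : 0 ≤ (t : ℝ) / n := by positivity
  have hd0 : (0 : ℝ) ≤ d := Nat.cast_nonneg d
  -- t d/(2(n−1)) ≤ d x/2 + 1/... 
  have h6 : (t : ℝ) * (d / (2 * ((n : ℝ) - 1))) ≤ d * (t / n) / 2 + 1 := by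
    have h7 : (t : ℝ) * (d / (2 * ((n : ℝ) - 1))) = d * (t / n) / 2 + (t / n) * (d / (2 * (n - 1))) := by
      have : (n : ℝ) - 1 ≠ 0 := by linarith
      field_simp
      ring
    have h8 : (d : ℝ) / (2 * (n - 1)) ≤ 1 := by
      rw [div_le_one (by linarith)]; exact h5
    have h9 : 0 ≤ (d : ℝ) / (2 * (n - 1)) := by
      apply div_nonneg hd0
      linarith
    rw [h7]
    have h10 : (t : ℝ) / n * (d / (2 * (n - 1))) ≤ 1 * 1 := mul_le_mul hx1 h8 h9 (by norm_num)
    linarith
  have h7 : (t : ℝ) * (4 * d * ν / (s0 ^ 2 * n)) ≤ 14 * √d := by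
    have hs0 := hp.hs0
    have h8 : (t : ℝ) * (4 * d * ν / (s0 ^ 2 * n)) = (t / n) * (4 * d * ν / s0 ^ 2) := by
      field_simp
    rw [h8]
    have hν0 := hp.hν0
    have h9 : 0 ≤ 4 * d * ν / s0 ^ 2 := by positivity
    calc (t : ℝ) / n * (4 * d * ν / s0 ^ 2) ≤ 1 * (4 * d * ν / s0 ^ 2) :=
          mul_le_mul_of_nonneg_right hx1 h9
      _ ≤ 14 * √d := by rw [one_mul]; exact h4
  have h8 : (1 - (t : ℝ) / n) * et d n t ≤ 28 * √d := by
    refine e3.trans ?_
    have : 0 ≤ 28 * √(d : ℝ) := by positivity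
    calc 28 * √(d : ℝ) * (t / n) ≤ 28 * √(d : ℝ) * 1 := mul_le_mul_of_nonneg_left hx1 this
      _ = 28 * √d := mul_one _
  have h9 : (d : ℝ) / 2 + t * (d / (2 * (n - 1)) + 4 * d * ν / (s0 ^ 2 * n)) -
        (1 - (t : ℝ) / n) * (d - et d n t) / 2 = d / 2 + t * (d / (2 * (n - 1))) +
        t * (4 * d * ν / (s0 ^ 2 * n)) - (1 - (t : ℝ) / n) * d / 2 + ((1 - (t : ℝ) / n) * et d n t) / 2 := by
    ring
  rw [h9]
  linarith

omit hp in
/-- one step of the sum -/
lemma r_step {k n : ℕ} (hkn : k + 1 ≤ n) :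
    1 / ((n : ℝ) * √√(1 - (k : ℝ) / n) ^ 3) ≤ 4 * (√√(1 - (k : ℝ) / n) - √√(1 - ((k + 1 : ℕ) : ℝ) / n)) := by
  have hn : (0 : ℝ) < n := by exact_mod_cast (by omega : 0 < n)
  have hk : (k : ℝ) + 1 ≤ n := by exact_mod_cast hkn
  have hk0 : (0 : ℝ) ≤ k := Nat.cast_nonneg k
  have hs : 0 < 1 - (k : ℝ) / n := by
    rw [sub_pos, div_lt_one hn]; linarith
  have hs1 : 1 - (k : ℝ) / n ≤ 1 := by
    have : 0 ≤ (k : ℝ) / n := by positivity
    linarith
  have hs' : 0 ≤ 1 - ((k + 1 : ℕ) : ℝ) / n := by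
    push_cast
    rw [sub_nonneg, div_le_one hn]; exact hk
  obtain ⟨r0, r1, r4⟩ := rr_facts hs hs1
  set r : ℝ := √√(1 - (k : ℝ) / n) with hr
  set r' : ℝ := √√(1 - ((k + 1 : ℕ) : ℝ) / n) with hr'
  have r0' : 0 ≤ r' := Real.sqrt_nonneg _
  have r4' : r' ^ 4 = 1 - ((k + 1 : ℕ) : ℝ) / n := by
    calc r' ^ 4 = (r' ^ 2) ^ 2 := by ring
      _ = _ := by rw [hr', Real.sq_sqrt (Real.sqrt_nonneg _), Real.sq_sqrt hs']
  have hle : r' ≤ r := by
    apply Real.sqrt_le_sqrt
    apply Real.sqrt_le_sqrt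
    push_cast
    have : (k : ℝ) / n ≤ (k + 1) / n := div_le_div_of_nonneg_right (by linarith) hn.le
    linarith
  have hdiff : r ^ 4 - r' ^ 4 = 1 / n := by
    rw [r4, r4']; push_cast; field_simp; ring
  rw [div_le_iff₀ (by positivity)]
  have h1 : r ^ 4 - r' ^ 4 ≤ 4 * (r - r') * r ^ 3 := by
    have h2 : r ^ 4 - r' ^ 4 = (r - r') * (r ^ 3 + r ^ 2 * r' + r * r' ^ 2 + r' ^ 3) := by ring
    have h3 : r ^ 3 + r ^ 2 * r' + r * r' ^ 2 + r' ^ 3 ≤ 4 * r ^ 3 := by
      have a1 : r ^ 2 * r' ≤ r ^ 2 * r := mul_le_mul_of_nonneg_left hle (by positivity)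
      have a2 : r' ^ 2 ≤ r ^ 2 := pow_le_pow_left₀ r0' hle 2
      have a3 : r * r' ^ 2 ≤ r * r ^ 2 := mul_le_mul_of_nonneg_left a2 r0.le
      have a4 : r' ^ 3 ≤ r ^ 3 := pow_le_pow_left₀ r0' hle 3
      nlinarith
    rw [h2]
    calc (r - r') * (r ^ 3 + r ^ 2 * r' + r * r' ^ 2 + r' ^ 3) ≤ (r - r') * (4 * r ^ 3) :=
          mul_le_mul_of_nonneg_left h3 (by linarith)
      _ = _ := by ring
  rw [hdiff] at h1
  have h2 : (1 : ℝ) = n * (1 / n) := by field_simp
  calc (1 : ℝ) = n * (1 / n) := h2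
    _ ≤ n * (4 * (r - r') * r ^ 3) := mul_le_mul_of_nonneg_left h1 hn.le
    _ = _ := by ring

/-- the growth factors -/
lemma prod_ge {g : ℝ} (hg : 0 ≤ g) (t : ℕ) (ht : t ≤ T) :
    Real.exp (g * ((d - 112 * √d) * (t / n)) - g ^ 2 * d ^ 2 / n) ≤
      ∏ k ∈ range t, (1 + g * ((d - et d n k) / n)) := by
  have hn : (0 : ℝ) < n := by exact_mod_cast hp.npos
  have hTn := hp.Tn
  have hd0 : (0 : ℝ) ≤ d := Nat.cast_nonneg d
  have hsd : 0 ≤ √(d : ℝ) := Real.sqrt_nonneg _
  have key : ∀ t ≤ T, Real.exp (g * (d * (t / n) - 112 * √d * (1 - √√(1 - (t : ℝ) / n))) -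
      t * (g ^ 2 * d ^ 2 / n ^ 2)) ≤ ∏ k ∈ range t, (1 + g * ((d - et d n k) / n)) := by
    intro t
    induction t with
    | zero => intro _; simp
    | succ t ih =>
      intro ht
      have h1 := ih (by omega)
      rw [prod_range_succ]
      obtain ⟨e1, e2, e3⟩ := et_facts hp (by omega : t ≤ T)
      set y : ℝ := g * ((d - et d n t) / n) with hy
      have hy0 : 0 ≤ y := mul_nonneg hg (div_nonneg (by linarith) hn.le)
      have hyd : y ≤ g * (d / n) := by
        apply mul_le_mul_of_nonneg_left _ hg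
        exact div_le_div_of_nonneg_right (by linarith) hn.le
      have h2 : Real.exp (y - y ^ 2) ≤ 1 + y := by
        have h3 := Real.add_one_le_exp (-(y - y ^ 2))
        have h4 : Real.exp (y - y ^ 2) * Real.exp (-(y - y ^ 2)) = 1 := by
          rw [← Real.exp_add]; simp
        have h5 := Real.exp_pos (y - y ^ 2)
        have h6 : 0 < 1 - y + y ^ 2 := by nlinarith [sq_nonneg (y - 1 / 2)]
        have h7 : Real.exp (y - y ^ 2) * (1 - y + y ^ 2) ≤ 1 := by nlinarith
        have h8 : 1 ≤ (1 + y) * (1 - y + y ^ 2) := by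
          have : (1 + y) * (1 - y + y ^ 2) = 1 + y ^ 3 := by ring
          rw [this]
          have : 0 ≤ y ^ 3 := by positivity
          linarith
        by_contra hc
        push Not at hc
        have := mul_lt_mul_of_pos_right hc h6
        linarith
      have h3 : Real.exp (g * (d * (((t + 1 : ℕ) : ℝ) / n) - 112 * √d *
          (1 - √√(1 - ((t + 1 : ℕ) : ℝ) / n))) - ((t + 1 : ℕ) : ℝ) * (g ^ 2 * d ^ 2 / n ^ 2)) ≤
          Real.exp (g * (d * (t / n) - 112 * √d * (1 - √√(1 - (t : ℝ) / n))) -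
            t * (g ^ 2 * d ^ 2 / n ^ 2)) * Real.exp (y - y ^ 2) := by
        rw [← Real.exp_add]
        apply Real.exp_le_exp.2
        have hr := r_step (k := t) (n := n) (by omega)
        have hy2 : y ^ 2 ≤ g ^ 2 * d ^ 2 / n ^ 2 := by
          calc y ^ 2 ≤ (g * (d / n)) ^ 2 := pow_le_pow_left₀ hy0 hyd 2
            _ = _ := by ring
        have het : et d n t / n ≤ 112 * √d * (√√(1 - (t : ℝ) / n) - √√(1 - ((t + 1 : ℕ) : ℝ) / n)) := by
          have hx1 : (t : ℝ) / n ≤ 1 := by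
            rw [div_le_one hn]; exact_mod_cast (by omega : t ≤ n)
          have hx0 : 0 ≤ (t : ℝ) / n := by positivity
          have hs : 0 < 1 - (t : ℝ) / n := by
            rw [sub_pos, div_lt_one hn]; exact_mod_cast (by omega : t < n)
          obtain ⟨r0, r1, r4⟩ := rr_facts hs (by linarith)
          have e5 : et d n t / n = 28 * √d * (t / n) * (1 / (n * √√(1 - (t : ℝ) / n) ^ 3)) := by
            unfold et; field_simp
          rw [e5]
          have e6 : 0 ≤ 1 / ((n : ℝ) * √√(1 - (t : ℝ) / n) ^ 3) := by positivity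
          calc 28 * √(d : ℝ) * (t / n) * (1 / (n * √√(1 - (t : ℝ) / n) ^ 3)) ≤
              28 * √(d : ℝ) * 1 * (1 / (n * √√(1 - (t : ℝ) / n) ^ 3)) := by
                apply mul_le_mul_of_nonneg_right _ e6
                exact mul_le_mul_of_nonneg_left hx1 (by positivity)
            _ ≤ 28 * √(d : ℝ) * 1 * (4 * (√√(1 - (t : ℝ) / n) - √√(1 - ((t + 1 : ℕ) : ℝ) / n))) :=
                mul_le_mul_of_nonneg_left hr (by positivity)
            _ = _ := by ring
        have hyeq : y = g * (d / n) - g * (et d n t / n) := by rw [hy]; ring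
        have hget := mul_le_mul_of_nonneg_left het hg
        have hc1 : g * (d * (((t + 1 : ℕ) : ℝ) / n) - 112 * √d *
          (1 - √√(1 - ((t + 1 : ℕ) : ℝ) / n))) - ((t + 1 : ℕ) : ℝ) * (g ^ 2 * d ^ 2 / n ^ 2) =
          g * (d * (t / n) - 112 * √d * (1 - √√(1 - (t : ℝ) / n))) -
            t * (g ^ 2 * d ^ 2 / n ^ 2) + (g * (d / n) - g * (112 * √d * (√√(1 - (t : ℝ) / n) -
              √√(1 - ((t + 1 : ℕ) : ℝ) / n))) - g ^ 2 * d ^ 2 / n ^ 2) := by
          have : (((t + 1 : ℕ) : ℝ) / n) = t / n + 1 / n := by push_cast; ring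
          have h9 : ((t + 1 : ℕ) : ℝ) * (g ^ 2 * d ^ 2 / n ^ 2) = t * (g ^ 2 * d ^ 2 / n ^ 2) +
            g ^ 2 * d ^ 2 / n ^ 2 := by push_cast; ring
          rw [h9]
          linear_combination g * d * this
        rw [hc1]
        linarith
      refine h3.trans ?_
      exact mul_le_mul h1 h2 (Real.exp_pos _).le (prod_nonneg fun k hk => by
        obtain ⟨f1, f2, f3⟩ := et_facts hp (by
          have := mem_range.1 hk
          omega : k ≤ T)
        have : 0 ≤ g * ((d - et d n k) / n) := mul_nonneg hg (div_nonneg (by linarith) hn.le)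
        linarith)
  refine le_trans ?_ (key t ht)
  apply Real.exp_le_exp.2
  have hx1 : (t : ℝ) / n ≤ 1 := by
    rw [div_le_one hn]; exact_mod_cast (by omega : t ≤ n)
  have hx0 : 0 ≤ (t : ℝ) / n := by positivity
  have hs : 0 < 1 - (t : ℝ) / n := by
    rw [sub_pos, div_lt_one hn]; exact_mod_cast (by omega : t < n)
  obtain ⟨r0, r1, r4⟩ := rr_facts hs (by linarith)
  have hr1 : 1 - √√(1 - (t : ℝ) / n) ≤ t / n := by
    have : √√(1 - (t : ℝ) / n) ^ 4 ≤ √√(1 - (t : ℝ) / n) := by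
      calc √√(1 - (t : ℝ) / n) ^ 4 ≤ √√(1 - (t : ℝ) / n) ^ 1 :=
            pow_le_pow_of_le_one r0.le r1 (by norm_num)
        _ = _ := pow_one _
    rw [r4] at this
    linarith
  have h1 : t * (g ^ 2 * d ^ 2 / n ^ 2) ≤ g ^ 2 * d ^ 2 / n := by
    have : t * (g ^ 2 * d ^ 2 / n ^ 2) = (t / n) * (g ^ 2 * d ^ 2 / n) := by field_simp
    rw [this]
    have h2 : 0 ≤ g ^ 2 * d ^ 2 / n := by positivity
    calc (t : ℝ) / n * (g ^ 2 * d ^ 2 / n) ≤ 1 * (g ^ 2 * d ^ 2 / n) :=
          mul_le_mul_of_nonneg_right hx1 h2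
      _ = _ := one_mul _
  have h2 : g * ((d - 112 * √d) * (t / n)) ≤ g * (d * (t / n) - 112 * √d * (1 - √√(1 - (t : ℝ) / n))) := by
    apply mul_le_mul_of_nonneg_left _ hg
    have : 112 * √(d : ℝ) * (1 - √√(1 - (t : ℝ) / n)) ≤ 112 * √(d : ℝ) * (t / n) :=
      mul_le_mul_of_nonneg_left hr1 (by positivity)
    linarith
  linarith

/-- **The lower bound for the exponential functional.** -/
lemma lower {a : ℝ} (ha : 0 ≤ a) (t : ℕ) (ht : t ≤ T) :
    (∏ k ∈ range t, (1 + (Real.exp a - 1) * ((d - et d n k) / n))) * (n -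
      ∑ k ∈ range t, (Real.exp (a * ((d + 28 * √d) * (k / n))) /
        ∏ i ∈ range k, (1 + (Real.exp a - 1) * ((d - et d n i) / n)) +
        ((Real.exp a - 1) * (2 * d / (s0 * n)) * Real.exp (a * d) *
          LG d k0 ν k (fun G : SimpleGraph (Fin n) => Np d k G) +
          n * Real.exp (a * d) * kap d n k0 ν (k + 1)))) ≤
      LG d k0 ν t (fun G : SimpleGraph (Fin n) => Ps d (Real.exp a) t G) := by
  have hn : (0 : ℝ) < n := by exact_mod_cast hp.npos
  set z : ℝ := Real.exp a with hz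
  have hz1 : 1 ≤ z := Real.one_le_exp ha
  have hzd : z ^ d = Real.exp (a * d) := by rw [hz, ← Real.exp_nat_mul, mul_comm]
  have hq0 : ∀ k ≤ T, 0 ≤ (z - 1) * ((d - et d n k) / n) := by
    intro k hk
    obtain ⟨f1, f2, f3⟩ := et_facts hp hk
    exact mul_nonneg (by linarith) (div_nonneg (by linarith) hn.le)
  have hprod1 : ∀ k ≤ T, 1 ≤ ∏ i ∈ range k, (1 + (z - 1) * ((d - et d n i) / n)) := by
    intro k
    induction k with
    | zero => intro _; simp
    | succ k ih =>
      intro hk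
      rw [prod_range_succ]
      have h1 := ih (by omega)
      have h2 := hq0 k (by omega)
      nlinarith
  induction t with
  | zero =>
    have hdeg : ∀ w : Fin n, dg (⊥ : SimpleGraph (Fin n)) w = 0 := by
      intro w; unfold dg; simp
    unfold LG L
    beta_reduce
    rw [if_pos (Good_zero hp hp.hk)]
    have e1 : Ps d z 0 (⊥ : SimpleGraph (Fin n)) = n := by
      unfold Ps
      simp [hdeg]
    rw [e1]
    simp
  | succ t ih =>
    have h1 := ih (by omega)
    rw [prod_range_succ, sum_range_succ]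
    set P : ℝ := ∏ i ∈ range t, (1 + (z - 1) * ((d - et d n i) / n)) with hP
    set Sg : ℝ := ∑ k ∈ range t, (Real.exp (a * ((d + 28 * √d) * (k / n))) /
        ∏ i ∈ range k, (1 + (z - 1) * ((d - et d n i) / n)) +
        ((z - 1) * (2 * d / (s0 * n)) * Real.exp (a * d) *
          LG d k0 ν k (fun G : SimpleGraph (Fin n) => Np d k G) +
          n * Real.exp (a * d) * kap d n k0 ν (k + 1))) with hSg
    set zb : ℝ := Real.exp (a * ((d + 28 * √d) * (t / n))) with hzb
    set y : ℝ := (z - 1) * ((d - et d n t) / n) with hy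
    set F : ℝ := LG d k0 ν t (fun G : SimpleGraph (Fin n) => Ps d z t G) with hF
    set N : ℝ := LG d k0 ν t (fun G : SimpleGraph (Fin n) => Np d t G) with hN
    set κ : ℝ := kap d n k0 ν (t + 1) with hκ
    have hP1 : 1 ≤ P := hprod1 t (by omega)
    have hy0 : 0 ≤ y := hq0 t (by omega)
    have hN0 : 0 ≤ N := LGnonneg hp (by omega) fun G hG => Np_nonneg hG.1.1
    have hκ0 : 0 ≤ κ := kap_nonneg hp ht
    have hs0 := hp.hs0
    have hd0 : (0 : ℝ) ≤ d := Nat.cast_nonneg d
    have hz0 : 0 ≤ z - 1 := by linarith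
    have hc0 : 0 ≤ (z - 1) * (2 * d / (s0 * n)) * Real.exp (a * d) := by positivity
    -- killing
    have h2 : L d (Good d k0 ν) (t + 1) (fun G : SimpleGraph (Fin n) => Ps d z (t + 1) G) ≤
        LG d k0 ν (t + 1) (fun G : SimpleGraph (Fin n) => Ps d z (t + 1) G) + n * Real.exp (a * d) * κ := by
      rw [← hzd]
      exact L_le_LG hp ht fun G hG => Ps_le hG.1 hz1
    -- one step
    have h3 : (1 + y) * (F + (-zb) * LG d k0 ν t (fun _ : SimpleGraph (Fin n) => (1 : ℝ))) +
        (-((z - 1) * (2 * d / (s0 * n)) * Real.exp (a * d))) * N ≤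
        L d (Good d k0 ν) (t + 1) (fun G : SimpleGraph (Fin n) => Ps d z (t + 1) G) := by
      rw [L_succ, hF, hN, ← LG_mul, ← LG_add, ← LG_mul, ← LG_mul, ← LG_add]
      refine LGmono hp (by omega) fun G hG => ?_
      refine le_trans (le_of_eq ?_) (step_lower hp (by omega) hG ha)
      ring
    have h4 : LG d k0 ν t (fun _ : SimpleGraph (Fin n) => (1 : ℝ)) ≤ 1 := LGone hp (by omega)
    have hzb0 : 0 < zb := Real.exp_pos _
    have h5 : (1 + y) * (F - zb) - (z - 1) * (2 * d / (s0 * n)) * Real.exp (a * d) * N -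
        n * Real.exp (a * d) * κ ≤ LG d k0 ν (t + 1) (fun G : SimpleGraph (Fin n) => Ps d z (t + 1) G) := by
      have h6 : (1 + y) * (F - zb) ≤
          (1 + y) * (F + (-zb) * LG d k0 ν t (fun _ : SimpleGraph (Fin n) => (1 : ℝ))) := by
        apply mul_le_mul_of_nonneg_left _ (by linarith)
        nlinarith
      linarith
    refine le_trans ?_ h5
    set er : ℝ := (z - 1) * (2 * d / (s0 * n)) * Real.exp (a * d) * N + n * Real.exp (a * d) * κ with her
    have her0 : 0 ≤ er := by positivity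
    have h6 : P * (1 + y) * (n - (Sg + (zb / P + er))) = (1 + y) * (P * (n - Sg) - zb) -
        P * (1 + y) * er := by
      have : P ≠ 0 := by linarith
      field_simp
      ring
    rw [h6]
    have h7 : (1 + y) * (P * (n - Sg) - zb) ≤ (1 + y) * (F - zb) :=
      mul_le_mul_of_nonneg_left (by linarith) (by linarith)
    have h8 : er ≤ P * (1 + y) * er := by
      have : 1 ≤ P * (1 + y) := by nlinarith
      nlinarith
    linarith

/-- **The contradiction.** -/
theorem core (hreg : ∀ (m t : ℕ) (G : SimpleGraph (Fin n)), t + m = n → Inv d t G →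
    k0 ≤ (U d G).card → 1 / 2 ≤ It d m (ind d) G) {a A σ : ℝ} (ha : 0 ≤ a) (hA : 0 ≤ A) (hσ : 0 < σ)
    (h1 : (Real.exp a - 1) ^ 2 * (d : ℝ) ^ 2 / n ≤ 1 / 2)
    (h2 : 16 ≤ (Real.exp a - 1) * (d - 112 * √d) - a * (d + 28 * √d))
    (h3 : (16 : ℝ) ≤ n)
    (h4 : 4 * d * ν / s0 ^ 2 ≤ 14 * √d) (h5 : (d : ℝ) ≤ 2 * (n - 1))
    (h6 : (Real.exp a - 1) * (2 * d / s0) * Real.exp (a * d - A * d +
      (Real.exp A - 1) * (d * (1 - s0) + 28 * √d + 1)) ≤ 1 / 8)
    (h7 : 2 * Real.exp (a * d) * It d n (iA d) (⊥ : SimpleGraph (Fin n)) ≤ 1 / 8)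
    (h8 : (n : ℝ) - T ≤ σ ^ 2 * n)
    (h9 : σ * Real.exp ((Real.exp (2 * a) - 1) / 2 * (d * (T / n) + 28 * √d + 1) -
      (Real.exp a - 1) * ((d - 112 * √d) * (T / n)) + 1 / 2) < 1 / 2) : False := by
  have hn : (0 : ℝ) < n := by exact_mod_cast hp.npos
  have hTn := hp.Tn
  have hTn' : (T : ℝ) < n := by exact_mod_cast hTn
  have hT0 : (0 : ℝ) ≤ T := Nat.cast_nonneg T
  set z : ℝ := Real.exp a with hz
  set g : ℝ := z - 1 with hg
  have hg0 : 0 ≤ g := by
    have := Real.one_le_exp ha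
    linarith
  have hs0 := hp.hs0
  have hd0 : (0 : ℝ) ≤ d := Nat.cast_nonneg d
  set Λ : ℝ := g * (d - 112 * √d) - a * (d + 28 * √d) with hΛ
  have hΛ0 : 0 < Λ := by linarith
  have hlow := lower hp ha T le_rfl
  rw [← hz, ← hg] at hlow
  set PT : ℝ := ∏ k ∈ range T, (1 + g * ((d - et d n k) / n)) with hPT
  -- the removed mass
  have hrem : ∑ k ∈ range T, Real.exp (a * ((d + 28 * √d) * (k / n))) /
        ∏ i ∈ range k, (1 + g * ((d - et d n i) / n)) ≤ n / 4 := by
    have hterm : ∀ k ∈ range T, Real.exp (a * ((d + 28 * √d) * (k / n))) /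
        ∏ i ∈ range k, (1 + g * ((d - et d n i) / n)) ≤ 2 * (Real.exp (-(Λ / n))) ^ k := by
      intro k hk
      have hkT : k ≤ T := (mem_range.1 hk).le
      have hpg := prod_ge hp hg0 k hkT
      have hpos := Real.exp_pos (g * ((d - 112 * √d) * ((k : ℝ) / n)) - g ^ 2 * d ^ 2 / n)
      rw [div_le_iff₀ (lt_of_lt_of_le hpos hpg)]
      refine le_trans ?_ (mul_le_mul_of_nonneg_left hpg (by positivity))
      have e1 : Real.exp (-(Λ / n)) ^ k = Real.exp (-(Λ * (k / n))) := by
        rw [← Real.exp_nat_mul]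
        congr 1
        ring
      rw [e1, mul_assoc, ← Real.exp_add]
      have e2 : -(Λ * ((k : ℝ) / n)) + (g * ((d - 112 * √d) * (k / n)) - g ^ 2 * d ^ 2 / n) =
          a * ((d + 28 * √d) * (k / n)) - g ^ 2 * d ^ 2 / n := by
        rw [hΛ]; ring
      rw [e2, Real.exp_sub]
      have e3 : Real.exp (g ^ 2 * d ^ 2 / n) ≤ 2 := by
        have e4 : Real.exp (g ^ 2 * d ^ 2 / n) ≤ Real.exp (1 / 2) := Real.exp_le_exp.2 h1
        have e5 : Real.exp (1 / 2) ≤ 2 := by
          have e6 : Real.exp (1 / 2) * Real.exp (1 / 2) = Real.exp 1 := by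
            rw [← Real.exp_add]; norm_num
          have e7 := Real.exp_one_lt_d9
          by_contra hc
          push Not at hc
          nlinarith
        linarith
      have e8 := Real.exp_pos (g ^ 2 * d ^ 2 / n)
      have e9 := Real.exp_pos (a * ((d + 28 * √d) * (k / n)))
      rw [← mul_div_assoc (2 : ℝ), le_div_iff₀ e8]
      nlinarith
    refine (sum_le_sum hterm).trans ?_
    rw [← mul_sum]
    set ρ : ℝ := Real.exp (-(Λ / n)) with hρ
    have hΛn : 0 < Λ / n := by positivity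
    have hρ1 : ρ ≤ 1 / (1 + Λ / n) := by
      rw [hρ, Real.exp_neg, ← one_div]
      apply one_div_le_one_div_of_le (by linarith)
      have := Real.add_one_le_exp (Λ / n)
      linarith
    have hρ0 : 0 < ρ := Real.exp_pos _
    have h10 : Λ / n / (1 + Λ / n) ≤ 1 - ρ := by
      have : Λ / n / (1 + Λ / n) = 1 - 1 / (1 + Λ / n) := by field_simp; ring
      linarith
    have h11 := mul_neg_geom_sum ρ T
    have h12 : (1 - ρ) * ∑ i ∈ range T, ρ ^ i ≤ 1 := by
      rw [h11]
      have : 0 < ρ ^ T := by positivity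
      linarith
    have hsum0 : 0 ≤ ∑ i ∈ range T, ρ ^ i := sum_nonneg fun i _ => by positivity
    have h13 : ∑ i ∈ range T, ρ ^ i ≤ 1 + n / Λ := by
      have h14 : Λ / n / (1 + Λ / n) * ∑ i ∈ range T, ρ ^ i ≤ 1 :=
        (mul_le_mul_of_nonneg_right h10 hsum0).trans h12
      have h15 : ∑ i ∈ range T, ρ ^ i = (Λ / n / (1 + Λ / n) * ∑ i ∈ range T, ρ ^ i) * (1 + n / Λ) := by
        field_simp
        ring
      rw [h15]
      have h16 : 0 ≤ 1 + n / Λ := by positivity
      calc (Λ / n / (1 + Λ / n) * ∑ i ∈ range T, ρ ^ i) * (1 + n / Λ) ≤ 1 * (1 + n / Λ) :=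
            mul_le_mul_of_nonneg_right h14 h16
        _ = _ := one_mul _
    have h14 : n / Λ ≤ n / 16 := div_le_div_of_nonneg_left hn.le (by norm_num) h2
    linarith
  -- the error terms
  have herr : ∑ k ∈ range T, (g * (2 * d / (s0 * n)) * Real.exp (a * d) *
          LG d k0 ν k (fun G : SimpleGraph (Fin n) => Np d k G) +
          n * Real.exp (a * d) * kap d n k0 ν (k + 1)) ≤ n / 4 := by
    rw [sum_add_distrib]
    have hfirst : ∑ k ∈ range T, g * (2 * d / (s0 * n)) * Real.exp (a * d) *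
          LG d k0 ν k (fun G : SimpleGraph (Fin n) => Np d k G) ≤ n / 8 := by
      have hN : ∀ k ∈ range T, g * (2 * d / (s0 * n)) * Real.exp (a * d) *
          LG d k0 ν k (fun G : SimpleGraph (Fin n) => Np d k G) ≤
          g * (2 * d / (s0 * n)) * Real.exp (a * d) * (Real.exp (-(A * d)) * (n *
            Real.exp ((Real.exp A - 1) * (d * (1 - s0) + 28 * √d + 1)))) := by
        intro k hk
        have hkT : k ≤ T := (mem_range.1 hk).le
        apply mul_le_mul_of_nonneg_left _ (by positivity)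
        have hup := upper hp hA h4 h5 hkT
        have h10 : LG d k0 ν k (fun G : SimpleGraph (Fin n) => Np d k G) ≤
            Real.exp (-(A * d)) * LG d k0 ν k (fun G : SimpleGraph (Fin n) => Ps d (Real.exp A) k G) := by
          rw [← LG_mul]
          refine LGmono hp hkT fun G hG => ?_
          have h11 := Np_le_Ps hG.1.1 (Real.exp_pos A).le
          have h12 : Real.exp A ^ d = Real.exp (A * d) := by rw [← Real.exp_nat_mul, mul_comm]
          rw [h12] at h11
          have h13 : Real.exp (-(A * d)) * Real.exp (A * d) = 1 := by rw [← Real.exp_add]; simp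
          calc Np d k G = Real.exp (-(A * d)) * (Np d k G * Real.exp (A * d)) := by
                linear_combination (-(Np d k G)) * h13
            _ ≤ _ := mul_le_mul_of_nonneg_left h11 (Real.exp_pos _).le
        refine h10.trans (mul_le_mul_of_nonneg_left (hup.trans ?_) (Real.exp_pos _).le)
        apply mul_le_mul_of_nonneg_left _ hn.le
        apply Real.exp_le_exp.2
        have hA1 : 0 ≤ Real.exp A - 1 := by
          have := Real.one_le_exp hA
          linarith
        apply mul_le_mul_of_nonneg_left _ hA1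
        have h14 : (k : ℝ) / n ≤ 1 - s0 := by
          rw [div_le_iff₀ hn]
          have : (k : ℝ) ≤ T := by exact_mod_cast hkT
          exact this.trans hp.hT
        have h15 := mul_le_mul_of_nonneg_left h14 hd0
        linarith
      refine (sum_le_card_nsmul _ _ _ hN).trans ?_
      rw [card_range, nsmul_eq_mul]
      have h10 : (T : ℝ) * (g * (2 * d / (s0 * n)) * Real.exp (a * d) * (Real.exp (-(A * d)) * (n *
            Real.exp ((Real.exp A - 1) * (d * (1 - s0) + 28 * √d + 1))))) =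
          T * (g * (2 * d / s0) * Real.exp (a * d - A * d +
            (Real.exp A - 1) * (d * (1 - s0) + 28 * √d + 1))) := by
        have h11 : a * d - A * d + (Real.exp A - 1) * (d * (1 - s0) + 28 * √d + 1) =
            a * d + (-(A * d) + (Real.exp A - 1) * (d * (1 - s0) + 28 * √d + 1)) := by ring
        rw [h11, Real.exp_add, Real.exp_add]
        field_simp
      rw [h10]
      calc (T : ℝ) * (g * (2 * d / s0) * Real.exp (a * d - A * d +
            (Real.exp A - 1) * (d * (1 - s0) + 28 * √d + 1))) ≤ T * (1 / 8) :=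
            mul_le_mul_of_nonneg_left h6 hT0
        _ ≤ n / 8 := by linarith
    have hsecond : ∑ k ∈ range T, n * Real.exp (a * d) * kap d n k0 ν (k + 1) ≤ n / 8 := by
      rw [← mul_sum]
      have hkil := killed hp hreg
      rw [sum_range_succ'] at hkil
      have hk0 := kap_nonneg hp (Nat.zero_le T)
      have h10 : ∑ k ∈ range T, kap d n k0 ν (k + 1) ≤ 2 * It d n (iA d) (⊥ : SimpleGraph (Fin n)) := by
        linarith
      have h11 : 0 ≤ n * Real.exp (a * d) := by positivity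
      calc n * Real.exp (a * d) * ∑ k ∈ range T, kap d n k0 ν (k + 1) ≤
          n * Real.exp (a * d) * (2 * It d n (iA d) (⊥ : SimpleGraph (Fin n))) :=
            mul_le_mul_of_nonneg_left h10 h11
        _ = n * (2 * Real.exp (a * d) * It d n (iA d) (⊥ : SimpleGraph (Fin n))) := by ring
        _ ≤ n * (1 / 8) := mul_le_mul_of_nonneg_left h7 hn.le
        _ = n / 8 := by ring
    linarith
  rw [sum_add_distrib] at hlow
  have hPTg := prod_ge hp hg0 T le_rfl
  have hPT0 : 0 < PT := lt_of_lt_of_le (Real.exp_pos _) hPTg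
  have hF : PT * (n / 2) ≤ LG d k0 ν T (fun G : SimpleGraph (Fin n) => Ps d z T G) := by
    refine le_trans (mul_le_mul_of_nonneg_left ?_ hPT0.le) hlow
    linarith
  -- the upper bound
  set X : ℝ := d * ((T : ℝ) / n) + 28 * √d + 1 with hX
  set E0 : ℝ := Real.exp ((Real.exp (2 * a) - 1) / 2 * X) with hE0
  have hE0p : 0 < E0 := Real.exp_pos _
  have hup := upper hp (a := 2 * a) (by linarith) h4 h5 (le_refl T)
  have hlam : 0 < E0 / σ := by positivity
  have hcs : LG d k0 ν T (fun G : SimpleGraph (Fin n) => Ps d z T G) ≤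
      (E0 / σ * (n - T)) / 2 + (1 / (2 * (E0 / σ))) * LG d k0 ν T
        (fun G : SimpleGraph (Fin n) => Ps d (Real.exp (2 * a)) T G) := by
    have h10 : LG d k0 ν T (fun G : SimpleGraph (Fin n) => Ps d z T G) ≤
        (E0 / σ * (n - T)) / 2 * LG d k0 ν T (fun _ : SimpleGraph (Fin n) => (1 : ℝ)) +
        (1 / (2 * (E0 / σ))) * LG d k0 ν T
        (fun G : SimpleGraph (Fin n) => Ps d (Real.exp (2 * a)) T G) := by
      rw [← LG_mul, ← LG_mul, ← LG_add]
      refine LGmono hp le_rfl fun G hG => ?_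
      have h11 := Ps_sq (z := z) hG.1.1 hlam
      have h12 : z ^ 2 = Real.exp (2 * a) := by
        rw [hz, ← Real.exp_nat_mul]; push_cast; ring_nf
      rw [h12] at h11
      refine h11.trans (le_of_eq ?_)
      field_simp
    have h11 : LG d k0 ν T (fun _ : SimpleGraph (Fin n) => (1 : ℝ)) ≤ 1 := LGone hp le_rfl
    have h12 : 0 ≤ (E0 / σ * (n - T)) / 2 := by
      have : 0 ≤ (n : ℝ) - T := by linarith
      positivity
    nlinarith
  have hE2 : Real.exp ((Real.exp (2 * a) - 1) * X) = E0 * E0 := by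
    rw [hE0, ← Real.exp_add]
    congr 1
    ring
  rw [← hX, hE2] at hup
  have hfin : LG d k0 ν T (fun G : SimpleGraph (Fin n) => Ps d z T G) ≤ n * (E0 * σ) := by
    have h10 : E0 / σ * (n - T) ≤ E0 / σ * (σ ^ 2 * n) := mul_le_mul_of_nonneg_left h8 hlam.le
    have h11 : E0 / σ * (σ ^ 2 * n) = n * (E0 * σ) := by field_simp
    have h12 : (1 / (2 * (E0 / σ))) * LG d k0 ν T
        (fun G : SimpleGraph (Fin n) => Ps d (Real.exp (2 * a)) T G) ≤
        (1 / (2 * (E0 / σ))) * (n * (E0 * E0)) :=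
      mul_le_mul_of_nonneg_left hup (by positivity)
    have h13 : (1 / (2 * (E0 / σ))) * (n * (E0 * E0)) = n * (E0 * σ) / 2 := by field_simp
    linarith
  -- the final contradiction
  have h10 : Real.exp (g * ((d - 112 * √d) * ((T : ℝ) / n)) - 1 / 2) ≤ PT := by
    refine le_trans (Real.exp_le_exp.2 ?_) hPTg
    linarith
  have h11 : PT * (1 / 2) ≤ E0 * σ := by
    have h12 : n * (PT * (1 / 2)) ≤ n * (E0 * σ) := by
      calc n * (PT * (1 / 2)) = PT * (n / 2) := by ring
        _ ≤ _ := hF.trans hfin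
    exact le_of_mul_le_mul_left h12 hn
  set Y : ℝ := g * ((d - 112 * √d) * ((T : ℝ) / n)) with hY
  have h12 : Real.exp ((Real.exp (2 * a) - 1) / 2 * X - Y + 1 / 2) * Real.exp (Y - 1 / 2) = E0 := by
    rw [← Real.exp_add, hE0]
    congr 1
    ring
  have h13 := Real.exp_pos (Y - 1 / 2)
  have h14 : σ * E0 < 1 / 2 * Real.exp (Y - 1 / 2) := by
    rw [← h12, ← mul_assoc]
    exact mul_lt_mul_of_pos_right h9 h13
  linarith

end

end Pool.Agent.T2H64.Star
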