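import Pool.Agent.T2H64.Star.Basic

/-!
# The process ends in a regular graph with probability at least 1/2
-/

set_option autoImplicit false
set_option linter.unusedVariables false
set_option linter.unusedSimpArgs false

open Finset
open scoped Classical

namespace Pool.Agent.T2H64.Star

variable {n : ℕ}

lemma Av_lin {C : Finset (Fin n)} {r : ℕ} (h : r ≤ C.card) (a : ℝ) (f : Fin n → ℝ) :
    Av C r (fun S => a + ∑ w ∈ S, f w) = a + r / C.card * ∑ w ∈ C, f w := by
  rw [Av_add, Av_const h, Av_sum h]

/-- iterates of the operator -/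
noncomputable def It (d m : ℕ) (f : SimpleGraph (Fin n) → ℝ) : SimpleGraph (Fin n) → ℝ := (E d)^[m] f

lemma It_zero (d : ℕ) (f : SimpleGraph (Fin n) → ℝ) : It d 0 f = f := rfl

lemma It_succ (d m : ℕ) (f : SimpleGraph (Fin n) → ℝ) : It d (m + 1) f = E d (It d m f) := by
  unfold It
  rw [Function.iterate_succ_apply']

lemma It_reg {d : ℕ} {G : SimpleGraph (Fin n)} (h : Reg d G) (f : SimpleGraph (Fin n) → ℝ) (m : ℕ) :
    It d m f G = f G := by
  induction m with
  | zero => rfl
  | succ m ih => rw [It_succ, E_reg h, ih]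

lemma K_le {d : ℕ} {G H : SimpleGraph (Fin n)} (h : K d n G H ≠ 0) : G ≤ H := by
  by_cases hG : Reg d G
  · have : H = G := by
      by_contra hc
      unfold K at h
      simp [hG, hc] at h
    exact this.ge
  · obtain ⟨v, hv, S, hS, hc, rfl⟩ := K_ne_zero h hG
    exact le_star G v S

lemma It_mono {d m : ℕ} {f f' : SimpleGraph (Fin n) → ℝ} {G : SimpleGraph (Fin n)}
    (h : ∀ H, G ≤ H → f H ≤ f' H) : It d m f G ≤ It d m f' G := by
  induction m generalizing G with
  | zero => exact h G le_rfl
  | succ m ih =>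
    rw [It_succ, It_succ]
    exact E_mono fun H hH => ih fun H' hH' => h H' ((K_le hH).trans hH')

/-- the indicator of regular graphs -/
noncomputable def ind (d : ℕ) (G : SimpleGraph (Fin n)) : ℝ := if Reg d G then 1 else 0

/-- vertices of deficit exactly `j` -/
noncomputable def Zc (d j : ℕ) (G : SimpleGraph (Fin n)) : ℝ :=
  ∑ w, (if dg G w + j = d then (1 : ℝ) else 0)

lemma U_card (d : ℕ) (G : SimpleGraph (Fin n)) :
    ((U d G).card : ℝ) = ∑ w, (if dg G w < d then (1 : ℝ) else 0) := by
  unfold U
  rw [card_filter]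
  push_cast
  rfl

lemma Zc_star {d t j : ℕ} (hj : 1 ≤ j) {G : SimpleGraph (Fin n)} (h : Inv d t G) (hG : ¬ Reg d G)
    (hmax : ∀ w, d ≤ dg G w + j) {v : Fin n} (hv : v ∈ mins G) (hvj : dg G v + j = d)
    {S : Finset (Fin n)} (hS : S ⊆ cand d G v) (hc : S.card = d - dg G v) :
    Zc d j (star G v S) = Zc d j G - 1 - ∑ w ∈ S, (if dg G w + j = d then (1 : ℝ) else 0) := by
  have hvd := mins_lt h hG hv
  obtain ⟨f1, f2, f3⟩ := sub_facts h hvd hS
  unfold Zc
  rw [sum_star f1 f2 (fun k => if k + j = d then (1 : ℝ) else 0)]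
  have e1 : dg G v + S.card = d := by omega
  rw [e1, if_pos hvj, if_neg (by omega)]
  have e2 : ∑ w ∈ S, ((if dg G w + 1 + j = d then (1 : ℝ) else 0) - if dg G w + j = d then (1 : ℝ) else 0) =
      - ∑ w ∈ S, (if dg G w + j = d then (1 : ℝ) else 0) := by
    rw [← sum_neg_distrib]
    refine sum_congr rfl fun w _ => ?_
    have := hmax w
    rw [if_neg (by omega : ¬ dg G w + 1 + j = d)]
    ring
  rw [e2]
  ring

lemma U_star {d t : ℕ} {G : SimpleGraph (Fin n)} (h : Inv d t G) (hG : ¬ Reg d G)
    {v : Fin n} (hv : v ∈ mins G)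
    {S : Finset (Fin n)} (hS : S ⊆ cand d G v) (hc : S.card = d - dg G v) :
    ((U d (star G v S)).card : ℝ) = (U d G).card - 1 -
      ∑ w ∈ S, (if dg G w + 1 = d then (1 : ℝ) else 0) := by
  have hvd := mins_lt h hG hv
  obtain ⟨f1, f2, f3⟩ := sub_facts h hvd hS
  rw [U_card, U_card]
  rw [sum_star f1 f2 (fun k => if k < d then (1 : ℝ) else 0)]
  have e1 : dg G v + S.card = d := by omega
  rw [e1, if_pos hvd, if_neg (by omega)]
  have e2 : ∑ w ∈ S, ((if dg G w + 1 < d then (1 : ℝ) else 0) - if dg G w < d then (1 : ℝ) else 0) =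
      - ∑ w ∈ S, (if dg G w + 1 = d then (1 : ℝ) else 0) := by
    rw [← sum_neg_distrib]
    refine sum_congr rfl fun w hw => ?_
    have h3 := f3 w hw
    rw [if_pos h3]
    by_cases h4 : dg G w + 1 = d
    · rw [if_neg (by omega), if_pos h4]; ring
    · rw [if_pos (by omega), if_neg h4]; ring
  rw [e2]
  ring

lemma card_cand {d t : ℕ} {G : SimpleGraph (Fin n)} (h : Inv d t G) (hG : ¬ Reg d G)
    {v : Fin n} (hv : v ∈ mins G) : (cand d G v).card = (U d G).card - 1 ∧ 0 < (U d G).card := by
  have hvd := mins_lt h hG hv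
  have hvU : v ∈ U d G := by unfold U; simp [hvd]
  rw [cand_eq h hvd, card_erase_of_mem hvU]
  exact ⟨rfl, card_pos.2 ⟨v, hvU⟩⟩

/-- the sum of the degrees is even -/
lemma even_sum (G : SimpleGraph (Fin n)) : Even (∑ w, dg G w) := by
  have h := G.sum_degrees_eq_twice_card_edges
  have h2 : ∑ w, dg G w = ∑ w, G.degree w := sum_congr rfl fun w _ => (degree_eq G w).symm
  rw [h2, h]
  exact even_two_mul _

lemma Inv_end {d : ℕ} {G : SimpleGraph (Fin n)} (h : Inv d n G) : Reg d G := by
  obtain ⟨P, h1, h2, h3, h4⟩ := h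
  have : P = univ := by
    rw [← card_eq_iff_eq_univ]
    simpa using h1
  intro v
  exact h2 v (this ▸ mem_univ v)

lemma reg_base {d : ℕ} (hdn : Even (d * n)) (m : ℕ) : ∀ (t : ℕ) (G : SimpleGraph (Fin n)), t + m = n →
    Inv d t G → (∀ w, d ≤ dg G w + 1) → 1 ≤ It d m (ind d) G := by
  induction m with
  | zero =>
    intro t G ht hI hw
    have : t = n := by omega
    subst this
    rw [It_zero]
    unfold ind
    rw [if_pos (Inv_end hI)]
  | succ m ih =>
    intro t G ht hI hw
    by_cases hG : Reg d G
    · rw [It_reg hG]; unfold ind; rw [if_pos hG]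
    · have hn : 0 < n := by omega
      rw [It_succ]
      refine le_E hn hG fun v hv => ?_
      have hvd := mins_lt hI hG hv
      obtain ⟨hc1, hc2⟩ := card_cand hI hG hv
      have hpar : Even (U d G).card := by
        have h1 : ∑ w, dg G w + (U d G).card = d * n := by
          unfold U
          rw [card_filter, ← sum_add_distrib]
          have h4 : ∀ w ∈ (univ : Finset (Fin n)), (dg G w + if dg G w < d then 1 else 0) = d := by
            intro w _
            have := hw w
            have h5 : dg G w ≤ d := by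
              obtain ⟨P, h1, h2, h3, h4⟩ := hI
              exact h4 w
            split_ifs with h6 <;> omega
          rw [sum_congr rfl h4, sum_const, card_univ, Fintype.card_fin, smul_eq_mul, mul_comm]
        have h2 := even_sum G
        rw [← h1] at hdn
        exact (Nat.even_add.1 hdn).1 h2
      have hr : d - dg G v = 1 := by have := hw v; omega
      have hle : d - dg G v ≤ (cand d G v).card := by
        rw [hc1, hr]
        obtain ⟨k, hk⟩ := hpar
        omega
      calc (1 : ℝ) = Av (cand d G v) (d - dg G v) (fun _ => 1) := (Av_const hle 1).symm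
        _ ≤ _ := by
          refine Av_mono fun S hS hc => ?_
          refine ih (t + 1) (star G v S) (by omega) (Inv_star hI hG hv hS hc) fun w => ?_
          obtain ⟨f1, f2, f3⟩ := sub_facts hI hvd hS
          by_cases h1 : w = v
          · subst h1
            rw [dg_star_self f1 f2]; omega
          · by_cases h2 : w ∈ S
            · rw [dg_star_mem f1 f2 h2]; have := hw w; omega
            · rw [dg_star_other f1 h1 h2]; exact hw w

/-- the inequality behind the potential -/
lemma pot_ineq {j u Z X κ : ℝ} (hj : 2 ≤ j) (hκ : κ * (j + 1) = 1 / 2) (hZ : 0 ≤ Z) (hZu : Z ≤ u)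
    (hX : X ≤ u - Z) (hu : j + 1 ≤ 23 / 32 * u) (hu1 : 1 < u) :
    Z + (1 + κ) * Z / u + j / (u - 1) * (-(Z - 1) + (1 + κ) * Z / u * X) ≤ Z + 1 := by
  have hu0 : 0 < u := by linarith
  have hu2 : 0 < u - 1 := by linarith
  have hκ0 : 0 ≤ κ := by
    by_contra hc
    push Not at hc
    have : κ * (j + 1) < 0 := mul_neg_of_neg_of_pos hc (by linarith)
    linarith
  have key : (1 + κ) * Z * (u - 1) + j * (-(Z - 1) * u + (1 + κ) * Z * X) ≤ u * (u - 1) := by
    have h1 : (1 + κ) * Z * X ≤ (1 + κ) * Z * (u - Z) :=
      mul_le_mul_of_nonneg_left hX (by positivity)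
    have h2 : j * ((1 + κ) * Z * X) ≤ j * ((1 + κ) * Z * (u - Z)) :=
      mul_le_mul_of_nonneg_left h1 (by linarith)
    have h3 : (1 + κ) * Z * (u - 1) + j * (-(Z - 1) * u + (1 + κ) * Z * (u - Z)) =
        Z * u * (1 + κ * (j + 1)) - (1 + κ) * Z - j * (1 + κ) * Z ^ 2 + j * u := by ring
    have h4 : 0 ≤ (1 + κ) * Z := by positivity
    have h5 : 2 * Z ^ 2 ≤ j * (1 + κ) * Z ^ 2 := by
      have : 2 ≤ j * (1 + κ) := by nlinarith
      nlinarith [sq_nonneg Z]
    have h6 : (1 + κ) * Z * (u - 1) + j * (-(Z - 1) * u + (1 + κ) * Z * (u - Z)) ≤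
        3 / 2 * (Z * u) - 2 * Z ^ 2 + j * u := by
      rw [h3, hκ]; linarith
    have h7 : 3 / 2 * (Z * u) - 2 * Z ^ 2 ≤ 9 / 32 * u ^ 2 := by nlinarith [sq_nonneg (Z - 3 / 8 * u)]
    have h8 : (j + 1) * u ≤ 23 / 32 * u * u := mul_le_mul_of_nonneg_right hu hu0.le
    nlinarith
  have e : Z + (1 + κ) * Z / u + j / (u - 1) * (-(Z - 1) + (1 + κ) * Z / u * X) =
      Z + ((1 + κ) * Z * (u - 1) + j * (-(Z - 1) * u + (1 + κ) * Z * X)) / (u * (u - 1)) := by
    field_simp
    ring
  rw [e]
  have : ((1 + κ) * Z * (u - 1) + j * (-(Z - 1) * u + (1 + κ) * Z * X)) / (u * (u - 1)) ≤ 1 := by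
    rw [div_le_one (by positivity)]
    exact key
  linarith

/-- growth of the potential -/
lemma psi_ineq {γ c u h : ℝ} (hγ0 : 1 ≤ γ) (hγ : γ ≤ 2) (hc : 0 < c) (hh : 0 ≤ h) (hu : 0 < u)
    (h1 : 3 * h < u) (h2 : γ / c ≤ 1 - 3 * (h / u)) :
    (u - h) ^ (-γ) ≤ u ^ (-γ) * (1 + c * h / u) := by
  set x : ℝ := h / u with hx
  have hx0 : 0 ≤ x := by positivity
  have hx1 : 3 * x < 1 := by
    rw [hx, ← mul_div_assoc, div_lt_one hu]; exact h1
  have e1 : u - h = u * (1 - x) := by rw [hx]; field_simp
  have h1x : 0 < 1 - x := by linarith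
  rw [e1, Real.mul_rpow hu.le h1x.le]
  apply mul_le_mul_of_nonneg_left _ (Real.rpow_nonneg hu.le _)
  have e2 : c * h / u = c * x := by rw [hx]; ring
  rw [e2]
  have h3 : (1 - x) ^ (-γ) ≤ Real.exp (γ * (x / (1 - x))) := by
    rw [Real.rpow_def_of_pos h1x]
    apply Real.exp_le_exp.2
    have h4 : -(x / (1 - x)) ≤ Real.log (1 - x) := by
      have := Real.one_sub_inv_le_log_of_pos h1x
      have e : 1 - (1 - x)⁻¹ = -(x / (1 - x)) := by field_simp; ring
      linarith
    nlinarith
  refine h3.trans ?_
  have h5 : γ * (x / (1 - x)) < 1 := by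
    rw [← mul_div_assoc, div_lt_one h1x]
    nlinarith
  have h6 : Real.exp (γ * (x / (1 - x))) ≤ 1 / (1 - γ * (x / (1 - x))) := by
    rw [le_div_iff₀ (by linarith)]
    have h7 := Real.add_one_le_exp (-(γ * (x / (1 - x))))
    have h8 : Real.exp (γ * (x / (1 - x))) * Real.exp (-(γ * (x / (1 - x)))) = 1 := by
      rw [← Real.exp_add]; simp
    have h9 := Real.exp_pos (γ * (x / (1 - x)))
    nlinarith
  refine h6.trans ?_
  have h10 : 0 < 1 - (1 + γ) * x := by nlinarith
  have e3 : 1 / (1 - γ * (x / (1 - x))) = (1 - x) / (1 - (1 + γ) * x) := by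
    rw [div_eq_div_iff (by linarith) h10.ne']
    field_simp
    ring
  rw [e3, div_le_iff₀ h10]
  have h11 : γ ≤ c * (1 - 3 * x) := by
    rw [div_le_iff₀ hc] at h2
    linarith
  have h12 : γ ≤ c * (1 - (1 + γ) * x) := by
    refine h11.trans (mul_le_mul_of_nonneg_left ?_ hc.le)
    nlinarith
  nlinarith

/-- **Induction on the largest deficit.** -/
theorem reg_ind (d j : ℕ) : ∀ ε : ℝ, 0 < ε → ∃ k0 : ℕ, ∀ n : ℕ, Even (d * n) → ∀ (m t : ℕ)
    (G : SimpleGraph (Fin n)), t + m = n → Inv d t G → (∀ w, d ≤ dg G w + (j + 1)) →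
    k0 ≤ (U d G).card → 1 - ε ≤ It d m (ind d) G := by
  induction j with
  | zero =>
    intro ε hε
    refine ⟨0, fun n hn m t G ht hI hw _ => ?_⟩
    have := reg_base hn m t G ht hI hw
    linarith
  | succ i IH =>
    intro ε hε
    obtain ⟨k1, hk1⟩ := IH (ε / 2) (by positivity)
    set j : ℕ := i + 1 + 1 with hj
    have hj2 : (2 : ℝ) ≤ j := by rw [hj]; push_cast; linarith [(Nat.cast_nonneg i : (0 : ℝ) ≤ i)]
    set κ : ℝ := 1 / (2 * ((j : ℝ) + 1)) with hκ
    have hκ0 : 0 < κ := by rw [hκ]; positivity
    have hκ1 : κ * ((j : ℝ) + 1) = 1 / 2 := by rw [hκ]; field_simp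
    have hκ2 : κ ≤ 1 := by nlinarith
    set γ : ℝ := 1 + κ / 2 with hγ
    set c : ℝ := 1 + κ with hc
    have hγc : γ / c < 1 := by rw [div_lt_one (by linarith)]; linarith
    -- choice of the threshold
    obtain ⟨k2, hk2⟩ : ∃ k2 : ℕ, max (max ((k1 : ℝ)) ((j : ℝ) + 2)) (max (32 / 23 * ((j : ℝ) + 1))
        (max (3 * ((j : ℝ) + 1) + 1) (3 * ((j : ℝ) + 1) / (1 - γ / c)))) ≤ k2 := exists_nat_ge _
    simp only [max_le_iff] at hk2
    obtain ⟨⟨a1, a2⟩, a3, a4, a5⟩ := hk2
    have hk20 : (0 : ℝ) < k2 := by linarith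
    -- the main estimate
    have main : ∀ n : ℕ, Even (d * n) → ∀ (m t : ℕ) (G : SimpleGraph (Fin n)), t + m = n →
        Inv d t G → (∀ w, d ≤ dg G w + j) →
        1 - ε / 2 - (k2 : ℝ) ^ γ * ((Zc d j G + 1) * ((U d G).card : ℝ) ^ (-γ)) ≤ It d m (ind d) G := by
      intro n hn m
      have hZ0 : ∀ G : SimpleGraph (Fin n), 0 ≤ Zc d j G := by
        intro G
        unfold Zc
        refine sum_nonneg fun w _ => ?_
        split_ifs <;> norm_num
      have hpot0 : ∀ G : SimpleGraph (Fin n),
          0 ≤ (k2 : ℝ) ^ γ * ((Zc d j G + 1) * ((U d G).card : ℝ) ^ (-γ)) := by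
        intro G
        have := hZ0 G
        have h1 : (0 : ℝ) ≤ (k2 : ℝ) ^ γ := Real.rpow_nonneg hk20.le _
        have h2 : (0 : ℝ) ≤ ((U d G).card : ℝ) ^ (-γ) := Real.rpow_nonneg (Nat.cast_nonneg _) _
        positivity
      induction m with
      | zero =>
        intro t G ht hI hw
        have : t = n := by omega
        subst this
        rw [It_zero]
        unfold ind
        rw [if_pos (Inv_end hI)]
        have := hpot0 G
        linarith
      | succ m ih =>
        intro t G ht hI hw
        by_cases hG : Reg d G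
        · rw [It_reg hG]; unfold ind; rw [if_pos hG]
          have := hpot0 G
          linarith
        have hn0 : 0 < n := by omega
        -- u > 0
        obtain ⟨v0, hv0⟩ := mins_nonempty hn0 G
        obtain ⟨-, hupos⟩ := card_cand hI hG hv0
        have hupos' : (0 : ℝ) < (U d G).card := by exact_mod_cast hupos
        have hItnn : 0 ≤ It d (m + 1) (ind d) G := by
          have h1 : It d (m + 1) (fun _ => (0 : ℝ)) G ≤ It d (m + 1) (ind d) G := by
            apply It_mono
            intro H _
            unfold ind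
            split_ifs <;> norm_num
          have h2 : ∀ k, It d k (fun _ : SimpleGraph (Fin n) => (0 : ℝ)) = fun _ => 0 := by
            intro k
            induction k with
            | zero => rfl
            | succ k ihk =>
              rw [It_succ, ihk]
              funext H
              unfold E
              simp
          rw [h2] at h1
          exact h1
        by_cases hsmall : (U d G).card ≤ k2
        · have h1 : (1 : ℝ) ≤ (k2 : ℝ) ^ γ * ((Zc d j G + 1) * ((U d G).card : ℝ) ^ (-γ)) := by
            have h2 : ((U d G).card : ℝ) ^ γ ≤ (k2 : ℝ) ^ γ :=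
              Real.rpow_le_rpow hupos'.le (by exact_mod_cast hsmall) (by linarith)
            have h3 : ((U d G).card : ℝ) ^ γ * ((U d G).card : ℝ) ^ (-γ) = 1 := by
              rw [← Real.rpow_add hupos']; simp
            have h4 : (0 : ℝ) < ((U d G).card : ℝ) ^ (-γ) := Real.rpow_pos_of_pos hupos' _
            have h5 := hZ0 G
            calc (1 : ℝ) = ((U d G).card : ℝ) ^ γ * ((U d G).card : ℝ) ^ (-γ) := h3.symm
              _ ≤ (k2 : ℝ) ^ γ * ((U d G).card : ℝ) ^ (-γ) := mul_le_mul_of_nonneg_right h2 h4.le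
              _ ≤ (k2 : ℝ) ^ γ * ((Zc d j G + 1) * ((U d G).card : ℝ) ^ (-γ)) := by
                apply mul_le_mul_of_nonneg_left _ (Real.rpow_nonneg hk20.le _)
                nlinarith
          linarith
        push Not at hsmall
        have hbig : (k2 : ℝ) < (U d G).card := by exact_mod_cast hsmall
        by_cases hZ : ∃ w, dg G w + j = d
        swap
        · push Not at hZ
          have h1 := hk1 n hn (m + 1) t G ht hI (fun w => by
            have := hw w
            have := hZ w
            omega) (by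
            have : (k1 : ℝ) ≤ (U d G).card := by linarith
            exact_mod_cast this)
          have := hpot0 G
          linarith
        obtain ⟨w0, hw0⟩ := hZ
        rw [It_succ]
        refine le_E hn0 hG fun v hv => ?_
        have hvd := mins_lt hI hG hv
        obtain ⟨hc1, hc2⟩ := card_cand hI hG hv
        have hvj : dg G v + j = d := by
          have h1 := (mem_filter.1 hv).2 w0
          have h2 := hw v
          omega
        have hdj : d - dg G v = j := by omega
        have hjle : j ≤ (cand d G v).card := by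
          rw [hc1]
          have : ((j : ℝ) + 2) < (U d G).card := by linarith
          have h3 : j + 2 < (U d G).card := by exact_mod_cast this
          omega
        rw [hdj]
        set u : ℝ := ((U d G).card : ℝ) with hu
        set Z : ℝ := Zc d j G with hZdef
        have hcard : (((cand d G v).card : ℕ) : ℝ) = u - 1 := by
          rw [hc1, Nat.cast_sub hc2, hu]; simp
        -- the linear function
        set f : Fin n → ℝ := fun w => (if dg G w + j = d then (1 : ℝ) else 0) * (-1) +
          (c * Z / u) * (if dg G w + 1 = d then (1 : ℝ) else 0) with hf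
        have hM0 : (0 : ℝ) ≤ (k2 : ℝ) ^ γ := Real.rpow_nonneg hk20.le _
        have hψ0 : (0 : ℝ) ≤ u ^ (-γ) := Real.rpow_nonneg hupos'.le _
        have hstep : ∀ S, S ⊆ cand d G v → S.card = j →
            1 - ε / 2 - (k2 : ℝ) ^ γ * (u ^ (-γ) * (Z + c * Z / u)) +
              ∑ w ∈ S, (-((k2 : ℝ) ^ γ * u ^ (-γ)) * f w) ≤ It d m (ind d) (star G v S) := by
          intro S hS hSc
          have hSc' : S.card = d - dg G v := by omega
          obtain ⟨f1, f2, f3⟩ := sub_facts hI hvd hS
          have h1 := ih (t + 1) (star G v S) (by omega) (Inv_star hI hG hv hS hSc') (fun w => by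
            by_cases h1 : w = v
            · subst h1
              rw [dg_star_self f1 f2]; omega
            · by_cases h2 : w ∈ S
              · rw [dg_star_mem f1 f2 h2]; have := hw w; omega
              · rw [dg_star_other f1 h1 h2]; exact hw w)
          refine le_trans ?_ h1
          rw [Zc_star (by omega) hI hG hw hv hvj hS hSc', U_star hI hG hv hS hSc']
          set z : ℝ := ∑ w ∈ S, (if dg G w + j = d then (1 : ℝ) else 0) with hz
          set x : ℝ := ∑ w ∈ S, (if dg G w + 1 = d then (1 : ℝ) else 0) with hx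
          rw [← hZdef, ← hu]
          have hx0 : 0 ≤ x := sum_nonneg fun w _ => by split_ifs <;> norm_num
          have hz0 : 0 ≤ z := sum_nonneg fun w _ => by split_ifs <;> norm_num
          have hxj : x ≤ j := by
            have h2 : x ≤ ∑ w ∈ S, (1 : ℝ) := sum_le_sum fun w _ => by split_ifs <;> norm_num
            rw [sum_const, hSc] at h2
            simpa using h2
          have hzZ : z ≤ Z := by
            rw [hz, hZdef]
            unfold Zc
            exact sum_le_sum_of_subset_of_nonneg (subset_univ _) fun w _ _ => by split_ifs <;> norm_num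
          have hfs : ∑ w ∈ S, (-((k2 : ℝ) ^ γ * u ^ (-γ)) * f w) =
              -((k2 : ℝ) ^ γ * u ^ (-γ)) * (-z + c * Z / u * x) := by
            rw [← mul_sum, hf]
            simp only [sum_add_distrib, ← mul_sum, ← sum_mul]
            rw [← hz, ← hx]
            ring
          rw [hfs]
          have hψ := psi_ineq (γ := γ) (c := c) (u := u) (h := 1 + x) (by linarith) (by linarith)
            (by linarith) (by linarith) hupos' (by nlinarith) (by
              have h3 : 1 + x ≤ (j : ℝ) + 1 := by linarith
              have h4 : 3 * ((j : ℝ) + 1) / (1 - γ / c) < u := by linarith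
              rw [div_lt_iff₀ (by linarith)] at h4
              have h5 : 3 * ((1 + x) / u) ≤ 1 - γ / c := by
                rw [← mul_div_assoc, div_le_iff₀ hupos']
                nlinarith
              linarith)
          have e1 : u - 1 - x = u - (1 + x) := by ring
          rw [e1]
          have h6 : (Z - 1 - z + 1) * (u - (1 + x)) ^ (-γ) ≤
              (Z - z) * (u ^ (-γ) * (1 + c * (1 + x) / u)) := by
            have : Z - 1 - z + 1 = Z - z := by ring
            rw [this]
            exact mul_le_mul_of_nonneg_left hψ (by linarith)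
          have h7 : (Z - z) * (u ^ (-γ) * (1 + c * (1 + x) / u)) ≤
              u ^ (-γ) * (Z + c * Z / u + (-z + c * Z / u * x)) := by
            have h8 : (Z - z) * (1 + c * (1 + x) / u) ≤ Z + c * Z / u + (-z + c * Z / u * x) := by
              have h9 : 0 ≤ z * (c * (1 + x) / u) := by positivity
              have h10 : (Z - z) * (1 + c * (1 + x) / u) = Z + c * Z / u + (-z + c * Z / u * x) -
                z * (c * (1 + x) / u) := by ring
              linarith
            calc (Z - z) * (u ^ (-γ) * (1 + c * (1 + x) / u)) =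
                u ^ (-γ) * ((Z - z) * (1 + c * (1 + x) / u)) := by ring
              _ ≤ _ := mul_le_mul_of_nonneg_left h8 hψ0
          have h8 := mul_le_mul_of_nonneg_left (h6.trans h7) hM0
          linarith
        refine le_trans ?_ (Av_mono hstep)
        rw [Av_lin hjle, hcard]
        -- sums over the candidates
        have hsumC : ∑ w ∈ cand d G v, (-((k2 : ℝ) ^ γ * u ^ (-γ)) * f w) =
            -((k2 : ℝ) ^ γ * u ^ (-γ)) * (-(Z - 1) + c * Z / u *
              ∑ w ∈ cand d G v, (if dg G w + 1 = d then (1 : ℝ) else 0)) := by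
          rw [← mul_sum, hf]
          simp only [sum_add_distrib, ← mul_sum, ← sum_mul]
          have h1 : ∑ w ∈ cand d G v, (if dg G w + j = d then (1 : ℝ) else 0) = Z - 1 := by
            rw [cand_eq hI hvd, hZdef]
            unfold Zc
            have hvU : v ∈ U d G := by unfold U; simp [hvd]
            have h2 : ∑ w, (if dg G w + j = d then (1 : ℝ) else 0) =
                ∑ w ∈ U d G, (if dg G w + j = d then (1 : ℝ) else 0) := by
              symm
              apply sum_subset (subset_univ _)
              intro w _ hw'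
              unfold U at hw'
              simp only [mem_filter, mem_univ, true_and, not_lt] at hw'
              rw [if_neg (by omega)]
            rw [h2, ← add_sum_erase _ _ hvU, if_pos hvj]
            ring
          rw [h1]
          ring
        rw [hsumC]
        set X : ℝ := ∑ w ∈ cand d G v, (if dg G w + 1 = d then (1 : ℝ) else 0) with hX
        have hXle : X ≤ u - Z := by
          have h1 : X + Z ≤ u := by
            have h2 : X ≤ ∑ w, (if dg G w + 1 = d then (1 : ℝ) else 0) :=
              sum_le_sum_of_subset_of_nonneg (subset_univ _) fun w _ _ => by split_ifs <;> norm_num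
            have h3 : ∑ w, (if dg G w + 1 = d then (1 : ℝ) else 0) + Z ≤ u := by
              rw [hZdef, hu, U_card]
              unfold Zc
              rw [← sum_add_distrib]
              refine sum_le_sum fun w _ => ?_
              by_cases h4 : dg G w + 1 = d
              · rw [if_pos h4, if_neg (by omega), if_pos (by omega)]; norm_num
              · by_cases h5 : dg G w + j = d
                · rw [if_neg h4, if_pos h5, if_pos (by omega)]; norm_num
                · rw [if_neg h4, if_neg h5]; split_ifs <;> norm_num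
            linarith
          linarith
        have hZ0' := hZ0 G
        rw [← hZdef] at hZ0'
        have hX0 : 0 ≤ X := sum_nonneg fun w _ => by split_ifs <;> norm_num
        have hp := pot_ineq hj2 hκ1 hZ0' (by linarith) hXle (by linarith) (by linarith : (1 : ℝ) < u)
        rw [← hc] at hp
        have h9 := mul_le_mul_of_nonneg_left (mul_le_mul_of_nonneg_left hp hψ0) hM0
        have h10 : 1 - ε / 2 - (k2 : ℝ) ^ γ * (u ^ (-γ) * (Z + c * Z / u)) +
            (j : ℝ) / (u - 1) * (-((k2 : ℝ) ^ γ * u ^ (-γ)) * (-(Z - 1) + c * Z / u * X)) =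
            1 - ε / 2 - (k2 : ℝ) ^ γ * (u ^ (-γ) * (Z + c * Z / u + (j : ℝ) / (u - 1) *
              (-(Z - 1) + c * Z / u * X))) := by ring
        rw [h10]
        have h11 : (Z + 1) * u ^ (-γ) = u ^ (-γ) * (Z + 1) := by ring
        rw [h11]
        linarith
    -- the final choice
    have hlim : Filter.Tendsto (fun x : ℝ => (k2 : ℝ) ^ γ * (2 * x ^ (-(κ / 2)))) Filter.atTop (nhds 0) := by
      have h1 := tendsto_rpow_neg_atTop (y := κ / 2) (by linarith)
      have h2 := (h1.const_mul 2).const_mul ((k2 : ℝ) ^ γ)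
      simpa using h2
    have hev := (hlim.eventually (gt_mem_nhds (show (0 : ℝ) < ε / 2 by linarith))).and
      (Filter.eventually_ge_atTop 1)
    obtain ⟨x0, hx0⟩ := Filter.eventually_atTop.1 hev
    obtain ⟨k3, hk3⟩ := exists_nat_ge x0
    refine ⟨k3, fun n hn m t G ht hI hw hU => ?_⟩
    have h1 := main n hn m t G ht hI hw
    have hUx : x0 ≤ ((U d G).card : ℝ) := hk3.trans (by exact_mod_cast hU)
    obtain ⟨h2, h3⟩ := hx0 _ hUx
    have hup : (0 : ℝ) < (U d G).card := by linarith
    have h4 : Zc d j G ≤ (U d G).card := by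
      rw [U_card]
      unfold Zc
      refine sum_le_sum fun w _ => ?_
      by_cases h5 : dg G w + j = d
      · rw [if_pos h5, if_pos (by omega)]
      · rw [if_neg h5]; split_ifs <;> norm_num
    have h5 : (Zc d j G + 1) * ((U d G).card : ℝ) ^ (-γ) ≤ 2 * ((U d G).card : ℝ) ^ (-(κ / 2)) := by
      have h6 : ((U d G).card : ℝ) * ((U d G).card : ℝ) ^ (-γ) = ((U d G).card : ℝ) ^ (-(κ / 2)) := by
        have : -(κ / 2) = 1 + -γ := by rw [hγ]; ring
        rw [this, Real.rpow_add hup, Real.rpow_one]
      have h7 : (0 : ℝ) ≤ ((U d G).card : ℝ) ^ (-γ) := Real.rpow_nonneg hup.le _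
      rw [← h6]
      nlinarith
    have h6 := mul_le_mul_of_nonneg_left h5 (Real.rpow_nonneg hk20.le γ)
    linarith

/-- **The process started at a state with many unsaturated vertices ends in a regular graph with
probability at least `1/2`.** -/
theorem reg_half (d : ℕ) : ∃ k0 : ℕ, ∀ n : ℕ, Even (d * n) → ∀ (m t : ℕ)
    (G : SimpleGraph (Fin n)), t + m = n → Inv d t G → k0 ≤ (U d G).card →
    1 / 2 ≤ It d m (ind d) G := by
  obtain ⟨k0, hk0⟩ := reg_ind d d (1 / 2) (by norm_num)
  refine ⟨k0, fun n hn m t G ht hI hU => ?_⟩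
  have := hk0 n hn m t G ht hI (fun w => by omega) hU
  linarith

end Pool.Agent.T2H64.Star
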