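import Pool.Agent.T2H64.Star.Count

/-!
# Edge distribution of random regular graphs
-/

set_option autoImplicit false
set_option linter.unusedVariables false
set_option linter.unusedSimpArgs false

open Finset Filter Topology
open scoped Classical

namespace Pool.Agent.T2H64.Star

variable {n : ℕ}

/-- all regular graphs -/
noncomputable def RG (d n : ℕ) : Finset (SimpleGraph (Fin n)) := univ.filter (fun G => Reg d G)

lemma chain {d : ℕ} (hd : 0 < d) (B : Finset (Fin n)) (hb : 0 < B.card) (hbn : B.card < n)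
    {Λ : ℝ} (hD : 2 * (2 * (d : ℝ) + 2 * (d * d)) ≤ Λ) (k : ℕ)
    (hk : (k : ℝ) < d * (B.card : ℝ) ^ 2 / n - Λ) (m : ℕ) (hm : (m : ℝ) ≤ Λ / 4) :
    ((GG d B k).card : ℝ) ≤ Real.exp (-(m * (Λ / (2 * (d * (B.card : ℝ) ^ 2 / n))))) *
      ((GG d B (k + 2 * m)).card : ℝ) := by
  set μ : ℝ := d * (B.card : ℝ) ^ 2 / n with hμ
  have hn : (0 : ℝ) < n := by exact_mod_cast (lt_of_le_of_lt (Nat.zero_le _) hbn)
  have hb' : (0 : ℝ) < B.card := by exact_mod_cast hb
  have hd' : (0 : ℝ) < d := by exact_mod_cast hd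
  have hμ0 : 0 < μ := by positivity
  have hΛ0 : 0 ≤ Λ := by
    have : 0 ≤ 2 * (2 * (d : ℝ) + 2 * (d * d)) := by positivity
    linarith
  induction m with
  | zero => simp
  | succ m ih =>
    have hm' : (m : ℝ) + 1 ≤ Λ / 4 := by push_cast at hm; exact hm
    have h1 := ih (by linarith)
    set l : ℝ := μ - ((k + 2 * m : ℕ) : ℝ) - 2 with hl
    have hl2 : Λ / 2 ≤ l := by
      rw [hl]; push_cast; linarith
    have h2 := ratio_real (d := d) B (k + 2 * m) (l := l) hb hbn hd
      (by rw [← hμ, hl]; ring) (by linarith)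
    rw [← hμ] at h2
    have h3 : 1 - l / μ ≤ Real.exp (-(Λ / (2 * μ))) := by
      have h4 : -(l / μ) ≤ -(Λ / (2 * μ)) := by
        have : Λ / (2 * μ) = Λ / 2 / μ := by field_simp
        rw [this]
        have := div_le_div_of_nonneg_right hl2 hμ0.le
        linarith
      calc 1 - l / μ = -(l / μ) + 1 := by ring
        _ ≤ Real.exp (-(l / μ)) := Real.add_one_le_exp _
        _ ≤ _ := Real.exp_le_exp.2 h4
    calc ((GG d B k).card : ℝ) ≤ Real.exp (-(m * (Λ / (2 * μ)))) *
        ((GG d B (k + 2 * m)).card : ℝ) := h1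
      _ ≤ Real.exp (-(m * (Λ / (2 * μ)))) *
        (Real.exp (-(Λ / (2 * μ))) * ((GG d B (k + 2 * m + 2)).card : ℝ)) := by
          apply mul_le_mul_of_nonneg_left _ (Real.exp_pos _).le
          exact h2.trans (mul_le_mul_of_nonneg_right h3 (Nat.cast_nonneg _))
      _ = Real.exp (-(((m + 1 : ℕ) : ℝ) * (Λ / (2 * μ)))) *
          ((GG d B (k + 2 * (m + 1))).card : ℝ) := by
          rw [← mul_assoc, ← Real.exp_add]
          congr 2
          push_cast
          ring

lemma GG_le (d : ℕ) (B : Finset (Fin n)) (k : ℕ) : (GG d B k).card ≤ (RG d n).card :=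
  card_le_card fun G hG => mem_filter.2 ⟨mem_univ _, (mem_filter.1 hG).2.1⟩

lemma tail_B {d : ℕ} (hd : 0 < d) (B : Finset (Fin n)) (hb : 0 < B.card) (hbn : B.card < n)
    {Λ : ℝ} (hD : 2 * (2 * (d : ℝ) + 2 * (d * d)) ≤ Λ) (h8 : 8 ≤ Λ) :
    (((RG d n).filter (fun G => (ee B B G : ℝ) < d * (B.card : ℝ) ^ 2 / n - Λ)).card : ℝ) ≤
      (d * n + 1) * (Real.exp (-(Λ ^ 2 / (16 * (d * (B.card : ℝ) ^ 2 / n)))) * (RG d n).card) := by
  set μ : ℝ := d * (B.card : ℝ) ^ 2 / n with hμ
  have hn : (0 : ℝ) < n := by exact_mod_cast (lt_of_le_of_lt (Nat.zero_le _) hbn)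
  have hb' : (0 : ℝ) < B.card := by exact_mod_cast hb
  have hd' : (0 : ℝ) < d := by exact_mod_cast hd
  have hμ0 : 0 < μ := by positivity
  have h1 : (RG d n).filter (fun G => (ee B B G : ℝ) < μ - Λ) ⊆
      ((range (d * n + 1)).filter (fun k : ℕ => (k : ℝ) < μ - Λ)).biUnion (fun k => GG d B k) := by
    intro G hG
    have h2 := mem_filter.1 hG
    have h3 := (mem_filter.1 h2.1).2
    rw [mem_biUnion]
    refine ⟨ee B B G, ?_, mem_filter.2 ⟨mem_univ _, h3, rfl⟩⟩
    rw [mem_filter, mem_range]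
    refine ⟨?_, h2.2⟩
    have h4 := ee_compl h3 B
    have h5 : d * B.card ≤ d * n := Nat.mul_le_mul_left _ hbn.le
    omega
  have h2 : (((RG d n).filter (fun G => (ee B B G : ℝ) < μ - Λ)).card : ℝ) ≤
      ∑ k ∈ (range (d * n + 1)).filter (fun k : ℕ => (k : ℝ) < μ - Λ), ((GG d B k).card : ℝ) := by
    have := (card_le_card h1).trans card_biUnion_le
    exact_mod_cast this
  refine h2.trans ?_
  have h3 : ∀ k ∈ (range (d * n + 1)).filter (fun k : ℕ => (k : ℝ) < μ - Λ),
      ((GG d B k).card : ℝ) ≤ Real.exp (-(Λ ^ 2 / (16 * μ))) * (RG d n).card := by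
    intro k hk
    have hk' := (mem_filter.1 hk).2
    have h4 := chain hd B hb hbn hD k hk' ⌊Λ / 4⌋₊ (Nat.floor_le (by linarith))
    refine h4.trans ?_
    have h5 : Λ / 8 ≤ (⌊Λ / 4⌋₊ : ℝ) := by
      have := Nat.lt_floor_add_one (Λ / 4)
      linarith
    apply mul_le_mul
    · apply Real.exp_le_exp.2
      rw [← hμ]
      have : Λ ^ 2 / (16 * μ) = Λ / 8 * (Λ / (2 * μ)) := by field_simp; ring
      rw [this]
      have h6 : 0 ≤ Λ / (2 * μ) := by
        have : 0 ≤ Λ := by linarith
        positivity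
      have := mul_le_mul_of_nonneg_right h5 h6
      linarith
    · exact_mod_cast GG_le d B _
    · exact Nat.cast_nonneg _
    · exact (Real.exp_pos _).le
  refine (sum_le_card_nsmul _ _ _ h3).trans ?_
  rw [nsmul_eq_mul]
  apply mul_le_mul_of_nonneg_right _ (by positivity)
  have := card_filter_le (range (d * n + 1)) (fun k : ℕ => (k : ℝ) < μ - Λ)
  rw [card_range] at this
  exact_mod_cast this

lemma choose_le (n b : ℕ) (hb : 0 < b) (hbn : b ≤ n) :
    (n.choose b : ℝ) ≤ Real.exp (2 * √((n : ℝ) * b)) := by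
  have hb' : (0 : ℝ) < b := by exact_mod_cast hb
  have hn' : (0 : ℝ) < n := by exact_mod_cast (lt_of_lt_of_le hb hbn)
  have h1 : (n.choose b : ℝ) ≤ (n : ℝ) ^ b / (b.factorial : ℝ) := Nat.choose_le_pow_div b n
  have h2 := Real.pow_div_factorial_le_exp (b : ℝ) hb'.le b
  have h3 : (n : ℝ) ^ b / (b.factorial : ℝ) = ((n : ℝ) / b) ^ b * ((b : ℝ) ^ b / (b.factorial : ℝ)) := by
    rw [div_pow]
    have : (b : ℝ) ^ b ≠ 0 := by positivity
    field_simp
  have h4 : (n : ℝ) / b ≤ Real.exp (2 * (√((n : ℝ) / b) - 1)) := by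
    have h5 : √((n : ℝ) / b) ≤ Real.exp (√((n : ℝ) / b) - 1) := by
      have := Real.add_one_le_exp (√((n : ℝ) / b) - 1)
      linarith
    calc (n : ℝ) / b = √((n : ℝ) / b) * √((n : ℝ) / b) := (Real.mul_self_sqrt (by positivity)).symm
      _ ≤ Real.exp (√((n : ℝ) / b) - 1) * Real.exp (√((n : ℝ) / b) - 1) :=
        mul_self_le_mul_self (Real.sqrt_nonneg _) h5
      _ = Real.exp (2 * (√((n : ℝ) / b) - 1)) := by rw [← Real.exp_add]; ring_nf
  have h5 : (b : ℝ) * √((n : ℝ) / b) = √((n : ℝ) * b) := by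
    have e1 : (n : ℝ) * b = (b : ℝ) ^ 2 * ((n : ℝ) / b) := by field_simp
    rw [e1, Real.sqrt_mul (by positivity), Real.sqrt_sq hb'.le]
  calc (n.choose b : ℝ) ≤ ((n : ℝ) / b) ^ b * ((b : ℝ) ^ b / (b.factorial : ℝ)) := by
        rw [← h3]; exact h1
    _ ≤ (Real.exp (2 * (√((n : ℝ) / b) - 1))) ^ b * Real.exp b := by
        gcongr
    _ = Real.exp (b * (2 * (√((n : ℝ) / b) - 1)) + b) := by
        rw [← Real.exp_nat_mul, ← Real.exp_add]
    _ ≤ Real.exp (2 * √((n : ℝ) * b)) := by
        apply Real.exp_le_exp.2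
        rw [← h5]
        nlinarith

/-- the pseudo-random property -/
def PR (d : ℕ) (H : SimpleGraph (Fin n)) : Prop :=
  ∀ B : Finset (Fin n), 2 * B.card ≤ n →
    d * (B.card : ℝ) ^ 2 / n - 7 * √d * B.card * √√((B.card : ℝ) / n) ≤ ee B B H

/-- **Random regular graphs are pseudo-random.** -/
theorem unif (d : ℕ) (hd : 0 < d) :
    Tendsto (fun n : ℕ => (((RG d n).filter (fun H => ¬ PR d H)).card : ℝ) / ((RG d n).card : ℝ))
      atTop (𝓝 0) := by
  have hd' : (0 : ℝ) < d := by exact_mod_cast hd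
  have hlim : Tendsto (fun n : ℕ => ((n : ℝ) + 1) * (d * n + 1) * Real.exp (-√(n : ℝ))) atTop (𝓝 0) := by
    have h1 : Tendsto (fun x : ℝ => (x ^ 2 + 1) * (d * x ^ 2 + 1) * Real.exp (-x)) atTop (𝓝 0) := by
      have e : ∀ x : ℝ, (x ^ 2 + 1) * (d * x ^ 2 + 1) * Real.exp (-x) =
          d * (x ^ 4 * Real.exp (-x)) + (d + 1) * (x ^ 2 * Real.exp (-x)) + Real.exp (-x) := by
        intro x; ring
      simp only [e]
      have h4 := Real.tendsto_pow_mul_exp_neg_atTop_nhds_zero 4
      have h2 := Real.tendsto_pow_mul_exp_neg_atTop_nhds_zero 2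
      have h0 := Real.tendsto_exp_neg_atTop_nhds_zero
      have := ((h4.const_mul (d : ℝ)).add (h2.const_mul ((d : ℝ) + 1))).add h0
      simpa using this
    have h2 := h1.comp (Real.tendsto_sqrt_atTop.comp tendsto_natCast_atTop_atTop)
    refine h2.congr fun n => ?_
    simp only [Function.comp]
    rw [Real.sq_sqrt (Nat.cast_nonneg n)]
  refine squeeze_zero' (Eventually.of_forall fun n => by positivity) ?_ hlim
  -- for large n
  have hbig : Tendsto (fun n : ℕ => 7 * √(d : ℝ) * (49 / d) ^ 2 * (n : ℝ)) atTop atTop := by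
    apply Tendsto.const_mul_atTop _ tendsto_natCast_atTop_atTop
    positivity
  filter_upwards [hbig.eventually_ge_atTop 8,
    hbig.eventually_ge_atTop (2 * (2 * (d : ℝ) + 2 * (d * d))), eventually_ge_atTop 1] with n h8 hD hn
  have hn' : (0 : ℝ) < n := by exact_mod_cast hn
  -- the bound for one set
  have hone : ∀ B : Finset (Fin n), 0 < B.card → 2 * B.card ≤ n →
      (((RG d n).filter (fun G => (ee B B G : ℝ) <
        d * (B.card : ℝ) ^ 2 / n - 7 * √d * B.card * √√((B.card : ℝ) / n))).card : ℝ) ≤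
      (d * n + 1) * (Real.exp (-(3 * √((n : ℝ) * B.card))) * (RG d n).card) := by
    intro B hb hb2
    set b : ℝ := (B.card : ℝ) with hbdef
    have hb' : 0 < b := by rw [hbdef]; exact_mod_cast hb
    have hbn : B.card < n := by omega
    set Λ : ℝ := 7 * √d * b * √√(b / n) with hΛ
    have hr : 0 < b / n := by positivity
    have hr1 : b / n ≤ 1 := by
      rw [div_le_one hn', hbdef]; exact_mod_cast hbn.le
    have hs1 : b / n ≤ √(b / n) := by
      have h1 : √(b / n) ≤ 1 := (Real.sqrt_le_left (by norm_num)).2 (by simpa using hr1)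
      have h2 := Real.mul_self_sqrt hr.le
      nlinarith [Real.sqrt_nonneg (b / n)]
    have hs2 : √(b / n) ≤ √√(b / n) := Real.sqrt_le_sqrt hs1
    by_cases hneg : d * b ^ 2 / n - Λ ≤ 0
    · have : (RG d n).filter (fun G => (ee B B G : ℝ) < d * b ^ 2 / n - Λ) = ∅ := by
        rw [filter_eq_empty_iff]
        intro G _ hc
        have : (0 : ℝ) ≤ ee B B G := Nat.cast_nonneg _
        linarith
      rw [this]
      simp only [card_empty, Nat.cast_zero]
      positivity
    · push Not at hneg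
      have hsd : 0 < √(d : ℝ) := Real.sqrt_pos.2 hd'
      have hsd2 : √(d : ℝ) * √(d : ℝ) = d := Real.mul_self_sqrt hd'.le
      -- b > 49 n / d
      have h1 : 49 / d ≤ b / n := by
        have h2 : 7 * √d * b * √(b / n) < d * b ^ 2 / n := by
          have : 7 * √(d : ℝ) * b * √(b / n) ≤ Λ := by
            rw [hΛ]
            exact mul_le_mul_of_nonneg_left hs2 (by positivity)
          linarith
        have h3 : d * b ^ 2 / n = (√d * b * √(b / n)) * (√d * √(b / n)) := by
          have h4 := Real.mul_self_sqrt hr.le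
          calc d * b ^ 2 / n = d * b * (b / n) := by ring
            _ = (√(d : ℝ) * √(d : ℝ)) * b * (√(b / n) * √(b / n)) := by rw [hsd2, h4]
            _ = _ := by ring
        rw [h3] at h2
        have h5 : 0 < √(d : ℝ) * b * √(b / n) := by
          have := Real.sqrt_pos.2 hr
          positivity
        have h6 : 7 < √(d : ℝ) * √(b / n) := by
          by_contra hc
          push Not at hc
          have := mul_le_mul_of_nonneg_left hc h5.le
          linarith
        have h7 : 49 ≤ d * (b / n) := by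
          calc (49 : ℝ) = 7 * 7 := by norm_num
            _ ≤ (√(d : ℝ) * √(b / n)) * (√(d : ℝ) * √(b / n)) :=
              mul_self_le_mul_self (by norm_num) h6.le
            _ = (√(d : ℝ) * √(d : ℝ)) * (√(b / n) * √(b / n)) := by ring
            _ = d * (b / n) := by rw [hsd2, Real.mul_self_sqrt hr.le]
        rw [div_le_iff₀ hd']
        linarith
      have hΛbig : 7 * √(d : ℝ) * (49 / d) ^ 2 * n ≤ Λ := by
        have h2 : 7 * √(d : ℝ) * b * (b / n) ≤ Λ := by
          rw [hΛ]
          exact mul_le_mul_of_nonneg_left (hs1.trans hs2) (by positivity)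
        refine le_trans ?_ h2
        have h3 : 7 * √(d : ℝ) * b * (b / n) = 7 * √(d : ℝ) * (b / n) ^ 2 * n := by
          field_simp
        rw [h3]
        have h4 : (49 / (d : ℝ)) ^ 2 ≤ (b / n) ^ 2 := pow_le_pow_left₀ (by positivity) h1 2
        gcongr
      have h9 := tail_B hd B hb hbn (Λ := Λ) (hD.trans hΛbig) (h8.trans hΛbig)
      refine h9.trans ?_
      apply mul_le_mul_of_nonneg_left _ (by positivity)
      apply mul_le_mul_of_nonneg_right _ (Nat.cast_nonneg _)
      apply Real.exp_le_exp.2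
      have h10 : Λ ^ 2 / (16 * (d * b ^ 2 / n)) = 49 / 16 * √(n * b) := by
        have h11 : Λ ^ 2 = 49 * d * b ^ 2 * √(b / n) := by
          rw [hΛ]
          calc (7 * √(d : ℝ) * b * √√(b / n)) ^ 2 =
              49 * (√(d : ℝ) * √(d : ℝ)) * b ^ 2 * (√√(b / n) * √√(b / n)) := by ring
            _ = _ := by rw [hsd2, Real.mul_self_sqrt (Real.sqrt_nonneg _)]
        have h12 : √(n * b) = n * √(b / n) := by
          have e1 : (n : ℝ) * b = n ^ 2 * (b / n) := by field_simp
          rw [e1, Real.sqrt_mul (by positivity), Real.sqrt_sq hn'.le]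
        rw [h11, h12]
        field_simp
      rw [← hbdef, h10]
      have : 0 ≤ √(n * b) := Real.sqrt_nonneg _
      linarith
  -- union bound
  have hsub : (RG d n).filter (fun H => ¬ PR d H) ⊆
      ((univ : Finset (Finset (Fin n))).filter (fun B => 0 < B.card ∧ 2 * B.card ≤ n)).biUnion
        (fun B => (RG d n).filter (fun G => (ee B B G : ℝ) <
        d * (B.card : ℝ) ^ 2 / n - 7 * √d * B.card * √√((B.card : ℝ) / n))) := by
    intro H hH
    have h1 := mem_filter.1 hH
    unfold PR at h1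
    have h2 := h1.2
    push Not at h2
    obtain ⟨B, hB1, hB2⟩ := h2
    rw [mem_biUnion]
    refine ⟨B, ?_, mem_filter.2 ⟨h1.1, hB2⟩⟩
    rw [mem_filter]
    refine ⟨mem_univ _, ?_, hB1⟩
    by_contra hc
    have h0 : B.card = 0 := by omega
    rw [h0] at hB2
    simp at hB2
    have : (0 : ℝ) ≤ ee B B H := Nat.cast_nonneg _
    linarith
  have hcard : (((RG d n).filter (fun H => ¬ PR d H)).card : ℝ) ≤
      ∑ B ∈ (univ : Finset (Finset (Fin n))).filter (fun B => 0 < B.card ∧ 2 * B.card ≤ n),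
        (d * n + 1) * (Real.exp (-(3 * √((n : ℝ) * B.card))) * (RG d n).card) := by
    have h1 := (card_le_card hsub).trans card_biUnion_le
    have h2 : (((RG d n).filter (fun H => ¬ PR d H)).card : ℝ) ≤
      ∑ B ∈ (univ : Finset (Finset (Fin n))).filter (fun B => 0 < B.card ∧ 2 * B.card ≤ n),
        (((RG d n).filter (fun G => (ee B B G : ℝ) <
        d * (B.card : ℝ) ^ 2 / n - 7 * √d * B.card * √√((B.card : ℝ) / n))).card : ℝ) := by
      exact_mod_cast h1
    refine h2.trans (sum_le_sum fun B hB => ?_)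
    have h3 := (mem_filter.1 hB).2
    exact hone B h3.1 h3.2
  have hsumB : ∑ B ∈ (univ : Finset (Finset (Fin n))).filter (fun B => 0 < B.card ∧ 2 * B.card ≤ n),
      Real.exp (-(3 * √((n : ℝ) * B.card))) ≤ (n + 1) * Real.exp (-√(n : ℝ)) := by
    have h1 : ∑ B ∈ (univ : Finset (Finset (Fin n))).filter (fun B => 0 < B.card ∧ 2 * B.card ≤ n),
        Real.exp (-(3 * √((n : ℝ) * B.card))) ≤
        ∑ b ∈ range (n + 1), Real.exp (-√(n : ℝ)) := by
      have h2 : ∀ B : Finset (Fin n), B ∈ (univ : Finset (Finset (Fin n))).filter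
          (fun B => 0 < B.card ∧ 2 * B.card ≤ n) → B.card ∈ range (n + 1) := by
        intro B hB
        have := (mem_filter.1 hB).2
        rw [mem_range]; omega
      rw [← sum_fiberwise_of_maps_to h2]
      refine sum_le_sum fun b _ => ?_
      by_cases hb0 : b = 0
      · have : ((univ : Finset (Finset (Fin n))).filter
          (fun B => 0 < B.card ∧ 2 * B.card ≤ n)).filter (fun B => B.card = b) = ∅ := by
          rw [filter_eq_empty_iff]
          intro B hB hc
          have := (mem_filter.1 hB).2.1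
          omega
        rw [this, sum_empty]
        positivity
      by_cases hbn : b ≤ n
      · have hb1 : 0 < b := Nat.pos_of_ne_zero hb0
        have hb1' : (1 : ℝ) ≤ b := by exact_mod_cast hb1
        have h3 : ∑ B ∈ ((univ : Finset (Finset (Fin n))).filter
            (fun B => 0 < B.card ∧ 2 * B.card ≤ n)).filter (fun B => B.card = b),
            Real.exp (-(3 * √((n : ℝ) * B.card))) ≤
            ∑ B ∈ (univ : Finset (Fin n)).powersetCard b, Real.exp (-(3 * √((n : ℝ) * b))) := by
          refine le_trans (le_of_eq (sum_congr rfl fun B hB => ?_)) (sum_le_sum_of_subset_of_nonneg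
            (fun B hB => ?_) fun _ _ _ => (Real.exp_pos _).le)
          · rw [(mem_filter.1 hB).2]
          · rw [mem_powersetCard]
            exact ⟨subset_univ _, (mem_filter.1 hB).2⟩
        refine h3.trans ?_
        rw [sum_const, card_powersetCard, nsmul_eq_mul, card_univ, Fintype.card_fin]
        calc (n.choose b : ℝ) * Real.exp (-(3 * √((n : ℝ) * b))) ≤
            Real.exp (2 * √((n : ℝ) * b)) * Real.exp (-(3 * √((n : ℝ) * b))) :=
              mul_le_mul_of_nonneg_right (choose_le n b hb1 hbn) (Real.exp_pos _).le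
          _ = Real.exp (-√((n : ℝ) * b)) := by rw [← Real.exp_add]; ring_nf
          _ ≤ Real.exp (-√(n : ℝ)) := by
              apply Real.exp_le_exp.2
              have : √(n : ℝ) ≤ √((n : ℝ) * b) := Real.sqrt_le_sqrt (by nlinarith)
              linarith
      · have : ((univ : Finset (Finset (Fin n))).filter
          (fun B => 0 < B.card ∧ 2 * B.card ≤ n)).filter (fun B => B.card = b) = ∅ := by
          rw [filter_eq_empty_iff]
          intro B hB hc
          have := (mem_filter.1 hB).2.2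
          omega
        rw [this, sum_empty]
        positivity
    rw [sum_const, card_range, nsmul_eq_mul] at h1
    push_cast at h1
    exact h1
  rcases Nat.eq_zero_or_pos (RG d n).card with h0 | h0
  · rw [h0]
    simp only [Nat.cast_zero, div_zero]
    positivity
  have h0' : (0 : ℝ) < (RG d n).card := by exact_mod_cast h0
  rw [div_le_iff₀ h0']
  refine hcard.trans ?_
  have e : ∀ B : Finset (Fin n), (d * (n : ℝ) + 1) * (Real.exp (-(3 * √((n : ℝ) * B.card))) *
      (RG d n).card) = ((d * n + 1) * (RG d n).card) * Real.exp (-(3 * √((n : ℝ) * B.card))) := by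
    intro B; ring
  simp only [e, ← mul_sum]
  calc ((d * (n : ℝ) + 1) * (RG d n).card) * _ ≤
      ((d * (n : ℝ) + 1) * (RG d n).card) * ((n + 1) * Real.exp (-√(n : ℝ))) :=
        mul_le_mul_of_nonneg_left hsumB (by positivity)
    _ = _ := by ring

end Pool.Agent.T2H64.Star
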