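import Pool.Agent.T2H64.Star.Reg
import Pool.Agent.T2H64.Star.Unif

/-!
# Bounds at one state and for one step
-/

set_option autoImplicit false
set_option linter.unusedVariables false
set_option linter.unusedSimpArgs false

open Finset
open scoped Classical

namespace Pool.Agent.T2H64.Star

variable {n : ℕ}

/-- the total deficit -/
noncomputable def Df (d : ℕ) (G : SimpleGraph (Fin n)) : ℝ := ∑ w, ((d : ℝ) - dg G w)

/-- the number of passively saturated vertices -/
noncomputable def Np (d t : ℕ) (G : SimpleGraph (Fin n)) : ℝ := (n : ℝ) - (U d G).card - t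

/-- the exponential functional -/
noncomputable def Ps (d : ℕ) (z : ℝ) (t : ℕ) (G : SimpleGraph (Fin n)) : ℝ :=
  ∑ w, z ^ dg G w - t * z ^ d

lemma Np_nonneg {d t : ℕ} {G : SimpleGraph (Fin n)} (h : Inv d t G) : 0 ≤ Np d t G := by
  unfold Np
  have h1 := h.card_U
  have : (((U d G).card + t : ℕ) : ℝ) ≤ n := by exact_mod_cast h1
  push_cast at this
  linarith

lemma Inv.dg_le {d t : ℕ} {G : SimpleGraph (Fin n)} (h : Inv d t G) (v : Fin n) : dg G v ≤ d := by
  obtain ⟨P, h1, h2, h3, h4⟩ := h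
  exact h4 v

lemma sum_split {d t : ℕ} {G : SimpleGraph (Fin n)} (h : Inv d t G) (φ : ℕ → ℝ) :
    ∑ w, φ (dg G w) = ∑ w ∈ U d G, φ (dg G w) + (t + Np d t G) * φ d := by
  have h1 : ∑ w, φ (dg G w) = ∑ w ∈ U d G, φ (dg G w) + ∑ w ∈ (U d G)ᶜ, φ (dg G w) :=
    (sum_add_sum_compl _ _).symm
  rw [h1]
  congr 1
  have h2 : ∀ w ∈ (U d G)ᶜ, φ (dg G w) = φ d := by
    intro w hw
    unfold U at hw
    simp only [mem_compl, mem_filter, mem_univ, true_and, not_lt] at hw
    rw [le_antisymm (h.dg_le w) hw]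
  rw [sum_congr rfl h2, sum_const, nsmul_eq_mul, card_compl, Fintype.card_fin]
  unfold Np
  rw [Nat.cast_sub (by simpa using card_le_univ (U d G))]
  ring

lemma Ps_eq {d t : ℕ} {G : SimpleGraph (Fin n)} (h : Inv d t G) (z : ℝ) :
    Ps d z t G = ∑ w ∈ U d G, z ^ dg G w + Np d t G * z ^ d := by
  unfold Ps
  rw [sum_split h (fun k => z ^ k)]
  ring

lemma Df_eq {d t : ℕ} {G : SimpleGraph (Fin n)} (h : Inv d t G) :
    Df d G = ∑ w ∈ U d G, ((d : ℝ) - dg G w) := by
  unfold Df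
  rw [sum_split h (fun k => (d : ℝ) - k)]
  simp

lemma Df_nonneg {d t : ℕ} {G : SimpleGraph (Fin n)} (h : Inv d t G) : 0 ≤ Df d G := by
  unfold Df
  refine sum_nonneg fun w _ => ?_
  have : (dg G w : ℝ) ≤ d := by exact_mod_cast h.dg_le w
  linarith

/-- the total deficit is at most `u R` -/
lemma Df_le {d t : ℕ} {G : SimpleGraph (Fin n)} (h : Inv d t G) {v : Fin n} (hv : v ∈ mins G) :
    Df d G ≤ (U d G).card * ((d : ℝ) - dg G v) := by
  rw [Df_eq h, ← nsmul_eq_mul]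
  refine sum_le_card_nsmul _ _ _ fun w _ => ?_
  have : (dg G v : ℝ) ≤ dg G w := by exact_mod_cast (mem_filter.1 hv).2 w
  linarith

section step

variable {d t : ℕ} {G : SimpleGraph (Fin n)} (h : Inv d t G) (hG : ¬ Reg d G) {v : Fin n}
  (hv : v ∈ mins G) {S : Finset (Fin n)} (hS : S ⊆ cand d G v) (hc : S.card = d - dg G v)

include h hG hv hS hc in
lemma Df_star : Df d (star G v S) = Df d G - 2 * ((d : ℝ) - dg G v) := by
  have hvd := mins_lt h hG hv
  obtain ⟨f1, f2, f3⟩ := sub_facts h hvd hS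
  unfold Df
  rw [sum_star f1 f2 (fun k => (d : ℝ) - k)]
  have e1 : ∑ w ∈ S, ((d : ℝ) - ((dg G w + 1 : ℕ) : ℝ) - ((d : ℝ) - (dg G w : ℝ))) = -(S.card : ℝ) := by
    rw [sum_congr rfl (fun w _ => show ((d : ℝ) - ((dg G w + 1 : ℕ) : ℝ) - ((d : ℝ) - (dg G w : ℝ))) = -1 by
      push_cast; ring), sum_const, nsmul_eq_mul]
    ring
  rw [e1, hc, show dg G v + (d - dg G v) = d by omega, Nat.cast_sub hvd.le]
  ring

include h hG hv hS hc in
lemma Ps_star (z : ℝ) : Ps d z (t + 1) (star G v S) =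
    (Ps d z t G - z ^ dg G v) + ∑ w ∈ S, (z - 1) * z ^ dg G w := by
  have hvd := mins_lt h hG hv
  obtain ⟨f1, f2, f3⟩ := sub_facts h hvd hS
  unfold Ps
  rw [sum_star f1 f2 (fun k => z ^ k)]
  rw [hc, show dg G v + (d - dg G v) = d by omega]
  have e1 : ∑ w ∈ S, (z ^ (dg G w + 1) - z ^ dg G w) = ∑ w ∈ S, (z - 1) * z ^ dg G w :=
    sum_congr rfl fun w _ => by ring
  rw [e1]
  push_cast
  ring

include h hG hv in
/-- the average of `Ps` after one step -/
lemma Av_Ps (z : ℝ) (hr : d - dg G v ≤ (cand d G v).card) :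
    Av (cand d G v) (d - dg G v) (fun S => Ps d z (t + 1) (star G v S)) =
      (Ps d z t G - z ^ dg G v) + (z - 1) * (((d : ℝ) - dg G v) / ((U d G).card - 1) *
        (Ps d z t G - z ^ dg G v - Np d t G * z ^ d)) := by
  have hvd := mins_lt h hG hv
  rw [Av_congr (fun S hS hc => Ps_star h hG hv hS hc z), Av_lin hr]
  obtain ⟨hc1, hc2⟩ := card_cand h hG hv
  have hcard : (((cand d G v).card : ℕ) : ℝ) = (U d G).card - 1 := by
    rw [hc1, Nat.cast_sub hc2]; simp
  rw [hcard, Nat.cast_sub hvd.le, ← mul_sum]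
  have hvU : v ∈ U d G := by unfold U; simp [hvd]
  have h1 : ∑ w ∈ cand d G v, z ^ dg G w = Ps d z t G - z ^ dg G v - Np d t G * z ^ d := by
    rw [cand_eq h hvd, Ps_eq h, ← add_sum_erase _ _ hvU]
    ring
  rw [h1]
  ring

end step

lemma Ps_nonneg {d t : ℕ} {G : SimpleGraph (Fin n)} (h : Inv d t G) {z : ℝ} (hz : 0 ≤ z) :
    0 ≤ Ps d z t G := by
  rw [Ps_eq h]
  have := Np_nonneg h
  have h1 : 0 ≤ ∑ w ∈ U d G, z ^ dg G w := sum_nonneg fun w _ => pow_nonneg hz _
  positivity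

lemma Np_le_Ps {d t : ℕ} {G : SimpleGraph (Fin n)} (h : Inv d t G) {z : ℝ} (hz : 0 ≤ z) :
    Np d t G * z ^ d ≤ Ps d z t G := by
  rw [Ps_eq h]
  have h1 : 0 ≤ ∑ w ∈ U d G, z ^ dg G w := sum_nonneg fun w _ => pow_nonneg hz _
  linarith

lemma Ps_le {d t : ℕ} {G : SimpleGraph (Fin n)} (h : Inv d t G) {z : ℝ} (hz : 1 ≤ z) :
    Ps d z t G ≤ n * z ^ d := by
  rw [Ps_eq h]
  have h1 : ∑ w ∈ U d G, z ^ dg G w ≤ (U d G).card * z ^ d := by
    rw [← nsmul_eq_mul]
    exact sum_le_card_nsmul _ _ _ fun w _ => pow_le_pow_right₀ hz (h.dg_le w)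
  have h2 : (U d G).card * z ^ d + Np d t G * z ^ d = (n - t) * z ^ d := by
    unfold Np; ring
  have h3 : 0 ≤ (t : ℝ) * z ^ d := by positivity
  nlinarith

/-- comparison of `Ps` at `z` and `z^2` -/
lemma Ps_sq {d t : ℕ} {G : SimpleGraph (Fin n)} (h : Inv d t G) {z lam : ℝ} (hl : 0 < lam) :
    Ps d z t G ≤ (lam * (n - t) + Ps d (z ^ 2) t G / lam) / 2 := by
  have key : ∀ k : ℕ, z ^ k ≤ (lam + (z ^ 2) ^ k / lam) / 2 := by
    intro k
    rw [← pow_mul, mul_comm 2 k, pow_mul]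
    have h1 : 0 ≤ (lam - z ^ k) ^ 2 / lam := by positivity
    have h2 : (lam - z ^ k) ^ 2 / lam = lam + (z ^ k) ^ 2 / lam - 2 * z ^ k := by
      field_simp
      ring
    linarith
  rw [Ps_eq h, Ps_eq h]
  have h1 : ∑ w ∈ U d G, z ^ dg G w ≤ ∑ w ∈ U d G, (lam + (z ^ 2) ^ dg G w / lam) / 2 :=
    sum_le_sum fun w _ => key _
  have h2 : ∑ w ∈ U d G, (lam + (z ^ 2) ^ dg G w / lam) / 2 =
      (lam * (U d G).card + (∑ w ∈ U d G, (z ^ 2) ^ dg G w) / lam) / 2 := by
    rw [← sum_div, sum_add_distrib, sum_const, nsmul_eq_mul, ← sum_div]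
    ring
  have h3 := mul_le_mul_of_nonneg_left (key d) (Np_nonneg h)
  have h4 : (lam * (n - t) + (∑ w ∈ U d G, (z ^ 2) ^ dg G w + Np d t G * (z ^ 2) ^ d) / lam) / 2 =
      (lam * (U d G).card + (∑ w ∈ U d G, (z ^ 2) ^ dg G w) / lam) / 2 +
      Np d t G * ((lam + (z ^ 2) ^ d / lam) / 2) := by
    unfold Np
    ring
  rw [h4]
  linarith

/-! ### consequences of pseudo-randomness of the final graph -/

section pr

variable {d t : ℕ} {G H : SimpleGraph (Fin n)}

/-- neighbours of saturated vertices do not change -/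
lemma adj_of_sat (hH : Reg d H) (hGH : G ≤ H) {v : Fin n} (hv : dg G v = d) (w : Fin n) :
    H.Adj v w ↔ G.Adj v w := by
  have h1 : univ.filter (fun u => G.Adj v u) ⊆ univ.filter (fun u => H.Adj v u) := by
    intro u hu
    simp only [mem_filter, mem_univ, true_and] at hu ⊢
    exact hGH hu
  have h2 : univ.filter (fun u => G.Adj v u) = univ.filter (fun u => H.Adj v u) := by
    apply eq_of_subset_of_card_le h1
    have e1 := hH v
    unfold dg at e1 hv
    rw [e1, hv]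
  have h3 : w ∈ univ.filter (fun u => G.Adj v u) ↔ w ∈ univ.filter (fun u => H.Adj v u) := by rw [h2]
  simp only [mem_filter, mem_univ, true_and] at h3
  exact h3.symm

/-- the number of edges of the final graph in the set of unchosen vertices -/
lemma ee_final (hH : Reg d H) (hGH : G ≤ H) {P : Finset (Fin n)} (h2 : ∀ v ∈ P, dg G v = d)
    (h3 : ∀ u v, G.Adj u v → u ∈ P ∨ v ∈ P) : (ee Pᶜ Pᶜ H : ℝ) = Df d G := by
  have e1 : ee Pᶜ Pᶜ H + ee Pᶜ Pᶜᶜ H = d * Pᶜ.card := ee_compl hH Pᶜ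
  rw [compl_compl] at e1
  have e2 : ee Pᶜ P H = ∑ w ∈ Pᶜ, dg G w := by
    rw [ee_eq_sum]
    refine sum_congr rfl fun w hw => ?_
    unfold dg
    congr 1
    ext u
    simp only [mem_filter, mem_univ, true_and]
    have hwP : w ∉ P := by simpa using hw
    constructor
    · rintro ⟨hu, hadj⟩
      exact ((adj_of_sat hH hGH (h2 u hu) w).1 hadj.symm).symm
    · intro hadj
      refine ⟨?_, hGH hadj⟩
      rcases h3 w u hadj with h4 | h4
      · exact absurd h4 hwP
      · exact h4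
  have e3 : Df d G = ∑ w ∈ Pᶜ, ((d : ℝ) - dg G w) := by
    unfold Df
    rw [← sum_add_sum_compl P]
    have : ∑ w ∈ P, ((d : ℝ) - dg G w) = 0 := sum_eq_zero fun w hw => by rw [h2 w hw]; ring
    rw [this, zero_add]
  have e4 : ((ee Pᶜ Pᶜ H : ℕ) : ℝ) + ∑ w ∈ Pᶜ, (dg G w : ℝ) = d * (Pᶜ.card : ℝ) := by
    rw [e2] at e1
    exact_mod_cast e1
  rw [e3, sum_sub_distrib, sum_const, nsmul_eq_mul]
  linarith

lemma rr_facts {s : ℝ} (h0 : 0 < s) (h1 : s ≤ 1) : 0 < √√s ∧ √√s ≤ 1 ∧ √√s ^ 4 = s := by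
  have a1 : 0 < √s := Real.sqrt_pos.2 h0
  have a2 : 0 < √√s := Real.sqrt_pos.2 a1
  have a3 : √√s ^ 2 = √s := Real.sq_sqrt a1.le
  have a4 : √s ^ 2 = s := Real.sq_sqrt h0.le
  refine ⟨a2, ?_, ?_⟩
  · by_contra hc
    push Not at hc
    have b1 : 1 < √√s ^ 2 := by nlinarith
    have b2 : 1 < √s ^ 2 := by rw [a3] at b1; nlinarith
    linarith
  · calc √√s ^ 4 = (√√s ^ 2) ^ 2 := by ring
      _ = s := by rw [a3, a4]

/-- the lower bound of the total deficit at good states -/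
noncomputable def et (d n t : ℕ) : ℝ := 28 * √d * (t / n) / √√(1 - (t : ℝ) / n) ^ 3

/-- **Pseudo-randomness gives a lower bound for the total deficit.** -/
lemma Df_ge (hH : Reg d H) (hPR : PR d H) (hGH : G ≤ H) (h : Inv d t G) (htn : t < n) :
    ((n : ℝ) - t) ^ 2 * (d - et d n t) / n ≤ Df d G := by
  obtain ⟨P, h1, h2, h3, h4⟩ := h
  rw [← ee_final hH hGH h2 h3]
  have hn : (0 : ℝ) < n := by exact_mod_cast (lt_of_le_of_lt (Nat.zero_le _) htn)
  have htn' : (t : ℝ) < n := by exact_mod_cast htn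
  set x : ℝ := (t : ℝ) / n with hx
  set s : ℝ := 1 - x with hs
  have hx0 : 0 ≤ x := by positivity
  have hx1 : x < 1 := by rw [hx, div_lt_one hn]; exact htn'
  have hs0 : 0 < s := by linarith
  obtain ⟨r0, r1, r4⟩ := rr_facts hs0 (by linarith)
  set r : ℝ := √√s with hr
  have hnt : (n : ℝ) - t = n * s := by rw [hs, hx]; field_simp
  have hcP : ((Pᶜ.card : ℕ) : ℝ) = n * s := by
    rw [card_compl, Fintype.card_fin, h1, Nat.cast_sub htn.le, hnt]
  have het : et d n t = 28 * √d * x / r ^ 3 := rfl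
  have hsd : 0 ≤ √(d : ℝ) := Real.sqrt_nonneg _
  have goal_eq : ((n : ℝ) - t) ^ 2 * (d - et d n t) / n = n * (d * s ^ 2 - 28 * √d * x * r ^ 5) := by
    have e1 : s ^ 2 / r ^ 3 = r ^ 5 := by
      rw [div_eq_iff (by positivity), ← r4]; ring
    rw [het, hnt]
    calc (n * s) ^ 2 * (d - 28 * √d * x / r ^ 3) / n = n * (d * s ^ 2 - 28 * √d * x * (s ^ 2 / r ^ 3)) := by
          field_simp
      _ = _ := by rw [e1]
  rw [goal_eq]
  by_cases hhalf : 2 * Pᶜ.card ≤ n
  · have h5 := hPR Pᶜ hhalf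
    refine le_trans ?_ h5
    rw [hcP]
    have hs2 : s ≤ 1 / 2 := by
      have : (2 : ℝ) * (Pᶜ.card : ℕ) ≤ n := by exact_mod_cast hhalf
      rw [hcP] at this
      by_contra hc
      push Not at hc
      nlinarith
    have e2 : n * s / n = s := by field_simp
    rw [e2, ← hr]
    have e3 : d * (n * s) ^ 2 / n - 7 * √d * (n * s) * r = n * (d * s ^ 2 - 7 * √d * s * r) := by
      field_simp
    rw [e3]
    apply mul_le_mul_of_nonneg_left _ hn.le
    have e4 : s * r = r ^ 5 := by rw [← r4]; ring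
    have e5 : 7 * √(d : ℝ) * s * r = 7 * √d * r ^ 5 := by rw [mul_assoc, e4]
    rw [e5]
    have h6 : 0 ≤ √(d : ℝ) * r ^ 5 := by positivity
    nlinarith
  · push Not at hhalf
    have hPc : (P.card : ℝ) = n * x := by rw [h1, hx]; field_simp
    have hle : 2 * P.card ≤ n := by
      have : Pᶜ.card + P.card = n := by
        rw [card_compl, Fintype.card_fin]; omega
      omega
    have h5 := hPR P hle
    have hx2 : x ≤ 1 / 2 := by
      have : (2 : ℝ) * (P.card : ℕ) ≤ n := by exact_mod_cast hle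
      rw [hPc] at this
      by_contra hc
      push Not at hc
      nlinarith
    have e1 := ee_compl hH P
    have e2 := ee_compl hH Pᶜ
    rw [compl_compl] at e2
    have e3 := ee_symm P Pᶜ H
    have e4 : (ee P P H : ℝ) + ee P Pᶜ H = d * (P.card : ℝ) := by exact_mod_cast e1
    have e5 : (ee Pᶜ Pᶜ H : ℝ) + ee Pᶜ P H = d * (Pᶜ.card : ℝ) := by exact_mod_cast e2
    have e6 : (ee P Pᶜ H : ℝ) = ee Pᶜ P H := by exact_mod_cast e3
    rw [hPc] at h5 e4
    rw [hcP] at e5
    have e7 : n * x / n = x := by field_simp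
    rw [e7] at h5
    set rx : ℝ := √√x with hrx
    have hrx0 : 0 ≤ rx := Real.sqrt_nonneg _
    have e8 : d * (n * x) ^ 2 / n = n * (d * x ^ 2) := by field_simp
    rw [e8] at h5
    have e9 : (ee Pᶜ Pᶜ H : ℝ) = ee P P H + n * d * (s - x) := by
      linear_combination e5 - e4 + e6
    rw [e9]
    have h6 : n * (d * s ^ 2 - 28 * √d * x * r ^ 5) ≤ n * (d * x ^ 2) - 7 * √d * (n * x) * rx +
        n * d * (s - x) := by
      have h7 : n * (d * x ^ 2) - 7 * √d * (n * x) * rx + n * d * (s - x) =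
          n * (d * s ^ 2 - 7 * √d * x * rx) := by
        rw [hs]; ring
      rw [h7]
      apply mul_le_mul_of_nonneg_left _ hn.le
      -- rx ≤ 1, r^5 ≥ 1/4
      have hrx1 : rx ≤ 1 := by
        rw [hrx]
        have : √x ≤ 1 := (Real.sqrt_le_left (by norm_num)).2 (by linarith)
        exact (Real.sqrt_le_left (by norm_num)).2 (by linarith)
      have hr5 : 1 / 4 ≤ r ^ 5 := by
        have h8 : 1 / 2 ≤ r ^ 4 := by rw [r4]; linarith
        have h9 : 1 / 2 ≤ r := by
          by_contra hc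
          push Not at hc
          have : r ^ 4 ≤ r := by
            calc r ^ 4 ≤ r ^ 1 := pow_le_pow_of_le_one r0.le r1 (by norm_num)
              _ = r := pow_one r
          linarith
        calc (1 : ℝ) / 4 = 1 / 2 * (1 / 2) := by norm_num
          _ ≤ r ^ 4 * r := mul_le_mul h8 h9 (by norm_num) (by positivity)
          _ = r ^ 5 := by ring
      have h10 : 0 ≤ √(d : ℝ) * x := by positivity
      have h11 : rx ≤ 4 * r ^ 5 := by linarith
      nlinarith [mul_le_mul_of_nonneg_left h11 h10]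
    linarith

/-- **Pseudo-randomness gives an upper bound for the number of passively saturated vertices.** -/
lemma Np_le (hd : 0 < d) (hH : Reg d H) (hPR : PR d H) (hGH : G ≤ H) (h : Inv d t G) {ν : ℝ}
    (hν : 2401 < (d : ℝ) ^ 2 * ν ^ 3) (hν0 : 0 < ν) (hνn : 2 * (ν * n + 1) ≤ n) :
    Np d t G ≤ ν * n := by
  by_contra hcon
  push Not at hcon
  obtain ⟨P, h1, h2, h3, h4⟩ := h
  have hn : (0 : ℝ) < n := by nlinarith [mul_nonneg hν0.le (Nat.cast_nonneg n : (0 : ℝ) ≤ n)]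
  -- the set of passively saturated vertices
  set Q : Finset (Fin n) := (U d G ∪ P)ᶜ with hQ
  have hdisj : Disjoint (U d G) P := by
    rw [disjoint_left]
    intro a ha haP
    have := h2 a haP
    have h3 := (mem_filter.1 ha).2
    omega
  have hQc : (Q.card : ℝ) = Np d t G := by
    have h5 : (U d G ∪ P).card ≤ n := by simpa using card_le_univ (U d G ∪ P)
    rw [hQ, card_compl, Fintype.card_fin, Nat.cast_sub h5, card_union_of_disjoint hdisj]
    unfold Np
    push_cast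
    rw [h1]
    ring
  have hQsat : ∀ v ∈ Q, dg G v = d ∧ v ∉ P := by
    intro v hv
    rw [hQ, mem_compl, mem_union] at hv
    push Not at hv
    refine ⟨le_antisymm (h4 v) ?_, hv.2⟩
    by_contra hc
    apply hv.1
    unfold U
    simp only [mem_filter, mem_univ, true_and]
    omega
  -- a subset of the right size
  have hfl : ⌊ν * n⌋₊ + 1 ≤ Q.card := by
    have h5 : ν * n < Q.card := by rw [hQc]; exact hcon
    have h6 := (Nat.floor_lt (by positivity)).2 h5
    omega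
  obtain ⟨B, hBQ, hBc⟩ := exists_subset_card_eq hfl
  have hb1 : ν * n < (B.card : ℝ) := by
    rw [hBc]; push_cast; exact Nat.lt_floor_add_one _
  have hb2 : (B.card : ℝ) ≤ ν * n + 1 := by
    rw [hBc]; push_cast
    have := Nat.floor_le (show 0 ≤ ν * n by positivity)
    linarith
  have hb3 : 2 * B.card ≤ n := by
    have : (2 : ℝ) * B.card ≤ n := by linarith
    exact_mod_cast this
  have hee : ee B B H = 0 := by
    unfold ee
    rw [card_eq_zero, filter_eq_empty_iff]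
    rintro ⟨x, y⟩ hxy hadj
    rw [mem_product] at hxy
    simp only at hxy hadj
    obtain ⟨hx1, hx2⟩ := hQsat x (hBQ hxy.1)
    obtain ⟨hy1, hy2⟩ := hQsat y (hBQ hxy.2)
    have := (adj_of_sat hH hGH hx1 y).1 hadj
    rcases h3 x y this with h5 | h5
    · exact hx2 h5
    · exact hy2 h5
  have h5 := hPR B hb3
  rw [hee] at h5
  push_cast at h5
  have hb0 : (0 : ℝ) < B.card := lt_of_le_of_lt (by positivity) hb1
  set b : ℝ := (B.card : ℝ) with hb
  set y : ℝ := b / n with hy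
  have hy0 : 0 < y := by positivity
  have hyν : ν < y := by rw [hy, lt_div_iff₀ hn]; exact hb1
  have hy1 : y ≤ 1 := by
    rw [hy, div_le_one hn]
    have : (2 : ℝ) * B.card ≤ n := by exact_mod_cast hb3
    linarith
  obtain ⟨r0, r1, r4⟩ := rr_facts hy0 hy1
  set r : ℝ := √√y with hr
  have hd' : (0 : ℝ) < d := by exact_mod_cast hd
  have hsd : 0 < √(d : ℝ) := Real.sqrt_pos.2 hd'
  have hsd2 : √(d : ℝ) ^ 2 = d := Real.sq_sqrt hd'.le
  have h6 : √(d : ℝ) * r ^ 3 ≤ 7 := by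
    have h7 : d * b ^ 2 / n - 7 * √d * b * r = √d * b * r * (√d * r ^ 3 - 7) := by
      have : d * b ^ 2 / n = d * b * y := by rw [hy]; ring
      rw [this, ← r4]
      linear_combination (-(b * r ^ 4)) * hsd2
    rw [h7] at h5
    by_contra hc
    push Not at hc
    have : 0 < √(d : ℝ) * b * r * (√d * r ^ 3 - 7) := by
      have : 0 < √(d : ℝ) * r ^ 3 - 7 := by linarith
      positivity
    linarith
  have h7 : (√(d : ℝ) * r ^ 3) ^ 4 ≤ 7 ^ 4 := pow_le_pow_left₀ (by positivity) h6 4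
  have h8 : (√(d : ℝ) * r ^ 3) ^ 4 = d ^ 2 * y ^ 3 := by
    calc (√(d : ℝ) * r ^ 3) ^ 4 = (√(d : ℝ) ^ 2) ^ 2 * (r ^ 4) ^ 3 := by ring
      _ = _ := by rw [hsd2, r4]
  rw [h8] at h7
  have h9 : ν ^ 3 < y ^ 3 := pow_lt_pow_left₀ hyν hν0.le (by norm_num)
  have h10 : (d : ℝ) ^ 2 * ν ^ 3 < d ^ 2 * y ^ 3 := mul_lt_mul_of_pos_left h9 (by positivity)
  norm_num at h7
  linarith

end pr

end Pool.Agent.T2H64.Star
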