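import Pool.Agent.T2H64.Star.Basic

/-!
# Switchings
-/

set_option autoImplicit false
set_option linter.unusedVariables false
set_option linter.unusedSimpArgs false

open Finset
open scoped Classical

namespace Pool.Agent.T2H64.Star

variable {n : ℕ}

/-- the number of adjacent pairs in `B × C` -/
noncomputable def ee (B C : Finset (Fin n)) (G : SimpleGraph (Fin n)) : ℕ :=
  ((B ×ˢ C).filter (fun p => G.Adj p.1 p.2)).card

lemma ee_eq_sum (B C : Finset (Fin n)) (G : SimpleGraph (Fin n)) :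
    ee B C G = ∑ x ∈ B, (C.filter (fun y => G.Adj x y)).card := by
  unfold ee
  rw [card_filter, sum_product]
  exact sum_congr rfl fun x _ => by rw [card_filter]

lemma ee_symm (B C : Finset (Fin n)) (G : SimpleGraph (Fin n)) : ee B C G = ee C B G := by
  unfold ee
  rw [card_filter, card_filter, sum_product, sum_product_right]
  refine sum_congr rfl fun x _ => sum_congr rfl fun y _ => ?_
  simp only [G.adj_comm]

lemma ee_union {B C C' : Finset (Fin n)} (h : Disjoint C C') (G : SimpleGraph (Fin n)) :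
    ee B (C ∪ C') G = ee B C G + ee B C' G := by
  rw [ee_eq_sum, ee_eq_sum, ee_eq_sum, ← sum_add_distrib]
  refine sum_congr rfl fun x _ => ?_
  rw [filter_union, card_union_of_disjoint]
  exact disjoint_filter_filter h

lemma ee_univ {d : ℕ} {G : SimpleGraph (Fin n)} (h : Reg d G) (B : Finset (Fin n)) :
    ee B univ G = d * B.card := by
  rw [ee_eq_sum]
  have : ∀ x ∈ B, (univ.filter (fun y => G.Adj x y)).card = d := fun x _ => h x
  rw [sum_congr rfl this, sum_const, smul_eq_mul, mul_comm]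

lemma ee_compl {d : ℕ} {G : SimpleGraph (Fin n)} (h : Reg d G) (B : Finset (Fin n)) :
    ee B B G + ee B Bᶜ G = d * B.card := by
  rw [← ee_union disjoint_compl_right, union_compl, ee_univ h]

/-- the four-cycle `x y y' x'` -/
def C4 (q : Fin n × Fin n × Fin n × Fin n) : SimpleGraph (Fin n) :=
  SimpleGraph.fromRel fun u v => (u = q.1 ∧ v = q.2.1) ∨ (u = q.2.2.1 ∧ v = q.2.2.2) ∨
    (u = q.1 ∧ v = q.2.2.1) ∨ (u = q.2.1 ∧ v = q.2.2.2)

/-- the switched graph -/
def sw (G : SimpleGraph (Fin n)) (q : Fin n × Fin n × Fin n × Fin n) : SimpleGraph (Fin n) :=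
  symmDiff G (C4 q)

lemma sw_adj (G : SimpleGraph (Fin n)) (q : Fin n × Fin n × Fin n × Fin n) (u v : Fin n) :
    (sw G q).Adj u v ↔ (G.Adj u v ∧ ¬ (C4 q).Adj u v) ∨ ((C4 q).Adj u v ∧ ¬ G.Adj u v) := by
  unfold sw symmDiff
  rw [SimpleGraph.sup_adj, SimpleGraph.sdiff_adj, SimpleGraph.sdiff_adj]

lemma sw_sw (G : SimpleGraph (Fin n)) (q : Fin n × Fin n × Fin n × Fin n) : sw (sw G q) q = G :=
  symmDiff_symmDiff_cancel_right _ _

/-- admissible switchings -/
def Adm (B : Finset (Fin n)) (G : SimpleGraph (Fin n)) (q : Fin n × Fin n × Fin n × Fin n) : Prop :=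
  q.1 ∈ B ∧ q.2.1 ∉ B ∧ q.2.2.1 ∈ B ∧ q.2.2.2 ∉ B ∧ G.Adj q.1 q.2.1 ∧ G.Adj q.2.2.1 q.2.2.2 ∧
    q.1 ≠ q.2.2.1 ∧ q.2.1 ≠ q.2.2.2 ∧ ¬ G.Adj q.1 q.2.2.1 ∧ ¬ G.Adj q.2.1 q.2.2.2

/-- the reversed condition -/
def Rev (B : Finset (Fin n)) (G : SimpleGraph (Fin n)) (q : Fin n × Fin n × Fin n × Fin n) : Prop :=
  (q.1 ∈ B ∧ q.2.2.1 ∈ B ∧ G.Adj q.1 q.2.2.1) ∧ (q.2.1 ∈ Bᶜ ∧ q.2.2.2 ∈ Bᶜ ∧ G.Adj q.2.1 q.2.2.2)

lemma dg_swap {G G' : SimpleGraph (Fin n)} {a b c : Fin n} (hb : G.Adj a b) (hc : ¬ G.Adj a c)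
    (h : ∀ u, G'.Adj a u ↔ (G.Adj a u ∧ u ≠ b) ∨ u = c) : dg G' a = dg G a := by
  unfold dg
  have hb' : b ∈ univ.filter (fun u => G.Adj a u) := by simpa using hb
  have hc' : c ∉ (univ.filter (fun u => G.Adj a u)).erase b := by
    simp only [mem_erase, mem_filter, mem_univ, true_and, not_and]
    exact fun _ => hc
  have e : univ.filter (fun u => G'.Adj a u) = insert c ((univ.filter (fun u => G.Adj a u)).erase b) := by
    ext u
    simp only [mem_filter, mem_univ, true_and, mem_insert, mem_erase, h]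
    tauto
  rw [e, card_insert_of_notMem hc', card_erase_of_mem hb']
  have := card_pos.2 ⟨b, hb'⟩
  omega

section adm

variable {B : Finset (Fin n)} {G : SimpleGraph (Fin n)} {x y x' y' : Fin n}

lemma C4_adj (x y x' y' u v : Fin n) : (C4 (x, y, x', y')).Adj u v ↔ u ≠ v ∧
    ((u = x ∧ v = y) ∨ (u = x' ∧ v = y') ∨ (u = x ∧ v = x') ∨ (u = y ∧ v = y') ∨
    (v = x ∧ u = y) ∨ (v = x' ∧ u = y') ∨ (v = x ∧ u = x') ∨ (v = y ∧ u = y')) := by
  unfold C4
  rw [SimpleGraph.fromRel_adj]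
  tauto

lemma adm_ne (h : Adm B G (x, y, x', y')) : x ≠ y ∧ x ≠ y' ∧ x' ≠ y ∧ x' ≠ y' ∧ x ≠ x' ∧ y ≠ y' := by
  obtain ⟨h1, h2, h3, h4, h5, h6, h7, h8, h9, h10⟩ := h
  simp only at *
  refine ⟨?_, ?_, ?_, ?_, h7, h8⟩
  · rintro rfl; exact h2 h1
  · rintro rfl; exact h4 h1
  · rintro rfl; exact h2 h3
  · rintro rfl; exact h4 h3

lemma sw_x (h : Adm B G (x, y, x', y')) (u : Fin n) :
    (sw G (x, y, x', y')).Adj x u ↔ (G.Adj x u ∧ u ≠ y) ∨ u = x' := by
  obtain ⟨n1, n2, n3, n4, n5, n6⟩ := adm_ne h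
  obtain ⟨h1, h2, h3, h4, h5, h6, h7, h8, h9, h10⟩ := h
  simp only at *
  rw [sw_adj, C4_adj]
  by_cases e1 : u = y
  · subst e1
    simp [n1, n2, n3, n3.symm, n4, n5, n6, h5]
  · by_cases e2 : u = x'
    · subst e2
      simp [n1, n2, n3, n4, n5, n6, h9, e1]
    · simp [n1, n2, n5, e1, e2]

lemma sw_x' (h : Adm B G (x, y, x', y')) (u : Fin n) :
    (sw G (x, y, x', y')).Adj x' u ↔ (G.Adj x' u ∧ u ≠ y') ∨ u = x := by
  obtain ⟨n1, n2, n3, n4, n5, n6⟩ := adm_ne h
  obtain ⟨h1, h2, h3, h4, h5, h6, h7, h8, h9, h10⟩ := h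
  simp only at *
  have h9' : ¬ G.Adj x' x := fun hh => h9 hh.symm
  rw [sw_adj, C4_adj]
  by_cases e1 : u = y'
  · subst e1
    simp [n1, n2, n2.symm, n3, n4, n5, n6, h6]
  · by_cases e2 : u = x
    · subst e2
      simp [n1, n2, n3, n4, n5, n5.symm, n6, h9', e1]
    · simp [n3, n4, n5.symm, e1, e2]

lemma sw_y (h : Adm B G (x, y, x', y')) (u : Fin n) :
    (sw G (x, y, x', y')).Adj y u ↔ (G.Adj y u ∧ u ≠ x) ∨ u = y' := by
  obtain ⟨n1, n2, n3, n4, n5, n6⟩ := adm_ne h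
  obtain ⟨h1, h2, h3, h4, h5, h6, h7, h8, h9, h10⟩ := h
  simp only at *
  have h5' : G.Adj y x := h5.symm
  rw [sw_adj, C4_adj]
  by_cases e1 : u = x
  · subst e1
    simp [n1.symm, n2, n3.symm, n3, n4, n5, n6, h5']
  · by_cases e2 : u = y'
    · subst e2
      simp [n1.symm, n2, n3.symm, n4, n5, n6, h10, e1]
    · simp [n1.symm, n3.symm, n6, e1, e2]

lemma sw_y' (h : Adm B G (x, y, x', y')) (u : Fin n) :
    (sw G (x, y, x', y')).Adj y' u ↔ (G.Adj y' u ∧ u ≠ x') ∨ u = y := by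
  obtain ⟨n1, n2, n3, n4, n5, n6⟩ := adm_ne h
  obtain ⟨h1, h2, h3, h4, h5, h6, h7, h8, h9, h10⟩ := h
  simp only at *
  have h6' : G.Adj y' x' := h6.symm
  have h10' : ¬ G.Adj y' y := fun hh => h10 hh.symm
  rw [sw_adj, C4_adj]
  by_cases e1 : u = x'
  · subst e1
    simp [n1, n2.symm, n2, n3, n4.symm, n5, n6, h6']
  · by_cases e2 : u = y
    · subst e2
      simp [n1, n2.symm, n3, n4.symm, n5, n6, n6.symm, h10', e1]
    · simp [n2.symm, n4.symm, n6.symm, e1, e2]

lemma sw_other {u : Fin n} (hx : u ≠ x) (hy : u ≠ y) (hx' : u ≠ x') (hy' : u ≠ y') (v : Fin n) :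
    (sw G (x, y, x', y')).Adj u v ↔ G.Adj u v := by
  rw [sw_adj, C4_adj]
  simp [hx, hy, hx', hy']

lemma sw_dg (h : Adm B G (x, y, x', y')) (u : Fin n) : dg (sw G (x, y, x', y')) u = dg G u := by
  have hh := h
  obtain ⟨h1, h2, h3, h4, h5, h6, h7, h8, h9, h10⟩ := hh
  simp only at *
  by_cases hx : u = x
  · subst hx; exact dg_swap h5 h9 (sw_x h)
  by_cases hx' : u = x'
  · subst hx'; exact dg_swap h6 (fun hh => h9 hh.symm) (sw_x' h)
  by_cases hy : u = y
  · subst hy; exact dg_swap h5.symm h10 (sw_y h)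
  by_cases hy' : u = y'
  · subst hy'; exact dg_swap h6.symm (fun hh => h10 hh.symm) (sw_y' h)
  unfold dg
  congr 1
  ext v
  simp only [mem_filter, mem_univ, true_and]
  exact sw_other hx hy hx' hy' v

lemma sw_ee (h : Adm B G (x, y, x', y')) : ee B B (sw G (x, y, x', y')) = ee B B G + 2 := by
  have hh := h
  obtain ⟨h1, h2, h3, h4, h5, h6, h7, h8, h9, h10⟩ := hh
  simp only at *
  have key : (B ×ˢ B).filter (fun p => (sw G (x, y, x', y')).Adj p.1 p.2) =
      insert (x, x') (insert (x', x) ((B ×ˢ B).filter (fun p => G.Adj p.1 p.2))) := by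
    ext ⟨u, v⟩
    simp only [mem_filter, mem_product, mem_insert, Prod.mk.injEq]
    by_cases hu : u ∈ B
    · by_cases hv : v ∈ B
      · have huy : u ≠ y := fun hc => h2 (hc ▸ hu)
        have huy' : u ≠ y' := fun hc => h4 (hc ▸ hu)
        have hvy : v ≠ y := fun hc => h2 (hc ▸ hv)
        have hvy' : v ≠ y' := fun hc => h4 (hc ▸ hv)
        by_cases hx : u = x
        · subst hx
          rw [sw_x h]
          simp [hu, hv, hvy, h7]
          tauto
        · by_cases hx' : u = x'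
          · subst hx'
            rw [sw_x' h]
            simp [hu, hv, hvy', hx]
            tauto
          · rw [sw_other hx huy hx' huy']
            simp [hu, hv, hx, hx']
      · have a1 : ¬ (u = x ∧ v = x') := by rintro ⟨-, rfl⟩; exact hv h3
        have a2 : ¬ (u = x' ∧ v = x) := by rintro ⟨-, rfl⟩; exact hv h1
        simp [hv, a1, a2]
    · have a1 : ¬ (u = x ∧ v = x') := by rintro ⟨rfl, -⟩; exact hu h1
      have a2 : ¬ (u = x' ∧ v = x) := by rintro ⟨rfl, -⟩; exact hu h3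
      simp [hu, a1, a2]
  unfold ee
  rw [key, card_insert_of_notMem, card_insert_of_notMem]
  · simp only [mem_filter, mem_product, not_and]
    exact fun _ hc => h9 hc.symm
  · simp only [mem_insert, mem_filter, mem_product, Prod.mk.injEq, not_or, not_and]
    exact ⟨fun hc => absurd hc h7, fun _ => h9⟩

lemma sw_rev (h : Adm B G (x, y, x', y')) : Rev B (sw G (x, y, x', y')) (x, y, x', y') := by
  have hh := h
  obtain ⟨h1, h2, h3, h4, h5, h6, h7, h8, h9, h10⟩ := hh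
  simp only at *
  refine ⟨⟨h1, h3, ?_⟩, ⟨?_, ?_, ?_⟩⟩
  · simp only; rw [sw_x h]; exact Or.inr rfl
  · simpa using h2
  · simpa using h4
  · simp only; rw [sw_y h]; exact Or.inr rfl

end adm

/-- the regular graphs with `ee B B G = k` -/
noncomputable def GG (d : ℕ) (B : Finset (Fin n)) (k : ℕ) : Finset (SimpleGraph (Fin n)) :=
  univ.filter (fun G => Reg d G ∧ ee B B G = k)

lemma double_count (d : ℕ) (B : Finset (Fin n)) (k m M : ℕ)
    (hm : ∀ G ∈ GG d B k, m ≤ (univ.filter (fun q => Adm B G q)).card)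
    (hM : ∀ G ∈ GG d B (k + 2), (univ.filter (fun q => Rev B G q)).card ≤ M) :
    (GG d B k).card * m ≤ (GG d B (k + 2)).card * M := by
  have h1 : (GG d B k).card * m ≤ ((GG d B k).sigma (fun G => univ.filter (fun q => Adm B G q))).card := by
    rw [card_sigma, ← smul_eq_mul]
    exact card_nsmul_le_sum _ _ _ hm
  have h2 : ((GG d B (k + 2)).sigma (fun G => univ.filter (fun q => Rev B G q))).card ≤
      (GG d B (k + 2)).card * M := by
    rw [card_sigma, ← smul_eq_mul]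
    exact sum_le_card_nsmul _ _ _ hM
  refine (h1.trans ?_).trans h2
  refine card_le_card_of_injOn (fun p => ⟨sw p.1 p.2, p.2⟩) ?_ ?_
  · rintro ⟨G, x, y, x', y'⟩ hp
    have hp' := mem_sigma.1 (mem_coe.1 hp)
    have hG := (mem_filter.1 hp'.1).2
    have hq := (mem_filter.1 hp'.2).2
    rw [mem_coe, mem_sigma]
    refine ⟨?_, ?_⟩
    · unfold GG
      rw [mem_filter]
      refine ⟨mem_univ _, fun u => ?_, ?_⟩
      · exact (sw_dg hq u).trans (hG.1 u)
      · have := sw_ee hq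
        simp only
        rw [this, hG.2]
    · rw [mem_filter]
      exact ⟨mem_univ _, sw_rev hq⟩
  · rintro ⟨G, q⟩ _ ⟨G', q'⟩ _ h
    simp only [Sigma.mk.injEq, heq_eq_eq] at h
    obtain ⟨h1, h2⟩ := h
    subst h2
    have := congrArg (fun H => sw H q) h1
    simp only [sw_sw] at this
    rw [this]

end Pool.Agent.T2H64.Star
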